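import Pool.Agent.Helper57.Perc.AnnGlue

/-!
Quasi-multiplicativity in the quadrant.
-/

set_option autoImplicit false

namespace H47Perc
open Finset
open Pool.Agent.Helper69.RSW (P P_mono P_map P_restrict P_congr Dep Up harris P_nonneg P_indep
  P_or_le P_le_one)

/-- The quarter circuit: a barrier in the quadrant. -/
lemma barrier_quad {m n : ℤ} (hm : 1 ≤ m) (hmn : 2 * m ≤ n) {ω : Finset (Sym2 (ℤ × ℤ))}
    (hV : BT m (2 * m) 0 (2 * m) (ω ∩ edgesIn (box m (2 * m) 0 (2 * m))))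
    (hH : LR 0 (2 * m) m (2 * m) (ω ∩ edgesIn (box 0 (2 * m) m (2 * m)))) :
    ∃ κ : ℤ × ℤ, ∀ u z : ℤ × ℤ, nrm u ≤ m → 2 * m ≤ nrm z →
      Joined (ω ∩ edgesIn (box 0 n 0 n)) u z → Joined (ω ∩ edgesIn (box 0 n 0 n)) κ u := by
  classical
  set D := box 0 n 0 n with hD
  obtain ⟨ya, yb, l1, l2, l3, l4, hH⟩ := hH
  obtain ⟨xa, xb, i1, i2, i3, i4, hV⟩ := hV
  refine ⟨(0, ya), fun u z hu hz hj => ?_⟩
  set Q := box 0 (2 * m) 0 (2 * m) with hQ
  have hQD : Q ⊆ D := box_mono le_rfl (by omega) le_rfl (by omega)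
  have sV : box m (2 * m) 0 (2 * m) ⊆ D := box_mono (by omega) (by omega) le_rfl (by omega)
  have sH : box 0 (2 * m) m (2 * m) ⊆ D := box_mono le_rfl (by omega) (by omega) (by omega)
  have hκ : ((0, ya) : ℤ × ℤ) ∈ box 0 (2 * m) m (2 * m) := by
    rw [mem_box]; simp only; omega
  have hVs : ((xa, 0) : ℤ × ℤ) ∈ box m (2 * m) 0 (2 * m) := by rw [mem_box]; simp only; omega
  have hDV : ∀ w ∈ box m (2 * m) 0 (2 * m), w ∉ D → ∀ w' : ℤ × ℤ, w.2 ≤ w'.2 →
      w'.2 ≤ 2 * m → w'.1 = w.1 → w' ∉ D := fun w hw h1 => absurd (sV hw) h1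
  have c1 : Joined (ω ∩ edgesIn D) (xa, 0) (0, ya) :=
    vcross (D := D) hDV hV (sV hVs) hVs (by omega) sH hH hκ
      (fun w hw => by rw [mem_box] at hw; omega) (by simp only; omega) (by simp only; omega)
  have huD : u ∈ D := by
    apply mem_of_joined_ne inter_subset_right hj
    rintro rfl
    omega
  have huQ : u ∈ Q := by
    rw [nrm_le, abs_le, abs_le] at hu
    rw [hD, mem_box] at huD
    rw [hQ, mem_box]
    omega
  have huI : u ∈ Q ∩ D := mem_inter.2 ⟨huQ, huD⟩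
  obtain ⟨w, hw1, hw2⟩ : ∃ w : ℤ × ℤ, Joined (ω ∩ edgesIn (Q ∩ D)) u w ∧
      (w.1 = 2 * m ∨ w.2 = 2 * m) := by
    rcases joined_trunc (D := Q) hj huQ with h1 | ⟨w, w', h1, h2, h3, h4⟩
    · have hzI := mem_inter.1 (mem_of_joined inter_subset_right h1 huI)
      have hzQ := hzI.1
      rw [hQ, mem_box] at hzQ
      refine ⟨z, h1, ?_⟩
      rw [le_nrm] at hz
      rcases abs_cases z.1 with h5 | h5 <;> rcases abs_cases z.2 with h6 | h6 <;> omega
    · have hwI := mem_inter.1 (mem_of_joined inter_subset_right h4 huI)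
      have hwQ := hwI.1
      rw [hQ, mem_box] at hwQ h1
      rw [hD, mem_box] at h2
      refine ⟨w, h4, ?_⟩
      rcases adj_cases h3 with h | h | h | h <;> rw [h] at h1 h2 <;> dsimp only at h1 h2 <;> omega
  have hwI : w ∈ Q ∩ D := mem_of_joined inter_subset_right hw1 huI
  have hjD : Joined (ω ∩ edgesIn D) u w :=
    joined_mono (inter_subset_inter_left (edgesIn_mono inter_subset_right)) hw1
  have hrows : ∀ v ∈ Q ∩ D, 0 ≤ v.2 ∧ v.2 ≤ 2 * m := by
    intro v hv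
    have := (mem_inter.1 hv).1
    rw [hQ, mem_box] at this
    omega
  have hcols : ∀ v ∈ Q ∩ D, 0 ≤ v.1 ∧ v.1 ≤ 2 * m := by
    intro v hv
    have := (mem_inter.1 hv).1
    rw [hQ, mem_box] at this
    omega
  rw [nrm_le, abs_le, abs_le] at hu
  rcases hw2 with h | h
  · have d1 := vcross (D := D) hDV hV (sV hVs) hVs (by omega)
      (T := Q ∩ D) inter_subset_right hw1 huI hrows (by omega) (by omega)
    exact joined_trans (joined_symm c1) d1
  · have d1 := hcross (D := D) (fun v hv hv' => absurd (sH hv) hv') hH (sH hκ) hκ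
      (T := Q ∩ D) inter_subset_right (joined_symm hw1) hwI hcols (by omega) (by omega) (by omega)
    exact joined_trans d1 (joined_symm hjD)

/-- quasi-multiplicativity in the quadrant -/
theorem crQ_mul_le {c : ℝ} (hc : 0 < c)
    (hRSW : ∀ n : ℕ, 1 ≤ n → c ≤ pLR (6 * n) n) {m n : ℕ} (hm : 1 ≤ m) (hmn : 4 * m ≤ n) :
    crQ m n * piQ (4 * m) * c ^ 3 ≤ piQ n := by
  classical
  set D := box 0 (n:ℤ) 0 n with hD
  have hAD : quarterAnn m n ⊆ D := by
    rw [← quarterAnn_eq]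
    exact fun z hz => (mem_annPart.1 hz).1
  set V : Finset (Sym2 (ℤ × ℤ)) → Prop := fun ω => BT m (2 * m) 0 (2 * m)
      (ω ∩ edgesIn (box m (2 * m) 0 (2 * m))) with hV
  set H : Finset (Sym2 (ℤ × ℤ)) → Prop := fun ω => LR 0 (2 * m) m (2 * m)
      (ω ∩ edgesIn (box 0 (2 * m) m (2 * m))) with hH
  set X : Finset (Sym2 (ℤ × ℤ)) → Prop :=
    fun ω => Cross m n (ω ∩ edgesIn (quarterAnn m n)) with hX
  set A : Finset (Sym2 (ℤ × ℤ)) → Prop := Arm D (0, 0) (4 * m : ℕ) with hA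
  have hDn : D ∩ ball (0, 0) n = D := by
    ext z; rw [mem_inter, hD, mem_ball, mem_box, abs_le, abs_le]; simp only; omega
  have pX : perc half D X = crQ m n := perc_restrict hAD _
  have pA : perc half D A = piQ (4 * m) := by
    rw [hA, perc_arm (0, 0) _ inter_subset_left, piQ_eq (n := 4 * m) D]
    ext z; rw [mem_inter, hD, mem_ball, mem_box, mem_box, abs_le, abs_le]
    simp only; push_cast; omega
  have pV : c ≤ perc half D V := by
    have e : perc half D V = perc half (box m (2 * m) 0 (2 * m)) (BT m (2 * m) 0 (2 * m)) :=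
      perc_restrict (box_mono (by omega) (by omega) (by omega) (by omega)) _
    rw [e, perc_BT, show (2 * (m:ℤ) - 0) = 2 * m by ring,
      show (2 * (m:ℤ) - m) = m by ring]
    exact (hRSW m hm).trans (pLR_anti (by omega) (by omega) _)
  have pH : c ≤ perc half D H := by
    have e : perc half D H = perc half (box 0 (2 * m) m (2 * m)) (LR 0 (2 * m) m (2 * m)) :=
      perc_restrict (box_mono (by omega) (by omega) (by omega) (by omega)) _
    rw [e, perc_LR, show (2 * (m:ℤ) - 0) = 2 * m by ring,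
      show (2 * (m:ℤ) - m) = m by ring]
    exact (hRSW m hm).trans (pLR_anti (by omega) (by omega) _)
  have hc1 : c ≤ 1 := pV.trans (perc_half_le_one _ _)
  have uX : Up X := up_inter (cross_up _ _) _
  have uA : Up A := arm_up _ _ _
  have uV : Up V := up_inter (up_BT _ _ _ _) _
  have uH : Up H := up_inter (up_LR _ _ _ _) _
  have h1 := perc_harris D uX uA
  have h2 := perc_harris D uV uH
  have h4 := perc_harris D (uX.and uA) (uV.and uH)
  have h5 : perc half D (fun ω => (X ω ∧ A ω) ∧ (V ω ∧ H ω)) ≤ piQ n := by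
    rw [piQ_eq (n := n) D hDn, ← perc_arm (T := D) (0, 0) n inter_subset_left]
    apply perc_half_mono
    rintro ω _ ⟨⟨⟨u, z, x1, x2, x3⟩, ⟨v, a1, a2⟩⟩, ⟨g1, g2⟩⟩
    obtain ⟨κ, hκ⟩ := barrier_quad (m := m) (n := n) (by omega) (by omega) g1 g2
    have x3' : Joined (ω ∩ edgesIn D) u z :=
      joined_mono (inter_subset_inter_left (edgesIn_mono hAD)) x3
    have a2' : Joined (ω ∩ edgesIn D) (0, 0) v :=
      joined_mono (inter_subset_inter_left (edgesIn_mono inter_subset_left)) a2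
    have k1 := hκ u z (by omega) (by omega) x3'
    have k2 := hκ (0, 0) v (by rw [nrm_le]; simp) (by
      unfold AtDist at a1
      rw [le_nrm]
      rw [sub_zero, sub_zero] at a1
      push_cast at a1
      omega) a2'
    have k3 : Joined (ω ∩ edgesIn D) (0, 0) z :=
      joined_trans (joined_symm k2) (joined_trans k1 x3')
    apply arm_of_joined (by omega) k3
    rw [sub_zero, sub_zero, ← le_nrm]
    omega
  have n1 : 0 ≤ perc half D X := perc_half_nonneg _ _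
  have n2 : 0 ≤ perc half D A := perc_half_nonneg _ _
  have n3 : 0 ≤ perc half D V := perc_half_nonneg _ _
  have s1 : c * c ≤ perc half D V * perc half D H := mul_le_mul pV pH hc.le n3
  have s2 : c ^ 3 ≤ c * c := by nlinarith [mul_nonneg hc.le hc.le]
  have s3 : c ^ 3 ≤ perc half D (fun ω => V ω ∧ H ω) := s2.trans (s1.trans h2)
  calc crQ m n * piQ (4 * m) * c ^ 3
      = (perc half D X * perc half D A) * c ^ 3 := by rw [pX, pA]
    _ ≤ perc half D (fun ω => X ω ∧ A ω) * perc half D (fun ω => V ω ∧ H ω) :=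
        mul_le_mul h1 s3 (by positivity) (perc_half_nonneg _ _)
    _ ≤ _ := h4.trans h5

/-! ### symmetries -/

lemma nrm_transp (z : ℤ × ℤ) : nrm (transp z) = nrm z := by
  obtain ⟨x, y⟩ := z
  exact max_comm _ _

lemma nrm_reflX (z : ℤ × ℤ) : nrm (reflX z) = nrm z := by
  obtain ⟨x, y⟩ := z
  unfold nrm reflX
  simp

lemma perc_cross_map {f : ℤ × ℤ ≃ ℤ × ℤ} (hf : IsIso f) (hn : ∀ z, nrm (f z) = nrm z)
    (S : Finset (ℤ × ℤ)) (m n : ℤ) :
    perc half (S.map f.toEmbedding) (Cross m n) = perc half S (Cross m n) := by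
  rw [perc_half_map hf]
  congr 1
  funext ω
  apply propext
  constructor
  · rintro ⟨u, z, h1, h2, h3⟩
    refine ⟨f.symm u, f.symm z, ?_, ?_, ?_⟩
    · rw [← hn, f.apply_symm_apply]; exact h1
    · rw [← hn, f.apply_symm_apply]; exact h2
    · rw [← joined_map (f := f), f.apply_symm_apply, f.apply_symm_apply]; exact h3
  · rintro ⟨u, z, h1, h2, h3⟩
    exact ⟨f u, f z, by rw [hn]; exact h1, by rw [hn]; exact h2, joined_map.2 h3⟩

lemma mem_halfAnn {a b : ℝ} {m n : ℤ} {z : ℤ × ℤ} :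
    z ∈ halfAnn a b m n ↔ (m ≤ nrm z ∧ nrm z ≤ n) ∧ a * z.1 + b * z.2 ≤ 0 := by
  rw [← halfAnn_eq, mem_annPart, mem_halfBox, mem_ball_zero]
  tauto

lemma crH_transp (a b : ℝ) (m n : ℕ) : crH b a m n = crH a b m n := by
  unfold crH
  rw [← perc_cross_map transp_iso nrm_transp (halfAnn a b m n)]
  congr 1
  ext z
  rw [mem_map_equiv, mem_halfAnn, mem_halfAnn]
  have e : nrm (transp.symm z) = nrm z := nrm_transp z
  rw [e]
  obtain ⟨x, y⟩ := z
  simp only [transp, Equiv.prodComm_symm, Equiv.prodComm_apply, Prod.swap_prod_mk]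
  rw [add_comm (b * (x:ℝ))]

lemma crH_reflX (a b : ℝ) (m n : ℕ) : crH (-a) b m n = crH a b m n := by
  unfold crH
  rw [← perc_cross_map reflX_sym.1 nrm_reflX (halfAnn a b m n)]
  congr 1
  ext z
  rw [mem_map_equiv, mem_halfAnn, mem_halfAnn]
  have e : nrm (reflX.symm z) = nrm z := nrm_reflX z
  rw [e]
  obtain ⟨x, y⟩ := z
  simp only [reflX, Equiv.prodCongr_symm, Equiv.prodCongr_apply, Prod.map_apply,
    Equiv.refl_symm, Equiv.coe_refl, id_eq, Equiv.neg_symm, Equiv.neg_apply, Int.cast_neg,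
    neg_mul, mul_neg]

lemma crH_reflY (a b : ℝ) (m n : ℕ) : crH a (-b) m n = crH a b m n := by
  rw [← crH_transp, crH_reflX, crH_transp]

lemma crH_abs (a b : ℝ) (m n : ℕ) : crH |a| |b| m n = crH a b m n := by
  rcases abs_choice a with ha | ha <;> rcases abs_choice b with hb | hb <;> rw [ha, hb]
  · exact crH_reflY a b m n
  · exact crH_reflX a b m n
  · rw [crH_reflX, crH_reflY]

/-- every direction is equivalent to one in the first octant -/
lemma octant_cr (a b : ℝ) (h : a ≠ 0 ∨ b ≠ 0) : ∃ a' b' : ℝ, a' ≤ b' ∧ 0 ≤ a' ∧ 0 < b' ∧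
    (∀ n, piH a b n = piH a' b' n) ∧ ∀ m n, crH a b m n = crH a' b' m n := by
  rcases le_total |a| |b| with h1 | h1
  · refine ⟨|a|, |b|, h1, abs_nonneg a, ?_, fun n => (piH_abs a b n).symm,
      fun m n => (crH_abs a b m n).symm⟩
    rcases h with h | h
    · exact lt_of_lt_of_le (abs_pos.2 h) h1
    · exact abs_pos.2 h
  · refine ⟨|b|, |a|, h1, abs_nonneg b, ?_, fun n => ?_, fun m n => ?_⟩
    · rcases h with h | h
      · exact abs_pos.2 h
      · exact lt_of_lt_of_le (abs_pos.2 h) h1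
    · rw [piH_transp |a| |b|, piH_abs]
    · rw [crH_transp |a| |b|, crH_abs]

theorem crH_mul_le' {a b : ℝ} (hab : a ≠ 0 ∨ b ≠ 0) {c : ℝ} (hc : 0 < c)
    (hRSW : ∀ n : ℕ, 1 ≤ n → c ≤ pLR (6 * n) n) {m n : ℕ} (hm : 1 ≤ m) (hmn : 4 * m ≤ n) :
    crH a b m n * piH a b (4 * m) * c ^ 3 ≤ piH a b n := by
  obtain ⟨a', b', h1, h2, h3, h4, h5⟩ := octant_cr a b hab
  rw [h4, h4, h5]
  exact crH_mul_le h1 h2 h3 hc hRSW hm hmn

lemma crH_nonneg (a b : ℝ) (m n : ℕ) : 0 ≤ crH a b m n := perc_half_nonneg _ _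
lemma crH_le_one (a b : ℝ) (m n : ℕ) : crH a b m n ≤ 1 := perc_half_le_one _ _
lemma crQ_nonneg (m n : ℕ) : 0 ≤ crQ m n := perc_half_nonneg _ _
lemma crQ_le_one (m n : ℕ) : crQ m n ≤ 1 := perc_half_le_one _ _

/-! ### exponents -/

/-- transfer of an exponent to the crossing probabilities -/
lemma exponent_transfer {α c1 C1 c : ℝ} (hα : 0 < α) (hc1 : 0 < c1) (hC1 : 0 < C1) (hc : 0 < c) :
    ∃ k K : ℝ, 0 < k ∧ ∀ (f : ℕ → ℝ) (g : ℕ → ℕ → ℝ),
      (∀ n : ℕ, 1 ≤ n → c1 * (n:ℝ) ^ (-α) ≤ f n ∧ f n ≤ C1 * (n:ℝ) ^ (-α)) → f 0 ≤ 1 →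
      (∀ m n : ℕ, 0 ≤ g m n ∧ g m n ≤ 1) →
      (∀ m n : ℕ, 1 ≤ m → m ≤ n → f n ≤ f (m - 1) * g m n) →
      (∀ m n : ℕ, 1 ≤ m → 4 * m ≤ n → g m n * f (4 * m) * c ≤ f n) →
      ∀ m n : ℕ, 1 ≤ m → m ≤ n → k * ((m:ℝ) / n) ^ α ≤ g m n ∧ g m n ≤ K * ((m:ℝ) / n) ^ α := by
  have h2α : (0:ℝ) < 2 ^ α := Real.rpow_pos_of_pos (by norm_num) _
  have h4α : (0:ℝ) < 4 ^ α := Real.rpow_pos_of_pos (by norm_num) _
  refine ⟨c1 / max 1 (C1 * 2 ^ α), max (4 ^ α) (C1 * 4 ^ α / (c * c1)), by positivity,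
    fun f g hf h0 hg hlow hup m n hm hmn => ?_⟩
  have hm0 : (0:ℝ) < m := by exact_mod_cast hm
  have hn0 : (0:ℝ) < n := by
    have : 0 < n := by omega
    exact_mod_cast this
  have hmn' : (m:ℝ) ≤ n := by exact_mod_cast hmn
  have hX : (0:ℝ) < (m:ℝ) ^ α := Real.rpow_pos_of_pos hm0 _
  have hY : (0:ℝ) < (n:ℝ) ^ (-α) := Real.rpow_pos_of_pos hn0 _
  have hdiv : ((m:ℝ) / n) ^ α = (m:ℝ) ^ α * (n:ℝ) ^ (-α) := by
    rw [Real.div_rpow hm0.le hn0.le, Real.rpow_neg hn0.le, div_eq_mul_inv]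
  have hXX : (m:ℝ) ^ (-α) * (m:ℝ) ^ α = 1 := by
    rw [← Real.rpow_add hm0]; simp
  constructor
  · -- lower bound
    have h1 := hlow m n hm hmn
    have h2 := (hf n (by omega)).1
    have h3 : f (m - 1) * (m:ℝ) ^ α ≤ max 1 (C1 * 2 ^ α) := by
      rcases Nat.lt_or_ge m 2 with h | h
      · have : m = 1 := by omega
        subst this
        simpa using Or.inl h0
      · obtain ⟨r, rfl⟩ : ∃ r, m = r + 1 := ⟨m - 1, by omega⟩
        have hr : 1 ≤ r := by omega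
        have hr0 : (0:ℝ) < r := by exact_mod_cast hr
        have hr1 : (1:ℝ) ≤ r := by exact_mod_cast hr
        refine le_trans ?_ (le_max_right _ _)
        have h4 := (hf r hr).2
        have h5 : (((r + 1 : ℕ):ℝ)) ^ α ≤ (2 * (r:ℝ)) ^ α := by
          apply Real.rpow_le_rpow (by positivity) _ hα.le
          push_cast
          linarith
        rw [Real.mul_rpow (by norm_num) hr0.le] at h5
        have h6 : (r:ℝ) ^ (-α) * (r:ℝ) ^ α = 1 := by
          rw [← Real.rpow_add hr0]; simp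
        have h7 : 0 ≤ f r := le_trans (by positivity) (hf r hr).1
        simp only [Nat.add_sub_cancel]
        calc f r * ((r + 1 : ℕ):ℝ) ^ α ≤ (C1 * (r:ℝ) ^ (-α)) * (2 ^ α * (r:ℝ) ^ α) :=
              mul_le_mul h4 h5 (by positivity) (by positivity)
          _ = C1 * 2 ^ α * ((r:ℝ) ^ (-α) * (r:ℝ) ^ α) := by ring
          _ = C1 * 2 ^ α := by rw [h6, mul_one]
    rw [hdiv, div_mul_eq_mul_div, div_le_iff₀ (by positivity)]
    calc c1 * ((m:ℝ) ^ α * (n:ℝ) ^ (-α)) = (c1 * (n:ℝ) ^ (-α)) * (m:ℝ) ^ α := by ring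
      _ ≤ (f (m - 1) * g m n) * (m:ℝ) ^ α :=
          mul_le_mul_of_nonneg_right (h2.trans h1) hX.le
      _ = g m n * (f (m - 1) * (m:ℝ) ^ α) := by ring
      _ ≤ g m n * max 1 (C1 * 2 ^ α) := mul_le_mul_of_nonneg_left h3 (hg m n).1
  · rcases Nat.lt_or_ge n (4 * m) with h | h
    · refine (hg m n).2.trans ?_
      have h1 : (1:ℝ) ≤ 4 ^ α * ((m:ℝ) / n) ^ α := by
        rw [← Real.mul_rpow (by norm_num) (by positivity)]
        apply Real.one_le_rpow _ hα.le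
        rw [mul_div_assoc', le_div_iff₀ hn0, one_mul]
        have : (n:ℝ) < 4 * m := by exact_mod_cast h
        exact this.le
      refine h1.trans (mul_le_mul_of_nonneg_right (le_max_left _ _) (by positivity))
    · have h1 := hup m n hm h
      have h2 := (hf n (by omega)).2
      have h3 := (hf (4 * m) (by omega)).1
      have h4 : (((4 * m : ℕ):ℝ)) ^ (-α) = (4 ^ α)⁻¹ * (m:ℝ) ^ (-α) := by
        push_cast
        rw [Real.mul_rpow (by norm_num) hm0.le, Real.rpow_neg (by norm_num : (0:ℝ) ≤ 4)]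
      rw [h4] at h3
      have h5 : g m n * (c1 * ((4 ^ α)⁻¹ * (m:ℝ) ^ (-α))) * c ≤ C1 * (n:ℝ) ^ (-α) := by
        refine le_trans (mul_le_mul_of_nonneg_right (mul_le_mul_of_nonneg_left h3 (hg m n).1)
          hc.le) (h1.trans h2)
      refine le_trans ?_ (mul_le_mul_of_nonneg_right (le_max_right _ _) (by positivity))
      rw [hdiv, div_mul_eq_mul_div, le_div_iff₀ (by positivity)]
      have h6 : g m n * (c * c1) = (g m n * (c1 * ((4 ^ α)⁻¹ * (m:ℝ) ^ (-α))) * c) *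
          (4 ^ α * (m:ℝ) ^ α) := by
        calc g m n * (c * c1) = g m n * (c * c1) * ((4 ^ α)⁻¹ * 4 ^ α) *
              ((m:ℝ) ^ (-α) * (m:ℝ) ^ α) := by
              rw [hXX, inv_mul_cancel₀ h4α.ne', mul_one, mul_one]
          _ = _ := by ring
      rw [h6]
      calc _ ≤ (C1 * (n:ℝ) ^ (-α)) * (4 ^ α * (m:ℝ) ^ α) :=
            mul_le_mul_of_nonneg_right h5 (by positivity)
        _ = C1 * 4 ^ α * ((m:ℝ) ^ α * (n:ℝ) ^ (-α)) := by ring

/-- **Crossing probabilities of half annuli and quarter annuli**, from the one-arm exponents. -/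
theorem crossing_exponents (hX : CrossBound)
    (hE : ∃ c C : ℝ, 0 < c ∧
      (∀ a b : ℝ, (a ≠ 0 ∨ b ≠ 0) → ∀ n : ℕ, 1 ≤ n →
        c * (n:ℝ) ^ (-(1 / 3) : ℝ) ≤ piH a b n ∧ piH a b n ≤ C * (n:ℝ) ^ (-(1 / 3) : ℝ)) ∧
      ∀ n : ℕ, 1 ≤ n → c * (n:ℝ) ^ (-(2 / 3) : ℝ) ≤ piQ n ∧
        piQ n ≤ C * (n:ℝ) ^ (-(2 / 3) : ℝ)) :
    ∃ k K : ℝ, 0 < k ∧ ∀ m n : ℕ, 1 ≤ m → m ≤ n →
      (∀ a b : ℝ, (a ≠ 0 ∨ b ≠ 0) → k * ((m:ℝ) / n) ^ (1 / 3 : ℝ) ≤ crH a b m n ∧
        crH a b m n ≤ K * ((m:ℝ) / n) ^ (1 / 3 : ℝ)) ∧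
      k * ((m:ℝ) / n) ^ (2 / 3 : ℝ) ≤ crQ m n ∧ crQ m n ≤ K * ((m:ℝ) / n) ^ (2 / 3 : ℝ) := by
  obtain ⟨c, C, hc, h1, h2⟩ := hE
  obtain ⟨r, hr, hRSW⟩ := hX 6
  have hRSW' : ∀ n : ℕ, 1 ≤ n → r ≤ pLR (6 * n) n := fun n hn => by exact_mod_cast hRSW n hn
  have hC : 0 < C := by
    obtain ⟨e1, e2⟩ := h2 1 le_rfl
    simp only [Nat.cast_one, Real.one_rpow, mul_one] at e1 e2
    linarith
  obtain ⟨k1, K1, hk1, hH⟩ := exponent_transfer (α := 1 / 3) (c1 := c) (C1 := C) (c := r ^ 3)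
    (by norm_num) hc hC (by positivity)
  obtain ⟨k2, K2, hk2, hQ⟩ := exponent_transfer (α := 2 / 3) (c1 := c) (C1 := C) (c := r ^ 3)
    (by norm_num) hc hC (by positivity)
  refine ⟨min k1 k2, max K1 K2, lt_min hk1 hk2, fun m n hm hmn => ⟨fun a b hab => ?_, ?_⟩⟩
  · have h := hH (fun n => piH a b n) (fun m n => crH a b m n) (h1 a b hab) (piH_le_one _ _ _)
      (fun m n => ⟨crH_nonneg _ _ _ _, crH_le_one _ _ _ _⟩)
      (fun m n hm hmn => piH_le_mul a b hm hmn)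
      (fun m n hm hmn => crH_mul_le' hab hr hRSW' hm hmn) m n hm hmn
    have h0 : 0 ≤ ((m:ℝ) / n) ^ (1 / 3 : ℝ) := by positivity
    exact ⟨(mul_le_mul_of_nonneg_right (min_le_left _ _) h0).trans h.1,
      h.2.trans (mul_le_mul_of_nonneg_right (le_max_left _ _) h0)⟩
  · have h := hQ (fun n => piQ n) (fun m n => crQ m n) h2 (piQ_le_one _)
      (fun m n => ⟨crQ_nonneg _ _, crQ_le_one _ _⟩)
      (fun m n hm hmn => piQ_le_mul hm hmn)
      (fun m n hm hmn => crQ_mul_le hr hRSW' hm hmn) m n hm hmn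
    have h0 : 0 ≤ ((m:ℝ) / n) ^ (2 / 3 : ℝ) := by positivity
    exact ⟨(mul_le_mul_of_nonneg_right (min_le_right _ _) h0).trans h.1,
      h.2.trans (mul_le_mul_of_nonneg_right (le_max_right _ _) h0)⟩

end H47Perc
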