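import Pool.Agent.Helper57.Perc.DualA

/-!
Duality in the half-plane, part 2: a dual path from the gap to the outside separates the arcs.
-/

set_option autoImplicit false

namespace H47Perc
open Finset SimpleGraph
open Pool.Agent.Helper69.RSW (P P_mono P_map P_restrict P_congr Dep Up harris P_nonneg P_indep
  P_or_le P_le_one P_flip P_compl P_sum P_insert P_true P_false)

/-- the dual edge: the face `(i,j)` has the lower left corner `(i,j)` -/
def dE (e : Sym2 (ℤ × ℤ)) : Sym2 (ℤ × ℤ) := Sym2.map (fun z : ℤ × ℤ => (z.2, z.1 - 1)) (dT e)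

lemma dE_hE (i j : ℤ) : dE (hE i j) = vE i (j - 1) := by
  unfold dE
  rw [dT_hE]
  unfold hE vE
  rw [Sym2.map_mk]
  simp

lemma dE_vE (i j : ℤ) : dE (vE i j) = hE (i - 1) j := by
  unfold dE
  rw [dT_vE]
  unfold hE vE
  rw [Sym2.map_mk]
  simp

lemma dE_injOn (S : Finset (ℤ × ℤ)) : Set.InjOn dE (edgesIn S : Set (Sym2 (ℤ × ℤ))) := by
  intro e he e' he' h
  rcases edgesIn_cases (Finset.mem_coe.1 he) with ⟨i, j, rfl⟩ | ⟨i, j, rfl⟩ <;>
    rcases edgesIn_cases (Finset.mem_coe.1 he') with ⟨i', j', rfl⟩ | ⟨i', j', rfl⟩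
  · rw [dE_hE, dE_hE] at h
    have := vE_inj h
    congr 1 <;> omega
  · rw [dE_hE, dE_vE] at h
    exact absurd h.symm (hE_ne_vE _ _ _ _)
  · rw [dE_vE, dE_hE] at h
    exact absurd h (hE_ne_vE _ _ _ _)
  · rw [dE_vE, dE_vE] at h
    have := hE_inj h
    congr 1 <;> omega

lemma crossEdge_eq {u v : ℤ × ℤ} (h : lattice.Adj u v) :
    crossEdge (u.1 - 1, u.2 - 1) (v.1 - 1, v.2 - 1) = dE s(u, v) := by
  rcases adj_edge_cases h with ⟨x, y, e, (⟨rfl, rfl⟩ | ⟨rfl, rfl⟩)⟩ |
    ⟨x, y, e, (⟨rfl, rfl⟩ | ⟨rfl, rfl⟩)⟩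
  · change _ = dE (vE x y)
    rw [dE_vE]
    unfold crossEdge hE
    simp <;> omega
  · rw [Sym2.eq_swap]
    change _ = dE (vE x y)
    rw [dE_vE]
    unfold crossEdge hE
    simp <;> omega
  · change _ = dE (hE x y)
    rw [dE_hE]
    unfold crossEdge vE
    simp
  · rw [Sym2.eq_swap]
    change _ = dE (hE x y)
    rw [dE_hE]
    unfold crossEdge vE
    simp

/-- the translation by `(-1,-1)` as a homomorphism -/
def shiftHom : lattice →g lattice where
  toFun z := (z.1 - 1, z.2 - 1)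
  map_rel' := by
    intro u v h
    have := adj_sub (1, 1) h
    exact this

/-- a vertical walk of faces and a horizontal walk of vertices cross -/
theorem cross_dual {u v a b : ℤ × ℤ} (p : lattice.Walk u v) (q : lattice.Walk a b)
    (hq : ∀ w ∈ q.support, v.2 + 1 ≤ w.2 ∧ w.2 ≤ u.2)
    (ha : ∀ w ∈ p.support, a.1 ≤ w.1) (hb : ∀ w ∈ p.support, w.1 < b.1) :
    ∃ e ∈ q.edges, dE e ∈ p.edges := by
  have hsup : ∀ w ∈ (q.map shiftHom).support, ∃ w' ∈ q.support, w = (w'.1 - 1, w'.2 - 1) := by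
    intro w hw
    rw [Walk.support_map, List.mem_map] at hw
    obtain ⟨w', h1, h2⟩ := hw
    exact ⟨w', h1, h2.symm⟩
  obtain ⟨d, hd, hd2⟩ := crossing_faces p (q.map shiftHom) (by
    intro w hw
    obtain ⟨w', h1, rfl⟩ := hsup w hw
    have := hq w' h1
    simp only
    omega) (by
    intro w hw
    have := ha w hw
    change a.1 - 1 < w.1
    omega) (by
    intro w hw
    have := hb w hw
    change w.1 ≤ b.1 - 1
    omega)
  rw [Walk.darts_map, List.mem_map] at hd
  obtain ⟨d', hd', rfl⟩ := hd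
  refine ⟨s(d'.fst, d'.snd), ?_, ?_⟩
  · have : d'.edge ∈ q.edges := by
      unfold Walk.edges
      exact List.mem_map_of_mem hd'
    exact this
  · rw [← crossEdge_eq d'.adj]
    exact hd2

/-- no primal path and dual path with disjoint edges -/
lemma no_cross {S1 S2 : Finset (ℤ × ℤ)} {ω η : Finset (Sym2 (ℤ × ℤ))} {u v a b : ℤ × ℤ}
    (hω : ω ⊆ edgesIn S1) (hη : η ⊆ edgesIn S2) (ha : a ∈ S1) (hu : u ∈ S2)
    (h1 : ∀ w ∈ S1, v.2 + 1 ≤ w.2 ∧ w.2 ≤ u.2) (h2 : ∀ w ∈ S2, a.1 ≤ w.1 ∧ w.1 < b.1)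
    (hd : ∀ e ∈ ω, dE e ∉ η) (hj : Joined ω a b) (hj' : Joined η u v) : False := by
  obtain ⟨q, hq1, hq2⟩ := joined_walk_in hω ha hj
  obtain ⟨p, hp1, hp2⟩ := joined_walk_in hη hu hj'
  obtain ⟨e, he1, he2⟩ := cross_dual p q (fun w hw => h1 w (hq2 w hw))
    (fun w hw => (h2 w (hp2 w hw)).1) (fun w hw => (h2 w (hp2 w hw)).2)
  exact hd e (hq1 e he1) (hp1 _ he2)

lemma joined_hline {ω : Finset (Sym2 (ℤ × ℤ))} {x x' y : ℤ} (h : x ≤ x')
    (hω : ∀ i, x ≤ i → i < x' → hE i y ∈ ω) : Joined ω (x, y) (x', y) := by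
  obtain ⟨k, rfl⟩ : ∃ k : ℕ, x' = x + k := ⟨(x' - x).toNat, by omega⟩
  clear h
  induction k with
  | zero => simpa using joined_refl ω (x, y)
  | succ k ih =>
    refine joined_trans (ih (fun i h1 h2 => hω i h1 (by push_cast; omega))) ?_
    have h1 := hω (x + k) (by omega) (by push_cast; omega)
    unfold hE at h1
    have h2 := joined_edge h1
    push_cast
    rwa [← add_assoc]

lemma joined_vline {ω : Finset (Sym2 (ℤ × ℤ))} {x y y' : ℤ} (h : y ≤ y')
    (hω : ∀ i, y ≤ i → i < y' → vE x i ∈ ω) : Joined ω (x, y) (x, y') := by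
  obtain ⟨k, rfl⟩ : ∃ k : ℕ, y' = y + k := ⟨(y' - y).toNat, by omega⟩
  clear h
  induction k with
  | zero => simpa using joined_refl ω (x, y)
  | succ k ih =>
    refine joined_trans (ih (fun i h1 h2 => hω i h1 (by push_cast; omega))) ?_
    have h1 := hω (y + k) (by omega) (by push_cast; omega)
    unfold vE at h1
    have h2 := joined_edge h1
    push_cast
    rwa [← add_assoc]

/-- the dual separation event -/
def SepE (N : ℤ) (a₂ a₃ a₄ a₅ : ℤ) (η : Finset (Sym2 (ℤ × ℤ))) : Prop :=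
  ∃ x y : ℤ, (a₂ ≤ x ∧ x < a₃) ∧ (a₄ - 1 ≤ y ∧ y < a₅) ∧
    Joined (η ∩ edgesIn (box (-N) (N - 1) 0 (N - 1))) (x, 0) (y, 0) ∧
    vE x (-1) ∈ η ∧ vE y (-1) ∈ η

/-- the dual separation implies that the arcs are not joined -/
lemma not_seg_of_sep {N a₁ a₂ a₃ a₄ a₅ : ℤ} (hN : -N ≤ a₁) (h12 : a₁ < a₂) (h23 : a₂ < a₃)
    (h34 : a₃ < a₄) (h5 : a₅ ≤ N) {ω : Finset (Sym2 (ℤ × ℤ))}
    (hω : ω ⊆ edgesIn (box (-N) N 0 N))
    (hs : SepE N a₂ a₃ a₄ a₅ ((edgesIn (box (-N) N 0 N) \ ω).image dE)) :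
    ¬ Seg a₁ a₂ a₃ a₄ ω := by
  classical
  rintro ⟨xA, xB, A1, A2, B1, B2, hAB⟩
  obtain ⟨x, y, hx, hy, hxy, hvx, hvy⟩ := hs
  set E := edgesIn (box (-N) N 0 N) with hE'
  set η := (E \ ω).image dE with hη
  -- boxes
  set S1 := box (-N - 1) (N + 1) (-1) N with hS1
  set S2 := box (-N - 1) N (-2) N with hS2
  set W : Finset (Sym2 (ℤ × ℤ)) := (edgesIn S1).filter (fun e =>
    (∃ i : ℤ, e = hE i (-1) ∧ (i < a₂ ∨ a₃ ≤ i)) ∨
    (∃ i : ℤ, e = vE i (-1) ∧ ((a₁ < i ∧ i ≤ a₂) ∨ (a₃ ≤ i ∧ i < a₄)))) with hW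
  set W' : Finset (Sym2 (ℤ × ℤ)) := (edgesIn S2).filter (fun e =>
    e = vE x (-2) ∨ (∃ i : ℤ, e = hE i (-1) ∧ y ≤ i) ∨ (∃ j : ℤ, e = vE N j ∧ -1 ≤ j)) with hW'
  have hηc : ∀ e ∈ η, (∃ i j : ℤ, e = vE i j ∧ -N ≤ i ∧ i < N ∧ -1 ≤ j ∧ j < N) ∨
      (∃ i j : ℤ, e = hE i j ∧ -N - 1 ≤ i ∧ i < N ∧ 0 ≤ j ∧ j < N) := by
    intro e he
    rw [hη, mem_image] at he
    obtain ⟨e', he', rfl⟩ := he
    have he'' := (mem_sdiff.1 he').1
    rcases edgesIn_cases he'' with ⟨i, j, rfl⟩ | ⟨i, j, rfl⟩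
    · rw [hE', hE_mem, mem_box, mem_box] at he''
      simp only at he''
      left
      exact ⟨i, j - 1, dE_hE i j, by omega⟩
    · rw [hE', vE_mem, mem_box, mem_box] at he''
      simp only at he''
      right
      exact ⟨i - 1, j, dE_vE i j, by omega⟩
  apply no_cross (S1 := S1) (S2 := S2) (ω := ω ∪ W) (η := η ∪ W') (a := (-N - 1, -1))
    (b := (N + 1, -1)) (u := (N, N)) (v := (x, -2))
  · -- `ω ∪ W ⊆ edgesIn S1`
    intro e he
    rcases mem_union.1 he with he | he
    · exact edgesIn_mono (box_mono (by omega) (by omega) (by omega) (by omega)) (hω he)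
    · rw [hW, mem_filter] at he
      exact he.1
  · intro e he
    rcases mem_union.1 he with he | he
    · rcases hηc e he with ⟨i, j, rfl, h⟩ | ⟨i, j, rfl, h⟩
      · rw [vE_mem, hS2, mem_box, mem_box]
        simp only
        omega
      · rw [hE_mem, hS2, mem_box, mem_box]
        simp only
        omega
    · rw [hW', mem_filter] at he
      exact he.1
  · rw [hS1, mem_box]; simp only; omega
  · rw [hS2, mem_box]; simp only; omega
  · intro w hw
    rw [hS1, mem_box] at hw
    simp only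
    omega
  · intro w hw
    rw [hS2, mem_box] at hw
    simp only
    omega
  · -- disjointness
    intro e he hcon
    rcases mem_union.1 he with he | he
    · have heE := hω he
      rcases mem_union.1 hcon with h | h
      · rw [hη, mem_image] at h
        obtain ⟨e', he', h6⟩ := h
        rw [mem_sdiff] at he'
        have := dE_injOn _ (Finset.mem_coe.2 he'.1) (Finset.mem_coe.2 heE) h6
        rw [this] at he'
        exact he'.2 he
      · rw [hW', mem_filter] at h
        rcases edgesIn_cases heE with ⟨i, j, rfl⟩ | ⟨i, j, rfl⟩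
        · rw [hE_mem, mem_box, mem_box] at heE
          simp only at heE
          rw [dE_hE] at h
          rcases h.2 with h6 | ⟨i', h6, _⟩ | ⟨j', h6, h9⟩
          · have := vE_inj h6; omega
          · exact hE_ne_vE _ _ _ _ h6.symm
          · have := vE_inj h6; omega
        · rw [vE_mem, mem_box, mem_box] at heE
          simp only at heE
          rw [dE_vE] at h
          rcases h.2 with h6 | ⟨i', h6, _⟩ | ⟨j', h6, h9⟩
          · exact hE_ne_vE _ _ _ _ h6
          · have := hE_inj h6; omega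
          · exact hE_ne_vE _ _ _ _ h6
    · rw [hW, mem_filter] at he
      rcases he.2 with ⟨i, rfl, hi⟩ | ⟨i, rfl, hi⟩
      · rw [dE_hE] at hcon
        rcases mem_union.1 hcon with h | h
        · rcases hηc _ h with ⟨i', j', h6, h7⟩ | ⟨i', j', h6, h7⟩
          · have := vE_inj h6; omega
          · exact hE_ne_vE _ _ _ _ h6.symm
        · rw [hW', mem_filter] at h
          rcases h.2 with h6 | ⟨i', h6, _⟩ | ⟨j', h6, h9⟩
          · have := vE_inj h6; omega
          · exact hE_ne_vE _ _ _ _ h6.symm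
          · have := vE_inj h6; omega
      · rw [dE_vE] at hcon
        rcases mem_union.1 hcon with h | h
        · rcases hηc _ h with ⟨i', j', h6, h7⟩ | ⟨i', j', h6, h7⟩
          · exact hE_ne_vE _ _ _ _ h6
          · have := hE_inj h6; omega
        · rw [hW', mem_filter] at h
          rcases h.2 with h6 | ⟨i', h6, h7⟩ | ⟨j', h6, h9⟩
          · exact hE_ne_vE _ _ _ _ h6
          · have := hE_inj h6; omega
          · exact hE_ne_vE _ _ _ _ h6
  · -- the primal path
    have j1 : Joined (ω ∪ W) (-N - 1, -1) (xA, -1) := by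
      apply joined_hline (by omega)
      intro i h1 h2
      rw [mem_union, hW, mem_filter, hE_mem, hS1, mem_box, mem_box]
      right
      refine ⟨by simp only; omega, Or.inl ⟨i, rfl, by omega⟩⟩
    have j2 : Joined (ω ∪ W) (xA, -1) (xA, 0) := by
      have : vE xA (-1) ∈ ω ∪ W := by
        rw [mem_union, hW, mem_filter, vE_mem, hS1, mem_box, mem_box]
        right
        refine ⟨by simp only; omega, Or.inr ⟨xA, rfl, by omega⟩⟩
      exact joined_edge this
    have j3 : Joined (ω ∪ W) (xA, 0) (xB, 0) := joined_mono subset_union_left hAB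
    have j4 : Joined (ω ∪ W) (xB, -1) (xB, 0) := by
      have : vE xB (-1) ∈ ω ∪ W := by
        rw [mem_union, hW, mem_filter, vE_mem, hS1, mem_box, mem_box]
        right
        refine ⟨by simp only; omega, Or.inr ⟨xB, rfl, by omega⟩⟩
      exact joined_edge this
    have j5 : Joined (ω ∪ W) (xB, -1) (N + 1, -1) := by
      apply joined_hline (by omega)
      intro i h1 h2
      rw [mem_union, hW, mem_filter, hE_mem, hS1, mem_box, mem_box]
      right
      refine ⟨by simp only; omega, Or.inl ⟨i, rfl, by omega⟩⟩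
    exact joined_trans j1 (joined_trans j2 (joined_trans j3 (joined_trans (joined_symm j4) j5)))
  · -- the dual path
    have j1 : Joined (η ∪ W') (x, -2) (x, -1) := by
      have : vE x (-2) ∈ η ∪ W' := by
        rw [mem_union, hW', mem_filter, vE_mem, hS2, mem_box, mem_box]
        right
        refine ⟨by simp only; omega, Or.inl rfl⟩
      exact joined_edge this
    have j2 : Joined (η ∪ W') (x, -1) (x, 0) := joined_edge (mem_union_left _ hvx)
    have j3 : Joined (η ∪ W') (x, 0) (y, 0) :=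
      joined_mono (inter_subset_left.trans subset_union_left) hxy
    have j4 : Joined (η ∪ W') (y, -1) (y, 0) := joined_edge (mem_union_left _ hvy)
    have j5 : Joined (η ∪ W') (y, -1) (N, -1) := by
      apply joined_hline (by omega)
      intro i h1 h2
      rw [mem_union, hW', mem_filter, hE_mem, hS2, mem_box, mem_box]
      right
      refine ⟨by simp only; omega, Or.inr (Or.inl ⟨i, rfl, h1⟩)⟩
    have j6 : Joined (η ∪ W') (N, -1) (N, N) := by
      apply joined_vline (by omega)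
      intro i h1 h2
      rw [mem_union, hW', mem_filter, vE_mem, hS2, mem_box, mem_box]
      right
      refine ⟨by simp only; omega, Or.inr (Or.inr ⟨i, rfl, h1⟩)⟩
    exact joined_symm (joined_trans j1 (joined_trans j2 (joined_trans j3
      (joined_trans (joined_symm j4) (joined_trans j5 j6)))))

end H47Perc
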