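import Pool.Agent.Helper57.Perc.AnnDefs
import Pool.Agent.Helper47.Perc.Isotropy

/-!
Quasi-multiplicativity of the one-arm probabilities: crossing probabilities of half annuli and
quarter annuli.
-/

set_option autoImplicit false

namespace H47Perc
open Finset
open Pool.Agent.Helper69.RSW (P P_mono P_map P_restrict P_congr Dep Up harris P_nonneg P_indep
  P_or_le P_le_one)

lemma nrm_le {z : ℤ × ℤ} {k : ℤ} : nrm z ≤ k ↔ |z.1| ≤ k ∧ |z.2| ≤ k := by
  unfold nrm; exact max_le_iff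

lemma le_nrm {z : ℤ × ℤ} {k : ℤ} : k ≤ nrm z ↔ k ≤ |z.1| ∨ k ≤ |z.2| := by
  unfold nrm; exact le_max_iff

lemma mem_ball_zero {z : ℤ × ℤ} {k : ℤ} : z ∈ ball (0, 0) k ↔ nrm z ≤ k := by
  rw [mem_ball, nrm_le, sub_zero, sub_zero]

lemma adj_nrm {u v : ℤ × ℤ} (h : lattice.Adj u v) : nrm u ≤ nrm v + 1 := by
  have h1 := adj_dist h
  rw [nrm_le]
  have h2 : |v.1| ≤ nrm v ∧ |v.2| ≤ nrm v := nrm_le.1 le_rfl
  rw [abs_le, abs_le] at *
  omega

lemma cross_up (m n : ℤ) : Up (Cross m n) := by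
  rintro ω ω' h ⟨u, z, h1, h2, h3⟩
  exact ⟨u, z, h1, h2, joined_mono h h3⟩

/-- the part of `S` between the distances `m` and `n` -/
noncomputable def annPart (S : Finset (ℤ × ℤ)) (m n : ℤ) : Finset (ℤ × ℤ) :=
  (S ∩ ball (0, 0) n).filter (fun z => m ≤ nrm z)

lemma mem_annPart {S : Finset (ℤ × ℤ)} {m n : ℤ} {z : ℤ × ℤ} :
    z ∈ annPart S m n ↔ z ∈ S ∧ m ≤ nrm z ∧ nrm z ≤ n := by
  unfold annPart
  rw [mem_filter, mem_inter, mem_ball_zero]
  tauto

/-- an arm contains a shorter arm and a crossing of the annulus -/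
lemma cross_of_arm {S : Finset (ℤ × ℤ)} {m n : ℤ} (hm : 1 ≤ m) (hmn : m ≤ n)
    {ω : Finset (Sym2 (ℤ × ℤ))} (h : Arm S (0, 0) n ω) :
    Cross m n (ω ∩ edgesIn (annPart S m n)) := by
  obtain ⟨z, h1, h2⟩ := h
  have hz0 : n ≤ nrm z := by
    unfold AtDist at h1
    rw [sub_zero, sub_zero] at h1
    rw [le_nrm]
    omega
  have hzne : z ≠ (0, 0) := by
    rintro rfl
    rw [le_nrm] at hz0
    simp at hz0
    omega
  have hz : z ∈ S ∩ ball (0, 0) n := mem_of_joined_ne inter_subset_right (joined_symm h2) hzne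
  have hz' : nrm z = n := le_antisymm (mem_ball_zero.1 (mem_inter.1 hz).2) hz0
  rcases hmn.eq_or_lt with rfl | hmn
  · exact ⟨z, z, hz', hz', joined_refl _ _⟩
  have hzA : z ∈ annPart S (m + 1) n := by
    rw [mem_annPart]
    exact ⟨(mem_inter.1 hz).1, by omega, by omega⟩
  have h0A : ((0, 0) : ℤ × ℤ) ∉ annPart S (m + 1) n := by
    rw [mem_annPart, le_nrm]
    rintro ⟨_, h3, _⟩
    simp at h3
    omega
  obtain ⟨w, w', w1, w2, w3, w4, w5, w6⟩ := joined_exit inter_subset_right (joined_symm h2) hzA h0A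
  have hw3 : nrm w' ≤ n := mem_ball_zero.1 (mem_inter.1 w3).2
  have hw1 := mem_annPart.1 w1
  have hw4 := adj_nrm w4
  have hw' : nrm w' = m := by
    have : ¬ (m + 1 ≤ nrm w') := fun hc => w2 (mem_annPart.2 ⟨(mem_inter.1 w3).1, hc, hw3⟩)
    omega
  refine ⟨w', z, hw', hz', ?_⟩
  have hs : annPart S (m + 1) n ⊆ annPart S m n := by
    intro v hv
    rw [mem_annPart] at hv ⊢
    exact ⟨hv.1, by omega, hv.2.2⟩
  refine joined_trans (v := w) (joined_symm (joined_edge ?_)) (joined_symm (joined_mono ?_ w6))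
  · rw [mem_inter] at w5 ⊢
    refine ⟨w5.1, ?_⟩
    rw [mem_edgesIn]
    exact ⟨hs w1, mem_annPart.2 ⟨(mem_inter.1 w3).1, by omega, hw3⟩, w4⟩
  · intro e he
    rw [mem_inter, mem_inter] at he
    rw [mem_inter]
    exact ⟨he.1.1, edgesIn_mono hs he.2⟩

/-- submultiplicativity -/
theorem armP_le_mul {S : Finset (ℤ × ℤ)} {m n : ℤ} (hm : 1 ≤ m) (hmn : m ≤ n) :
    armP S (0, 0) n ≤ armP S (0, 0) (m - 1) * perc half (annPart S m n) (Cross m n) := by
  classical
  have hd : Disjoint (S ∩ ball (0, 0) (m - 1)) (annPart S m n) := by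
    rw [disjoint_left]
    intro z h1 h2
    rw [mem_inter, mem_ball_zero] at h1
    rw [mem_annPart] at h2
    omega
  have hsub : annPart S m n ⊆ S := fun z hz => (mem_annPart.1 hz).1
  have hdep : Dep (edgesIn (annPart S m n)) (fun ω => Cross m n (ω ∩ edgesIn (annPart S m n))) := by
    intro ω
    simp only [inter_assoc, inter_self]
  calc armP S (0, 0) n ≤ perc half S (fun ω => Arm S (0, 0) (m - 1) ω ∧
        Cross m n (ω ∩ edgesIn (annPart S m n))) := by
        apply perc_half_mono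
        intro ω _ h
        exact ⟨arm_anti (by omega) (by omega) h, cross_of_arm hm hmn h⟩
    _ = armP S (0, 0) (m - 1) * perc half S (fun ω => Cross m n (ω ∩ edgesIn (annPart S m n))) := by
        unfold armP
        rw [Pool.Agent.Helper69.RSW.perc_half_eq, Pool.Agent.Helper69.RSW.perc_half_eq,
          Pool.Agent.Helper69.RSW.perc_half_eq]
        exact P_indep (edgesIn_mono inter_subset_left) (edgesIn_mono hsub)
          (edgesIn_disjoint hd) (arm_dep S (0, 0) (m - 1)) hdep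
    _ = _ := by rw [perc_restrict hsub]

lemma halfAnn_eq (a b : ℝ) (m n : ℤ) : annPart (halfBox a b n) m n = halfAnn a b m n := by
  ext z
  rw [mem_annPart, mem_halfBox]
  unfold halfAnn
  rw [mem_filter]
  have e : z ∈ box (-n) n (-n) n ↔ z ∈ ball (0, 0) n := by unfold ball; simp
  rw [e, mem_ball_zero]
  tauto

lemma quarterAnn_eq (m n : ℤ) : annPart (box 0 n 0 n) m n = quarterAnn m n := by
  ext z
  rw [mem_annPart]
  unfold quarterAnn
  rw [mem_filter]
  have e : z ∈ box 0 n 0 n → nrm z ≤ n := by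
    intro h
    rw [mem_box] at h
    rw [nrm_le, abs_le, abs_le]
    omega
  tauto

theorem piH_le_mul (a b : ℝ) {m n : ℕ} (hm : 1 ≤ m) (hmn : m ≤ n) :
    piH a b n ≤ piH a b (m - 1) * crH a b m n := by
  have h := armP_le_mul (S := halfBox a b n) (m := m) (n := n) (by omega) (by omega)
  rw [halfAnn_eq] at h
  rw [piH_eq (n := n) (halfBox a b n) (halfBox_inter a b le_rfl),
    piH_eq (n := m - 1) (halfBox a b n) (halfBox_inter a b (by omega)),
    show ((m - 1 : ℕ) : ℤ) = m - 1 by omega]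
  exact h

theorem piQ_le_mul {m n : ℕ} (hm : 1 ≤ m) (hmn : m ≤ n) :
    piQ n ≤ piQ (m - 1) * crQ m n := by
  have h := armP_le_mul (S := box 0 n 0 n) (m := m) (n := n) (by omega) (by omega)
  rw [quarterAnn_eq] at h
  rw [piQ_eq (n := n) (box 0 n 0 n), piQ_eq (n := m - 1) (box 0 n 0 n),
    show ((m - 1 : ℕ) : ℤ) = m - 1 by omega]
  · exact h
  · ext z; rw [mem_inter, mem_ball, mem_box, mem_box, abs_le, abs_le]; simp only; omega
  · ext z; rw [mem_inter, mem_ball, mem_box, abs_le, abs_le]; simp only; omega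

end H47Perc
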