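import Pool.Agent.Helper47.Perc.ArmDefs

/-!
Crossing probabilities of half annuli and quarter annuli: the definitions used in the statements.
-/

namespace H47Perc

/-- the maximum norm -/
def nrm (z : ℤ × ℤ) : ℤ := max |z.1| |z.2|

/-- a path of open edges from distance `m` to distance `n` -/
def Cross (m n : ℤ) (ω : Finset (Sym2 (ℤ × ℤ))) : Prop :=
  ∃ u z : ℤ × ℤ, nrm u = m ∧ nrm z = n ∧ Joined ω u z

open Classical in
/-- the half annulus of the points with `a x + b y ≤ 0` and `m ≤ max |x| |y| ≤ n` -/
noncomputable def halfAnn (a b : ℝ) (m n : ℤ) : Finset (ℤ × ℤ) :=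
  (box (-n) n (-n) n).filter (fun z => m ≤ nrm z ∧ a * z.1 + b * z.2 ≤ 0)

open Classical in
/-- the quarter annulus of the points with `x, y ≥ 0` and `m ≤ max x y ≤ n` -/
noncomputable def quarterAnn (m n : ℤ) : Finset (ℤ × ℤ) :=
  (box 0 n 0 n).filter (fun z => m ≤ nrm z)

/-- crossing probability of the half annulus in direction `(a,b)` between its two circular arcs -/
noncomputable def crH (a b : ℝ) (m n : ℕ) : ℝ := perc half (halfAnn a b m n) (Cross m n)

/-- crossing probability of the quarter annulus between its two circular arcs -/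
noncomputable def crQ (m n : ℕ) : ℝ := perc half (quarterAnn m n) (Cross m n)

end H47Perc
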