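import Pool.Agent.Helper57.Perc.Ann

/-!
Quasi-multiplicativity: gluing arms and crossings of annuli by circuits.
-/

set_option autoImplicit false

namespace H47Perc
open Finset
open Pool.Agent.Helper69.RSW (P P_mono P_map P_restrict P_congr Dep Up harris P_nonneg P_indep
  P_or_le P_le_one)

/-- The half circuit: a barrier in the tilted half-plane. -/
lemma barrier_half {a b : ℝ} (hab : a ≤ b) (ha : 0 ≤ a) (hb : 0 < b) {m n : ℤ} (hm : 1 ≤ m)
    (hmn : 4 * m ≤ n) {ω : Finset (Sym2 (ℤ × ℤ))}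
    (hL : BT (-2 * m) (-m) (-4 * m) (2 * m)
      (ω ∩ edgesIn (box (-2 * m) (-m) (-4 * m) (2 * m))))
    (hR : BT m (2 * m) (-4 * m) (2 * m) (ω ∩ edgesIn (box m (2 * m) (-4 * m) (2 * m))))
    (hB : LR (-2 * m) (2 * m) (-4 * m) (-2 * m)
      (ω ∩ edgesIn (box (-2 * m) (2 * m) (-4 * m) (-2 * m)))) :
    ∃ κ : ℤ × ℤ, ∀ u z : ℤ × ℤ, nrm u ≤ m → 4 * m ≤ nrm z →
      Joined (ω ∩ edgesIn (halfBox a b n)) u z → Joined (ω ∩ edgesIn (halfBox a b n)) κ u := by
  classical
  set D := halfBox a b n with hD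
  obtain ⟨ya, yb, l1, l2, l3, l4, hB⟩ := hB
  obtain ⟨xa, xb, i1, i2, i3, i4, hL⟩ := hL
  obtain ⟨xc, xd, j1, j2, j3, j4, hR⟩ := hR
  refine ⟨(-2 * m, ya), fun u z hu hz hj => ?_⟩
  have memD : ∀ w : ℤ × ℤ, w ∈ D ↔ nrm w ≤ n ∧ a * w.1 + b * w.2 ≤ 0 := by
    intro w
    rw [hD, mem_halfBox, mem_ball_zero]
  have mem_low : ∀ x y : ℤ, |x| ≤ 2 * m → -4 * m ≤ y → y ≤ -2 * m → (x, y) ∈ D := by
    intro x y h1 h2 h3
    rw [memD, nrm_le]
    simp only
    rw [abs_le] at h1 ⊢
    refine ⟨⟨by omega, by rw [abs_le]; omega⟩, ?_⟩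
    have e1 : (x : ℝ) ≤ 2 * m := by exact_mod_cast h1.2
    have e2 : (y : ℝ) ≤ -2 * m := by exact_mod_cast h3
    have e3 : a * x ≤ a * (2 * m) := mul_le_mul_of_nonneg_left e1 ha
    have e4 : b * y ≤ b * (-2 * m) := mul_le_mul_of_nonneg_left e2 hb.le
    have e5 : (0 : ℝ) ≤ 2 * m := by
      have : 0 ≤ 2 * m := by omega
      exact_mod_cast this
    have e6 : a * (2 * m) ≤ b * (2 * m) := mul_le_mul_of_nonneg_right hab e5
    linarith
  -- the complement of `D` in a box is stable under moving up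
  have hup : ∀ w : ℤ × ℤ, nrm w ≤ n → w ∉ D → ∀ w' : ℤ × ℤ, w.2 ≤ w'.2 → w'.1 = w.1 →
      w' ∉ D := by
    intro w hw hw1 w' h1 h2 hcon
    apply hw1
    rw [memD] at hcon ⊢
    refine ⟨hw, ?_⟩
    have e1 : (w.2 : ℝ) ≤ w'.2 := by exact_mod_cast h1
    have e2 := mul_le_mul_of_nonneg_left e1 hb.le
    rw [h2] at hcon
    linarith [hcon.2]
  have hbn : ∀ {x0 x1 y0 y1 : ℤ}, -2 * m ≤ x0 → x1 ≤ 2 * m → -4 * m ≤ y0 → y1 ≤ 2 * m →
      ∀ w ∈ box x0 x1 y0 y1, nrm w ≤ n := by
    intro x0 x1 y0 y1 h1 h2 h3 h4 w hw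
    rw [mem_box] at hw
    rw [nrm_le, abs_le, abs_le]
    omega
  have sB : box (-2 * m) (2 * m) (-4 * m) (-2 * m) ⊆ D := by
    rintro ⟨x, y⟩ hw
    rw [mem_box] at hw
    simp only at hw
    exact mem_low x y (by rw [abs_le]; omega) hw.2.2.1 hw.2.2.2
  have hκ : ((-2 * m, ya) : ℤ × ℤ) ∈ box (-2 * m) (2 * m) (-4 * m) (-2 * m) := by
    rw [mem_box]; simp only; omega
  have hLs : ((xa, -4 * m) : ℤ × ℤ) ∈ D := mem_low _ _ (by rw [abs_le]; omega) le_rfl (by omega)
  have hRs : ((xc, -4 * m) : ℤ × ℤ) ∈ D := mem_low _ _ (by rw [abs_le]; omega) le_rfl (by omega)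
  have hDL : ∀ w ∈ box (-2 * m) (-m) (-4 * m) (2 * m), w ∉ D → ∀ w' : ℤ × ℤ, w.2 ≤ w'.2 →
      w'.2 ≤ 2 * m → w'.1 = w.1 → w' ∉ D := fun w hw h1 w' h2 _ h4 =>
    hup w (hbn le_rfl (by omega) le_rfl le_rfl w hw) h1 w' h2 h4
  have hDR : ∀ w ∈ box m (2 * m) (-4 * m) (2 * m), w ∉ D → ∀ w' : ℤ × ℤ, w.2 ≤ w'.2 →
      w'.2 ≤ 2 * m → w'.1 = w.1 → w' ∉ D := fun w hw h1 w' h2 _ h4 =>
    hup w (hbn (by omega) le_rfl le_rfl le_rfl w hw) h1 w' h2 h4
  have vL := @vcross D
  -- the three crossings are joined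
  have c1 : Joined (ω ∩ edgesIn D) (xa, -4 * m) (-2 * m, ya) :=
    vcross (D := D) hDL hL hLs (by rw [mem_box]; simp only; omega) (by omega) sB hB hκ
      (fun w hw => by rw [mem_box] at hw; omega) (by simp only; omega) (by simp only; omega)
  have c2 : Joined (ω ∩ edgesIn D) (xc, -4 * m) (-2 * m, ya) :=
    vcross (D := D) hDR hR hRs (by rw [mem_box]; simp only; omega) (by omega) sB hB hκ
      (fun w hw => by rw [mem_box] at hw; omega) (by simp only; omega) (by simp only; omega)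
  -- the path from `u`
  have huD : u ∈ D := by
    apply mem_of_joined_ne inter_subset_right hj
    rintro rfl
    omega
  set Q := box (-2 * m) (2 * m) (-4 * m) (2 * m) with hQ
  have huQ : u ∈ Q := by
    rw [nrm_le, abs_le, abs_le] at hu
    rw [hQ, mem_box]
    omega
  have huI : u ∈ Q ∩ D := mem_inter.2 ⟨huQ, huD⟩
  obtain ⟨w, hw1, hw2⟩ : ∃ w : ℤ × ℤ, Joined (ω ∩ edgesIn (Q ∩ D)) u w ∧
      (w.1 = -2 * m ∨ w.1 = 2 * m ∨ w.2 = -4 * m) := by
    rcases joined_trunc (D := Q) hj huQ with h1 | ⟨w, w', h1, h2, h3, h4⟩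
    · have hzI := mem_inter.1 (mem_of_joined inter_subset_right h1 huI)
      have hzQ := hzI.1
      rw [hQ, mem_box] at hzQ
      refine ⟨z, h1, ?_⟩
      rw [le_nrm] at hz
      rcases abs_cases z.1 with h5 | h5 <;> rcases abs_cases z.2 with h6 | h6 <;> omega
    · have hwI := mem_inter.1 (mem_of_joined inter_subset_right h4 huI)
      have hwQ := hwI.1
      rw [hQ, mem_box] at hwQ h1
      refine ⟨w, h4, ?_⟩
      by_contra hcon
      push Not at hcon
      have h7 : w'.2 = 2 * m + 1 ∧ w'.1 = w.1 := by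
        rcases adj_cases h3 with h | h | h | h <;> rw [h] at h1 ⊢ <;> dsimp only at h1 ⊢ <;>
          constructor <;> omega
      have h8 := ((memD w').1 h2).2
      rw [h7.1, h7.2] at h8
      have e1 : (-2 * m : ℝ) ≤ w.1 := by exact_mod_cast hwQ.1
      have e2 : a * (-2 * m) ≤ a * w.1 := mul_le_mul_of_nonneg_left e1 ha
      have e5 : (0 : ℝ) ≤ 2 * m := by
        have : 0 ≤ 2 * m := by omega
        exact_mod_cast this
      have e6 : a * (2 * m) ≤ b * (2 * m) := mul_le_mul_of_nonneg_right hab e5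
      push_cast at h8
      linarith
  have hwI : w ∈ Q ∩ D := mem_of_joined inter_subset_right hw1 huI
  have hjD : Joined (ω ∩ edgesIn D) u w :=
    joined_mono (inter_subset_inter_left (edgesIn_mono inter_subset_right)) hw1
  have hrows : ∀ v ∈ Q ∩ D, -4 * m ≤ v.2 ∧ v.2 ≤ 2 * m := by
    intro v hv
    have := (mem_inter.1 hv).1
    rw [hQ, mem_box] at this
    omega
  have hcols : ∀ v ∈ Q ∩ D, -2 * m ≤ v.1 ∧ v.1 ≤ 2 * m := by
    intro v hv
    have := (mem_inter.1 hv).1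
    rw [hQ, mem_box] at this
    omega
  rw [nrm_le, abs_le, abs_le] at hu
  rcases hw2 with h | h | h
  · have d1 := vcross (D := D) hDL hL hLs (by rw [mem_box]; simp only; omega) (by omega)
      (T := Q ∩ D) inter_subset_right (joined_symm hw1) hwI hrows (by omega) (by omega)
    exact joined_trans (joined_symm c1) (joined_trans d1 (joined_symm hjD))
  · have d1 := vcross (D := D) hDR hR hRs (by rw [mem_box]; simp only; omega) (by omega)
      (T := Q ∩ D) inter_subset_right hw1 huI hrows (by omega) (by omega)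
    exact joined_trans (joined_symm c2) d1
  · exact hcross (D := D) (fun v hv hv' => absurd (sB hv) hv') hB (sB hκ) hκ
      (T := Q ∩ D) inter_subset_right hw1 huI hcols (by omega) (by omega) (by omega)

/-- quasi-multiplicativity in the half-plane -/
theorem crH_mul_le {a b : ℝ} (hab : a ≤ b) (ha : 0 ≤ a) (hb : 0 < b) {c : ℝ} (hc : 0 < c)
    (hRSW : ∀ n : ℕ, 1 ≤ n → c ≤ pLR (6 * n) n) {m n : ℕ} (hm : 1 ≤ m) (hmn : 4 * m ≤ n) :
    crH a b m n * piH a b (4 * m) * c ^ 3 ≤ piH a b n := by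
  classical
  set S := box (-(n:ℤ)) n (-n) n with hS
  set D := halfBox a b n with hD
  have hDS : D ⊆ S := by
    rw [hD]; unfold halfBox; exact filter_subset _ _
  have hAD : halfAnn a b m n ⊆ D := by
    rw [← halfAnn_eq]
    exact fun z hz => (mem_annPart.1 hz).1
  set L : Finset (Sym2 (ℤ × ℤ)) → Prop := fun ω => BT (-2 * m) (-m) (-4 * m) (2 * m)
      (ω ∩ edgesIn (box (-2 * m) (-m) (-4 * m) (2 * m))) with hL
  set R : Finset (Sym2 (ℤ × ℤ)) → Prop := fun ω => BT m (2 * m) (-4 * m) (2 * m)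
      (ω ∩ edgesIn (box m (2 * m) (-4 * m) (2 * m))) with hR
  set B : Finset (Sym2 (ℤ × ℤ)) → Prop := fun ω => LR (-2 * m) (2 * m) (-4 * m) (-2 * m)
      (ω ∩ edgesIn (box (-2 * m) (2 * m) (-4 * m) (-2 * m))) with hB
  set X : Finset (Sym2 (ℤ × ℤ)) → Prop :=
    fun ω => Cross m n (ω ∩ edgesIn (halfAnn a b m n)) with hX
  set A : Finset (Sym2 (ℤ × ℤ)) → Prop := Arm D (0, 0) (4 * m : ℕ) with hA
  have pX : perc half S X = crH a b m n := perc_restrict (hAD.trans hDS) _
  have pA : perc half S A = piH a b (4 * m) := by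
    rw [hA, perc_arm (0, 0) _ (inter_subset_left.trans hDS),
      piH_eq (n := 4 * m) D (halfBox_inter a b (by omega))]
  have pL : c ≤ perc half S L := by
    have e : perc half S L = perc half (box (-2 * m) (-m) (-4 * m) (2 * m))
        (BT (-2 * m) (-m) (-4 * m) (2 * m)) :=
      perc_restrict (box_mono (by omega) (by omega) (by omega) (by omega)) _
    rw [e, perc_BT, show (2 * (m:ℤ) - -4 * m) = 6 * m by ring,
      show (-(m:ℤ) - -2 * m) = m by ring]
    exact hRSW m hm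
  have pR : c ≤ perc half S R := by
    have e : perc half S R = perc half (box m (2 * m) (-4 * m) (2 * m))
        (BT m (2 * m) (-4 * m) (2 * m)) :=
      perc_restrict (box_mono (by omega) (by omega) (by omega) (by omega)) _
    rw [e, perc_BT, show (2 * (m:ℤ) - -4 * m) = 6 * m by ring,
      show (2 * (m:ℤ) - m) = m by ring]
    exact hRSW m hm
  have pB : c ≤ perc half S B := by
    have e : perc half S B = perc half (box (-2 * m) (2 * m) (-4 * m) (-2 * m))
        (LR (-2 * m) (2 * m) (-4 * m) (-2 * m)) :=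
      perc_restrict (box_mono (by omega) (by omega) (by omega) (by omega)) _
    rw [e, perc_LR, show (2 * (m:ℤ) - -2 * m) = 4 * m by ring,
      show (-2 * (m:ℤ) - -4 * m) = 2 * m by ring]
    exact (hRSW m hm).trans ((pLR_anti (by omega) (by omega) _).trans (pLR_height _ (by omega)))
  have uX : Up X := up_inter (cross_up _ _) _
  have uA : Up A := arm_up _ _ _
  have uL : Up L := up_inter (up_BT _ _ _ _) _
  have uR : Up R := up_inter (up_BT _ _ _ _) _
  have uB : Up B := up_inter (up_LR _ _ _ _) _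
  have h1 := perc_harris S uX uA
  have h2 := perc_harris S uL uR
  have h3 := perc_harris S (uL.and uR) uB
  have h4 := perc_harris S (uX.and uA) ((uL.and uR).and uB)
  have h5 : perc half S (fun ω => (X ω ∧ A ω) ∧ ((L ω ∧ R ω) ∧ B ω)) ≤ piH a b n := by
    rw [piH_eq (n := n) D (halfBox_inter a b le_rfl), ← perc_arm (T := S) (0, 0) n
      (inter_subset_left.trans hDS)]
    apply perc_half_mono
    rintro ω _ ⟨⟨⟨u, z, x1, x2, x3⟩, ⟨v, a1, a2⟩⟩, ⟨⟨g1, g2⟩, g3⟩⟩
    obtain ⟨κ, hκ⟩ := barrier_half hab ha hb (m := m) (n := n) (by omega) (by omega) g1 g2 g3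
    have x3' : Joined (ω ∩ edgesIn D) u z :=
      joined_mono (inter_subset_inter_left (edgesIn_mono hAD)) x3
    have a2' : Joined (ω ∩ edgesIn D) (0, 0) v :=
      joined_mono (inter_subset_inter_left (edgesIn_mono inter_subset_left)) a2
    have k1 := hκ u z (by omega) (by omega) x3'
    have k2 := hκ (0, 0) v (by rw [nrm_le]; simp) (by
      unfold AtDist at a1
      rw [le_nrm]
      rw [sub_zero, sub_zero] at a1
      push_cast at a1
      omega) a2'
    have k3 : Joined (ω ∩ edgesIn D) (0, 0) z :=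
      joined_trans (joined_symm k2) (joined_trans k1 x3')
    apply arm_of_joined (by omega) k3
    rw [sub_zero, sub_zero, ← le_nrm]
    omega
  have n1 : 0 ≤ perc half S X := perc_half_nonneg _ _
  have n2 : 0 ≤ perc half S A := perc_half_nonneg _ _
  have n3 : 0 ≤ perc half S L := perc_half_nonneg _ _
  have n4 : 0 ≤ perc half S R := perc_half_nonneg _ _
  have s1 : c * c ≤ perc half S L * perc half S R := mul_le_mul pL pR hc.le n3
  have s2 : c * c * c ≤ perc half S (fun ω => (L ω ∧ R ω) ∧ B ω) :=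
    (mul_le_mul (s1.trans h2) pB hc.le (perc_half_nonneg _ _)).trans h3
  calc crH a b m n * piH a b (4 * m) * c ^ 3
      = (perc half S X * perc half S A) * (c * c * c) := by rw [pX, pA]; ring
    _ ≤ perc half S (fun ω => X ω ∧ A ω) * perc half S (fun ω => (L ω ∧ R ω) ∧ B ω) :=
        mul_le_mul h1 s2 (by positivity) (perc_half_nonneg _ _)
    _ ≤ _ := h4.trans h5

end H47Perc
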