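import Mathlib

/-!
Cardy's function.
-/

namespace H47Perc

/-- Cardy's function of the cross ratio: the normalised integral of `(t (1 - t)) ^ (-2/3)` -/
noncomputable def cardy (l : ℝ) : ℝ :=
  (∫ t in (0:ℝ)..l, (t * (1 - t)) ^ (-(2 / 3) : ℝ)) / ∫ t in (0:ℝ)..1, (t * (1 - t)) ^ (-(2 / 3) : ℝ)

end H47Perc
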