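import Pool.Agent.Helper57.Perc.CardyDefs

/-!
Two-sided bounds for Cardy's function.
-/

set_option autoImplicit false

namespace H47Perc
open MeasureTheory intervalIntegral Set

/-- the integrand -/
noncomputable def cf (t : ℝ) : ℝ := (t * (1 - t)) ^ (-(2 / 3) : ℝ)

lemma cf_symm (t : ℝ) : cf (1 - t) = cf t := by
  unfold cf
  congr 1
  ring

lemma cf_nonneg {t : ℝ} (h0 : 0 ≤ t) (h1 : t ≤ 1) : 0 ≤ cf t := by
  unfold cf
  exact Real.rpow_nonneg (mul_nonneg h0 (by linarith)) _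

lemma cf_lower {t : ℝ} (h0 : 0 < t) (h1 : t < 1) : t ^ (-(2 / 3) : ℝ) ≤ cf t := by
  unfold cf
  apply Real.rpow_le_rpow_of_nonpos (mul_pos h0 (by linarith)) _ (by norm_num)
  nlinarith

lemma cf_upper {t : ℝ} (h0 : 0 < t) (h1 : t ≤ 1 / 2) : cf t ≤ 2 * t ^ (-(2 / 3) : ℝ) := by
  unfold cf
  rw [Real.mul_rpow h0.le (by linarith)]
  have h2 : (1 - t) ^ (-(2 / 3) : ℝ) ≤ 2 := by
    have h3 : (1 - t) ^ (-(2 / 3) : ℝ) ≤ (1 / 2 : ℝ) ^ (-(2 / 3) : ℝ) :=
      Real.rpow_le_rpow_of_nonpos (by norm_num) (by linarith) (by norm_num)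
    have h4 : (1 / 2 : ℝ) ^ (-(2 / 3) : ℝ) ≤ (1 / 2 : ℝ) ^ (-1 : ℝ) :=
      Real.rpow_le_rpow_of_exponent_ge (by norm_num) (by norm_num) (by norm_num)
    have h5 : (1 / 2 : ℝ) ^ (-1 : ℝ) = 2 := by
      rw [Real.rpow_neg_one]; norm_num
    linarith
  have h3 : 0 ≤ t ^ (-(2 / 3) : ℝ) := Real.rpow_nonneg h0.le _
  nlinarith

lemma measurable_cf : Measurable cf := by
  unfold cf
  fun_prop

lemma cf_int_left {l : ℝ} (h0 : 0 ≤ l) (h1 : l ≤ 1 / 2) : IntervalIntegrable cf volume 0 l := by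
  have h2 : IntervalIntegrable (fun t : ℝ => 2 * t ^ (-(2 / 3) : ℝ)) volume 0 l :=
    (intervalIntegrable_rpow' (by norm_num)).const_mul 2
  apply h2.mono_fun measurable_cf.aestronglyMeasurable
  rw [uIoc_of_le h0]
  refine (ae_restrict_iff' measurableSet_Ioc).2 (Filter.Eventually.of_forall fun t ht => ?_)
  beta_reduce
  rw [Real.norm_of_nonneg (cf_nonneg ht.1.le (by linarith [ht.2]))]
  have h3 : 0 ≤ t ^ (-(2 / 3) : ℝ) := Real.rpow_nonneg ht.1.le _
  rw [Real.norm_of_nonneg (by positivity)]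
  exact cf_upper ht.1 (by linarith [ht.2])

lemma cf_int_right {l : ℝ} (h0 : 1 / 2 ≤ l) (h1 : l ≤ 1) : IntervalIntegrable cf volume l 1 := by
  have h2 := (cf_int_left (l := 1 - l) (by linarith) (by linarith)).comp_sub_left 1
  simp only [cf_symm, sub_zero, sub_sub_cancel] at h2
  exact h2.symm

lemma cf_int_half : IntervalIntegrable cf volume 0 1 :=
  (cf_int_left (by norm_num) le_rfl).trans (cf_int_right le_rfl (by norm_num))

lemma cf_int {a b : ℝ} (ha : 0 ≤ a) (hb : b ≤ 1) (hab : a ≤ b) : IntervalIntegrable cf volume a b :=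
  cf_int_half.mono_set (by rw [uIcc_of_le hab, uIcc_of_le zero_le_one]; exact Icc_subset_Icc ha hb)

/-- the numerator -/
noncomputable def cI (l : ℝ) : ℝ := ∫ t in (0:ℝ)..l, cf t

lemma cardy_eq (l : ℝ) : cardy l = cI l / cI 1 := rfl

lemma integral_pow13 {l : ℝ} (h0 : 0 ≤ l) :
    ∫ t in (0:ℝ)..l, t ^ (-(2 / 3) : ℝ) = 3 * l ^ (1 / 3 : ℝ) := by
  rw [integral_rpow (Or.inl (by norm_num))]
  rw [show (-(2 / 3) + 1 : ℝ) = 1 / 3 by norm_num, Real.zero_rpow (by norm_num)]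
  ring

lemma cI_lower {l : ℝ} (h0 : 0 ≤ l) (h1 : l ≤ 1) : 3 * l ^ (1 / 3 : ℝ) ≤ cI l := by
  rw [← integral_pow13 h0]
  unfold cI
  apply integral_mono_on_of_le_Ioo h0 (intervalIntegrable_rpow' (by norm_num))
    (cf_int le_rfl h1 h0)
  intro t ht
  exact cf_lower ht.1 (by linarith [ht.2])

lemma cI_upper {l : ℝ} (h0 : 0 ≤ l) (h1 : l ≤ 1 / 2) : cI l ≤ 6 * l ^ (1 / 3 : ℝ) := by
  have h2 : 6 * l ^ (1 / 3 : ℝ) = ∫ t in (0:ℝ)..l, 2 * t ^ (-(2 / 3) : ℝ) := by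
    rw [intervalIntegral.integral_const_mul, integral_pow13 h0]; ring
  rw [h2]
  unfold cI
  apply integral_mono_on_of_le_Ioo h0 (cf_int le_rfl (by linarith) h0)
    ((intervalIntegrable_rpow' (by norm_num)).const_mul 2)
  intro t ht
  exact cf_upper ht.1 (by linarith [ht.2])

lemma cI_refl {l : ℝ} (h0 : 0 ≤ l) (h1 : l ≤ 1) : cI 1 - cI l = cI (1 - l) := by
  unfold cI
  rw [integral_interval_sub_left cf_int_half (cf_int le_rfl h1 h0)]
  have h2 := intervalIntegral.integral_comp_sub_left (a := 0) (b := 1 - l) cf 1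
  simp only [cf_symm, sub_zero, sub_sub_cancel] at h2
  exact h2.symm

lemma cI_nonneg {l : ℝ} (h0 : 0 ≤ l) (h1 : l ≤ 1) : 0 ≤ cI l :=
  le_trans (by positivity) (cI_lower h0 h1)

lemma cI_one_lower : 3 ≤ cI 1 := by
  have := cI_lower (l := 1) (by norm_num) le_rfl
  simpa using this

lemma cI_one_upper : cI 1 ≤ 12 := by
  have h1 := cI_refl (l := 1 / 2) (by norm_num) (by norm_num)
  have h2 := cI_upper (l := 1 / 2) (by norm_num) le_rfl
  have h3 : (1 / 2 : ℝ) ^ (1 / 3 : ℝ) ≤ 1 := Real.rpow_le_one (by norm_num) (by norm_num) (by norm_num)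
  rw [show (1 - 1 / 2 : ℝ) = 1 / 2 by norm_num] at h1
  linarith

lemma cI_le_one {l : ℝ} (h0 : 0 ≤ l) (h1 : l ≤ 1) : cI l ≤ cI 1 := by
  have h2 := cI_refl h0 h1
  have h3 := cI_nonneg (l := 1 - l) (by linarith) (by linarith)
  linarith

lemma cardy_refl {l : ℝ} (h0 : 0 ≤ l) (h1 : l ≤ 1) : 1 - cardy l = cardy (1 - l) := by
  have h2 := cI_refl h0 h1
  have h3 := cI_one_lower
  rw [cardy_eq, cardy_eq, ← h2]
  field_simp

/-- Cardy's function is of the order of the cross ratio to the power `1/3` -/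
theorem cardy_bounds {l : ℝ} (h0 : 0 ≤ l) (h1 : l ≤ 1) :
    1 / 4 * l ^ (1 / 3 : ℝ) ≤ cardy l ∧ cardy l ≤ 2 * l ^ (1 / 3 : ℝ) := by
  have h2 := cI_one_lower
  have h3 := cI_one_upper
  have h4 := cI_lower h0 h1
  have h5 : 0 ≤ l ^ (1 / 3 : ℝ) := Real.rpow_nonneg h0 _
  rw [cardy_eq]
  constructor
  · rw [le_div_iff₀ (by linarith)]
    nlinarith
  · rcases le_total l (1 / 2) with h | h
    · rw [div_le_iff₀ (by linarith)]
      have h6 := cI_upper h0 h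
      nlinarith
    · have h6 := cI_le_one h0 h1
      have h7 : cI l / cI 1 ≤ 1 := by
        rw [div_le_one (by linarith)]; exact h6
      have h8 : (1 / 2 : ℝ) ≤ l ^ (1 / 3 : ℝ) := by
        have h9 : (1 / 2 : ℝ) ≤ (1 / 2 : ℝ) ^ (1 / 3 : ℝ) := by
          conv_lhs => rw [← Real.rpow_one (1 / 2 : ℝ)]
          exact Real.rpow_le_rpow_of_exponent_ge (by norm_num) (by norm_num) (by norm_num)
        exact h9.trans (Real.rpow_le_rpow (by norm_num) h (by norm_num))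
      linarith

end H47Perc
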