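import Pool.Agent.Helper57.Perc.DualC
import Pool.Agent.Helper57.Perc.CardyFn

/-!
Cardy's formula up to multiplicative constants, for all quads of the half-plane.
-/

set_option autoImplicit false

namespace H47Perc
open Finset
open Pool.Agent.Helper69.RSW (P P_mono P_map P_restrict P_congr Dep Up harris P_nonneg P_indep
  P_or_le P_le_one P_flip P_compl P_sum P_insert P_true P_false)

/-- the one-arm exponents -/
def ArmExponents : Prop := ∃ c C : ℝ, 0 < c ∧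
  (∀ a b : ℝ, (a ≠ 0 ∨ b ≠ 0) → ∀ n : ℕ, 1 ≤ n →
    c * (n:ℝ) ^ (-(1 / 3) : ℝ) ≤ piH a b n ∧ piH a b n ≤ C * (n:ℝ) ^ (-(1 / 3) : ℝ)) ∧
  ∀ n : ℕ, 1 ≤ n → c * (n:ℝ) ^ (-(2 / 3) : ℝ) ≤ piQ n ∧
    piQ n ≤ C * (n:ℝ) ^ (-(2 / 3) : ℝ)

lemma piH_le_crH_zero (a b : ℝ) {n : ℕ} (hn : 1 ≤ n) : piH a b n ≤ crH a b 0 n := by
  have hs : halfBox a b n = halfAnn a b ((0 : ℕ) : ℤ) n := by
    ext z
    rw [mem_halfBox, mem_ball_zero, mem_halfAnn]
    have : 0 ≤ nrm z := by rw [le_nrm]; left; exact abs_nonneg _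
    push_cast
    tauto
  unfold piH crH
  rw [← hs]
  apply perc_half_mono
  rintro ω hω ⟨z, h1, h2⟩
  have hne : z ≠ (0, 0) := by
    rintro rfl
    simp at h1
    omega
  have hz := mem_of_joined_ne hω (joined_symm h2) hne
  rw [mem_halfBox, mem_ball_zero] at hz
  refine ⟨(0, 0), z, by simp [nrm], ?_, h2⟩
  apply le_antisymm hz.1
  rw [le_nrm]
  omega

/-- uniform lower bound for the flat half annuli, including the radius `0` -/
lemma crH_lower (hX : CrossBound) (hE : ArmExponents) : ∃ k : ℝ, 0 < k ∧ ∀ a b : ℝ,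
    (a ≠ 0 ∨ b ≠ 0) → ∀ m n : ℕ, m < n →
    k * (((m:ℝ) + 1) / n) ^ (1 / 3 : ℝ) ≤ crH a b m n := by
  obtain ⟨k, K, hk, h⟩ := crossing_exponents hX hE
  obtain ⟨c, C, hc, h1, h2⟩ := hE
  refine ⟨min (k / 2) c, lt_min (by positivity) hc, fun a b hab m n hmn => ?_⟩
  have hn0 : (0:ℝ) < n := by
    have : 0 < n := by omega
    exact_mod_cast this
  rcases Nat.eq_zero_or_pos m with rfl | hm
  · refine le_trans ?_ ((h1 a b hab n (by omega)).1.trans (piH_le_crH_zero a b (by omega)))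
    rw [Real.rpow_neg hn0.le, ← Real.inv_rpow hn0.le]
    simp only [Nat.cast_zero, zero_add, one_div]
    exact mul_le_mul_of_nonneg_right (min_le_right _ _) (by positivity)
  · refine le_trans ?_ ((h m n hm hmn.le).1 a b hab).1
    have hm0 : (1:ℝ) ≤ m := by exact_mod_cast hm
    have h3 : (1:ℝ) / 2 ≤ (1 / 2 : ℝ) ^ (1 / 3 : ℝ) := by
      conv_lhs => rw [← Real.rpow_one (1 / 2 : ℝ)]
      exact Real.rpow_le_rpow_of_exponent_ge (by norm_num) (by norm_num) (by norm_num)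
    have h4 : 0 ≤ (((m:ℝ) + 1) / n) ^ (1 / 3 : ℝ) := by positivity
    calc min (k / 2) c * (((m:ℝ) + 1) / n) ^ (1 / 3 : ℝ)
        ≤ k / 2 * (((m:ℝ) + 1) / n) ^ (1 / 3 : ℝ) :=
          mul_le_mul_of_nonneg_right (min_le_left _ _) h4
      _ = k * (1 / 2 * (((m:ℝ) + 1) / n) ^ (1 / 3 : ℝ)) := by ring
      _ ≤ k * ((1 / 2 : ℝ) ^ (1 / 3 : ℝ) * (((m:ℝ) + 1) / n) ^ (1 / 3 : ℝ)) := by gcongr
      _ = k * (1 / 2 * (((m:ℝ) + 1) / n)) ^ (1 / 3 : ℝ) := by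
          rw [Real.mul_rpow (by norm_num) (by positivity)]
      _ ≤ k * ((m:ℝ) / n) ^ (1 / 3 : ℝ) := by
          apply mul_le_mul_of_nonneg_left _ hk.le
          apply Real.rpow_le_rpow (by positivity) _ (by norm_num)
          rw [div_mul_div_comm, div_le_div_iff₀ (by positivity) hn0]
          nlinarith

lemma rpow13_le {x y C : ℝ} (hx : 0 ≤ x) (hy : 0 ≤ y) (hC : 1 ≤ C) (h : x ≤ C * y) :
    x ^ (1 / 3 : ℝ) ≤ C * y ^ (1 / 3 : ℝ) := by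
  calc x ^ (1 / 3 : ℝ) ≤ (C * y) ^ (1 / 3 : ℝ) := Real.rpow_le_rpow hx h (by norm_num)
    _ = C ^ (1 / 3 : ℝ) * y ^ (1 / 3 : ℝ) := Real.mul_rpow (by linarith) hy
    _ ≤ C * y ^ (1 / 3 : ℝ) := by
        apply mul_le_mul_of_nonneg_right _ (by positivity)
        conv_rhs => rw [← Real.rpow_one C]
        exact Real.rpow_le_rpow_of_exponent_le hC (by norm_num)

lemma perc_not (S : Finset (ℤ × ℤ)) (A : Finset (Sym2 (ℤ × ℤ)) → Prop) :
    1 - perc half S A = perc half S (fun ω => ¬ A ω) := by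
  rw [Pool.Agent.Helper69.RSW.perc_half_eq, Pool.Agent.Helper69.RSW.perc_half_eq]
  linarith [P_compl (edgesIn S) A]

/-- one side of the lower bound for the complement -/
lemma not_seg_lower {k c : ℝ} (hk : 0 ≤ k)
    (hK : ∀ m n : ℕ, m < n → k * (((m:ℝ) + 1) / n) ^ (1 / 3 : ℝ) ≤ crH 0 (-1) m n)
    (hc : 0 < c) (hRSW : ∀ n : ℕ, 1 ≤ n → c ≤ pLR (6 * n) n)
    {a₁ : ℤ} {l₁ g l₂ N : ℕ} (h1 : 1 ≤ l₁) (hg : 1 ≤ g) (h2 : 1 ≤ l₂) (h21 : l₂ ≤ l₁)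
    (hN : 8 * (|a₁| + |a₁ + l₁ + g + l₂|) ≤ N) :
    c ^ 9 * (k / 10) ^ 2 / 16 *
      ((g:ℝ) * (l₁ + g + l₂) / ((l₁ + g) * (l₂ + g))) ^ (1 / 3 : ℝ) ≤
    perc half (box (-(N:ℤ)) N 0 N)
      (fun ω => ¬ Seg a₁ (a₁ + l₁) (a₁ + l₁ + g) (a₁ + l₁ + g + l₂) ω) := by
  have hb1 := abs_nonneg a₁
  have hb2 := abs_nonneg (a₁ + l₁ + g + l₂)
  have hb3 := neg_abs_le a₁
  have hb4 := le_abs_self (a₁ + l₁ + g + l₂)
  have hb5 := neg_abs_le (a₁ + l₁ + g + l₂)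
  have hb6 := le_abs_self a₁
  have e1 := not_seg_ge (N := N) (a₁ := a₁) (a₂ := a₁ + l₁) (a₃ := a₁ + l₁ + g)
    (a₄ := a₁ + l₁ + g + l₂) (a₅ := a₁ + l₁ - 1 + g + l₂ + (g + l₂ : ℕ)) (by omega) (by omega)
    (by omega) (by omega) (by omega) (by push_cast; omega)
  have e2 := seg_lower hk hK hc hRSW (D := box (-(N:ℤ)) (N - 1) 0 (N - 1)) (a₁ := a₁ + l₁ - 1)
    (l₁ := g) (g := l₂) (l₂ := g + l₂)
    (fun z hz => by rw [mem_box] at hz; omega) hg h2 (by omega) (by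
      intro z hz h0
      rw [nrm_le] at hz
      simp only [Prod.fst_sub, Prod.snd_sub, sub_zero, abs_le] at hz
      rw [mem_box]
      omega)
  refine le_trans ?_ ((mul_le_mul_of_nonneg_left (e2.trans (le_of_eq (by congr 2 <;> ring)))
    (by norm_num : (0:ℝ) ≤ 1 / 4)).trans e1)
  have hl1 : (0:ℝ) < l₁ := by exact_mod_cast h1
  have hl2 : (0:ℝ) < l₂ := by exact_mod_cast h2
  have hg0 : (0:ℝ) < g := by exact_mod_cast hg
  have h21' : (l₂:ℝ) ≤ l₁ := by exact_mod_cast h21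
  push_cast
  set y1 : ℝ := (g:ℝ) / (g + l₂) with hy1
  set y2 : ℝ := ((g:ℝ) + l₂) / (g + l₂ + l₂) with hy2
  have hy1p : 0 < y1 := by positivity
  have hy2p : 0 < y2 := by positivity
  have hbound : (g:ℝ) * (l₁ + g + l₂) / ((l₁ + g) * (l₂ + g)) ≤ 4 * (y1 * y2) := by
    have h3 : 1 / 2 ≤ y2 := by
      rw [hy2, div_le_div_iff₀ (by norm_num) (by positivity)]
      linarith
    have h4 : (g:ℝ) * (l₁ + g + l₂) / ((l₁ + g) * (l₂ + g)) ≤ 2 * y1 := by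
      rw [hy1, mul_div_assoc', div_le_div_iff₀ (by positivity) (by positivity)]
      have : (l₁ + g + l₂ : ℝ) ≤ 2 * (l₁ + g) := by linarith
      calc (g:ℝ) * (l₁ + g + l₂) * (g + l₂) ≤ g * (2 * (l₁ + g)) * (g + l₂) := by gcongr
        _ = _ := by ring
    nlinarith
  have h5 := rpow13_le (by positivity) (by positivity) (by norm_num : (1:ℝ) ≤ 4) hbound
  rw [Real.mul_rpow hy1p.le hy2p.le] at h5
  have h6 : 0 ≤ c ^ 9 * (k / 10) ^ 2 / 16 := by positivity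
  calc _ ≤ c ^ 9 * (k / 10) ^ 2 / 16 * (4 * (y1 ^ (1 / 3 : ℝ) * y2 ^ (1 / 3 : ℝ))) :=
        mul_le_mul_of_nonneg_left h5 h6
    _ = _ := by ring

/-- **Cardy's formula up to constants in the half-plane**, from the one-arm exponents. -/
theorem cardy_half_plane (hX : CrossBound) (hE : ArmExponents) :
    ∃ c C : ℝ, 0 < c ∧ ∀ a₁ a₂ a₃ a₄ : ℤ, a₁ < a₂ → a₂ < a₃ → a₃ < a₄ →
      ∀ N : ℕ, 8 * (|a₁| + |a₄|) ≤ N →
      (c * cardy (lam a₁ a₂ a₃ a₄) ≤ perc half (box (-(N:ℤ)) N 0 N) (Seg a₁ a₂ a₃ a₄) ∧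
        perc half (box (-(N:ℤ)) N 0 N) (Seg a₁ a₂ a₃ a₄) ≤ C * cardy (lam a₁ a₂ a₃ a₄)) ∧
      (c * (1 - cardy (lam a₁ a₂ a₃ a₄)) ≤
          1 - perc half (box (-(N:ℤ)) N 0 N) (Seg a₁ a₂ a₃ a₄) ∧
        1 - perc half (box (-(N:ℤ)) N 0 N) (Seg a₁ a₂ a₃ a₄) ≤
          C * (1 - cardy (lam a₁ a₂ a₃ a₄))) := by
  obtain ⟨k, hk, hlow⟩ := crH_lower hX hE
  obtain ⟨k', K', hk', hcr⟩ := crossing_exponents hX hE
  obtain ⟨r, hr, hRSW⟩ := hX 6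
  have hRSW' : ∀ n : ℕ, 1 ≤ n → r ≤ pLR (6 * n) n := fun n hn => by exact_mod_cast hRSW n hn
  have hab : ((0:ℝ) ≠ 0 ∨ (-1:ℝ) ≠ 0) := Or.inr (by norm_num)
  set K := max K' 1 with hKdef
  have hK1 : 1 ≤ K := le_max_right _ _
  have hK : ∀ m n : ℕ, 1 ≤ m → m ≤ n → crH 0 (-1) m n ≤ K * ((m:ℝ) / n) ^ (1 / 3 : ℝ) := by
    intro m n hm hmn
    exact ((hcr m n hm hmn).1 0 (-1) hab).2.trans
      (mul_le_mul_of_nonneg_right (le_max_left _ _) (by positivity))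
  have hL := hlow 0 (-1) hab
  set c0 := r ^ 9 * (k / 10) ^ 2 / 16 with hc0
  have hc0p : 0 < c0 := by positivity
  set C0 := 25 * K ^ 2 with hC0
  have hC0p : 4 ≤ C0 := by nlinarith
  have hKC : 4 * K ≤ C0 := by nlinarith
  refine ⟨c0 / 2, 4 * C0, by positivity, fun a₁ a₂ a₃ a₄ h12 h23 h34 N hN => ?_⟩
  obtain ⟨l₁, rfl⟩ : ∃ l : ℕ, a₂ = a₁ + l := ⟨(a₂ - a₁).toNat, by omega⟩
  obtain ⟨g, rfl⟩ : ∃ l : ℕ, a₃ = a₁ + l₁ + l := ⟨(a₃ - (a₁ + l₁)).toNat, by omega⟩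
  obtain ⟨l₂, rfl⟩ : ∃ l : ℕ, a₄ = a₁ + l₁ + g + l := ⟨(a₄ - (a₁ + l₁ + g)).toNat, by omega⟩
  have h1 : 1 ≤ l₁ := by omega
  have hg : 1 ≤ g := by omega
  have h2 : 1 ≤ l₂ := by omega
  have hl1 : (0:ℝ) < l₁ := by exact_mod_cast h1
  have hl2 : (0:ℝ) < l₂ := by exact_mod_cast h2
  have hg0 : (0:ℝ) < g := by exact_mod_cast hg
  have hb1 := abs_nonneg a₁
  have hb2 := abs_nonneg (a₁ + l₁ + g + l₂)
  have hb3 := neg_abs_le a₁
  have hb4 := le_abs_self (a₁ + l₁ + g + l₂)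
  have hb5 := neg_abs_le (a₁ + l₁ + g + l₂)
  have hb6 := le_abs_self a₁
  -- the cross ratio
  set x := lam (a₁:ℝ) ((a₁ + l₁ : ℤ):ℝ) ((a₁ + l₁ + g : ℤ):ℝ) ((a₁ + l₁ + g + l₂ : ℤ):ℝ) with hx
  have hxe : x = ((l₁:ℝ) / (l₁ + g)) * ((l₂:ℝ) / (l₂ + g)) := by
    rw [hx]
    unfold lam
    push_cast
    rw [div_mul_div_comm]
    congr 1 <;> ring
  have hxc : 1 - x = (g:ℝ) * (l₁ + g + l₂) / ((l₁ + g) * (l₂ + g)) := by
    rw [hxe, div_mul_div_comm]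
    rw [eq_div_iff (by positivity), sub_mul, div_mul_cancel₀ _ (by positivity)]
    ring
  have hx0 : 0 ≤ x := by rw [hxe]; positivity
  have hx1 : 0 ≤ 1 - x := by rw [hxc]; positivity
  obtain ⟨b1, b2⟩ := cardy_bounds hx0 (by linarith)
  obtain ⟨b3, b4⟩ := cardy_bounds (l := 1 - x) hx1 (by linarith)
  rw [← cardy_refl hx0 (by linarith)] at b3 b4
  set F := cardy x with hF
  set p := perc half (box (-(N:ℤ)) N 0 N) (Seg a₁ (a₁ + l₁) (a₁ + l₁ + g) (a₁ + l₁ + g + l₂))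
    with hp
  have hD0 : ∀ z ∈ box (-(N:ℤ)) N 0 N, 0 ≤ z.2 := fun z hz => by rw [mem_box] at hz; omega
  have hX13 : 0 ≤ x ^ (1 / 3 : ℝ) := by positivity
  have hY13 : 0 ≤ (1 - x) ^ (1 / 3 : ℝ) := by positivity
  -- the four bounds in terms of powers
  have u1 : p ≤ C0 * x ^ (1 / 3 : ℝ) := by
    refine (seg_upper hK1 hK hD0 h1 hg h2).trans ?_
    have e1 := rpow13_le (x := 5 * ((l₁:ℝ) / (l₁ + g))) (y := (l₁:ℝ) / (l₁ + g)) (C := 5)
      (by positivity) (by positivity) (by norm_num) le_rfl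
    have e2 := rpow13_le (x := 5 * ((l₂:ℝ) / (l₂ + g))) (y := (l₂:ℝ) / (l₂ + g)) (C := 5)
      (by positivity) (by positivity) (by norm_num) le_rfl
    have hxm : x ^ (1 / 3 : ℝ) =
        ((l₁:ℝ) / (l₁ + g)) ^ (1 / 3 : ℝ) * ((l₂:ℝ) / (l₂ + g)) ^ (1 / 3 : ℝ) := by
      rw [hxe, Real.mul_rpow (by positivity) (by positivity)]
    have hK0 : 0 ≤ K := by linarith
    calc _ ≤ (K * (5 * ((l₁:ℝ) / (l₁ + g)) ^ (1 / 3 : ℝ))) *
          (K * (5 * ((l₂:ℝ) / (l₂ + g)) ^ (1 / 3 : ℝ))) :=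
          mul_le_mul (mul_le_mul_of_nonneg_left e1 hK0) (mul_le_mul_of_nonneg_left e2 hK0)
            (by positivity) (by positivity)
      _ = _ := by rw [hC0, hxm]; ring
  have u2 : c0 * x ^ (1 / 3 : ℝ) ≤ p := by
    have e1 := seg_lower hk.le hL hr hRSW' (D := box (-(N:ℤ)) N 0 N) (a₁ := a₁) hD0 h1 hg h2 (by
      intro z hz h0
      rw [nrm_le] at hz
      simp only [Prod.fst_sub, Prod.snd_sub, sub_zero, abs_le] at hz
      rw [mem_box]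
      omega)
    refine le_trans ?_ e1
    rw [hxe, Real.mul_rpow (by positivity) (by positivity), hc0]
    have e2 : 0 ≤ ((l₁:ℝ) / (l₁ + g)) ^ (1 / 3 : ℝ) * ((l₂:ℝ) / (l₂ + g)) ^ (1 / 3 : ℝ) := by
      positivity
    have e3 : 0 ≤ r ^ 9 * (k / 10) ^ 2 := by positivity
    calc _ = (r ^ 9 * (k / 10) ^ 2 *
          (((l₁:ℝ) / (l₁ + g)) ^ (1 / 3 : ℝ) * ((l₂:ℝ) / (l₂ + g)) ^ (1 / 3 : ℝ))) / 16 := by ring
      _ ≤ r ^ 9 * (k / 10) ^ 2 *
          (((l₁:ℝ) / (l₁ + g)) ^ (1 / 3 : ℝ) * ((l₂:ℝ) / (l₂ + g)) ^ (1 / 3 : ℝ)) := by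
          have := mul_nonneg e3 e2
          linarith
      _ = _ := by ring
  have u3 : 1 - p ≤ C0 * (1 - x) ^ (1 / 3 : ℝ) := by
    rcases Nat.lt_or_ge (min l₁ l₂) g with hm | hm
    · have e1 : 1 / 2 ≤ 1 - x := by
        rw [hxc, div_le_div_iff₀ (by norm_num) (by positivity)]
        rcases lt_or_ge l₁ g with h | h
        · have h' : (l₁:ℝ) ≤ g := by exact_mod_cast h.le
          nlinarith [mul_nonneg hg0.le hg0.le, mul_nonneg hl2.le hg0.le,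
            mul_nonneg hl2.le (sub_nonneg.2 h'), mul_nonneg hg0.le (sub_nonneg.2 h')]
        · have h' : (l₂:ℝ) ≤ g := by
            have : l₂ < g := by omega
            exact_mod_cast this.le
          nlinarith [mul_nonneg hg0.le hg0.le, mul_nonneg hl1.le hg0.le,
            mul_nonneg hl1.le (sub_nonneg.2 h'), mul_nonneg hg0.le (sub_nonneg.2 h')]
      have e2 : (1:ℝ) ≤ 2 * (1 - x) ^ (1 / 3 : ℝ) := by
        have := rpow13_le (x := 1) (y := 1 - x) (C := 2) (by norm_num) hx1 (by norm_num)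
          (by linarith)
        simpa using this
      have e3 : 0 ≤ p := perc_half_nonneg _ _
      nlinarith
    · have e1 := not_seg_le (N := N) (a₁ := a₁) (a₂ := a₁ + l₁) (a₃ := a₁ + l₁ + g)
        (a₄ := a₁ + l₁ + g + l₂) (g := g) (r := min l₁ l₂) (by omega) (by omega) (by omega) hg
        (by omega) (by omega) hm (by omega) (by omega)
      rw [hp, perc_not]
      refine e1.trans ((hK g (min l₁ l₂) hg hm).trans ?_)
      have hr0 : (0:ℝ) < (min l₁ l₂ : ℕ) := by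
        have : 0 < min l₁ l₂ := by omega
        exact_mod_cast this
      have e2 : (g:ℝ) / (min l₁ l₂ : ℕ) ≤ 4 * (1 - x) := by
        rw [hxc, mul_div_assoc', div_le_div_iff₀ hr0 (by positivity)]
        rcases le_total l₁ l₂ with h | h
        · rw [min_eq_left h] at hm ⊢
          have h3 : (g:ℝ) ≤ l₁ := by exact_mod_cast hm
          have h4 : (l₁:ℝ) ≤ l₂ := by exact_mod_cast h
          have h5 : ((l₁:ℝ) + g) * (l₂ + g) ≤ (2 * l₁) * (2 * (l₁ + g + l₂)) := by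
            apply mul_le_mul (by linarith) (by linarith) (by positivity) (by positivity)
          nlinarith
        · rw [min_eq_right h] at hm ⊢
          have h3 : (g:ℝ) ≤ l₂ := by exact_mod_cast hm
          have h4 : (l₂:ℝ) ≤ l₁ := by exact_mod_cast h
          have h5 : ((l₁:ℝ) + g) * (l₂ + g) ≤ (2 * (l₁ + g + l₂)) * (2 * l₂) := by
            apply mul_le_mul (by linarith) (by linarith) (by positivity) (by positivity)
          nlinarith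
      have e3 := rpow13_le (by positivity) hx1 (by norm_num : (1:ℝ) ≤ 4) e2
      calc K * ((g:ℝ) / (min l₁ l₂ : ℕ)) ^ (1 / 3 : ℝ) ≤ K * (4 * (1 - x) ^ (1 / 3 : ℝ)) :=
            mul_le_mul_of_nonneg_left e3 (by linarith)
        _ = 4 * K * (1 - x) ^ (1 / 3 : ℝ) := by ring
        _ ≤ _ := mul_le_mul_of_nonneg_right hKC hY13
  have u4 : c0 * (1 - x) ^ (1 / 3 : ℝ) ≤ 1 - p := by
    rw [hp, perc_not]
    rcases le_total l₂ l₁ with h | h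
    · have e1 := not_seg_lower hk.le hL hr hRSW' h1 hg h2 h hN
      rw [← hxc] at e1
      exact e1
    · have e1 := not_seg_lower hk.le hL hr hRSW' (a₁ := -(a₁ + l₁ + g + l₂)) (l₁ := l₂) (g := g)
        (l₂ := l₁) (N := N) h2 hg h1 h (by
          rw [abs_neg, show -(a₁ + l₁ + g + l₂) + (l₂:ℤ) + g + l₁ = -a₁ by ring, abs_neg]
          linarith)
      have e2 : (g:ℝ) * (l₂ + g + l₁) / ((l₂ + g) * (l₁ + g)) = 1 - x := by
        rw [hxc]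
        congr 1 <;> ring
      rw [e2] at e1
      refine e1.trans (le_of_eq ?_)
      have e3 := seg_refl (N:ℤ) a₁ (a₁ + l₁) (a₁ + l₁ + g) (a₁ + l₁ + g + l₂)
      rw [← e3]
      congr 3
      · congr 1 <;> ring
  have hF0 : 0 ≤ F := le_trans (by positivity) b1
  have hF1 : 0 ≤ 1 - F := le_trans (by positivity) b3
  refine ⟨⟨?_, ?_⟩, ?_, ?_⟩
  · calc c0 / 2 * F ≤ c0 / 2 * (2 * x ^ (1 / 3 : ℝ)) := by gcongr
      _ = c0 * x ^ (1 / 3 : ℝ) := by ring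
      _ ≤ p := u2
  · calc p ≤ C0 * x ^ (1 / 3 : ℝ) := u1
      _ = 4 * C0 * (1 / 4 * x ^ (1 / 3 : ℝ)) := by ring
      _ ≤ 4 * C0 * F := mul_le_mul_of_nonneg_left b1 (by linarith)
  · calc c0 / 2 * (1 - F) ≤ c0 / 2 * (2 * (1 - x) ^ (1 / 3 : ℝ)) := by gcongr
      _ = c0 * (1 - x) ^ (1 / 3 : ℝ) := by ring
      _ ≤ 1 - p := u4
  · calc 1 - p ≤ C0 * (1 - x) ^ (1 / 3 : ℝ) := u3
      _ = 4 * C0 * (1 / 4 * (1 - x) ^ (1 / 3 : ℝ)) := by ring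
      _ ≤ 4 * C0 * (1 - F) := mul_le_mul_of_nonneg_left b3 (by linarith)

end H47Perc
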