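import Pool.Agent.Helper57.Perc.QuadD

/-!
Cardy's formula up to multiplicative constants, for all quads of the quadrant.
-/

set_option autoImplicit false

namespace H47Perc
open Finset
open Pool.Agent.Helper69.RSW (P P_mono P_map P_restrict P_congr Dep Up harris P_nonneg P_indep
  P_or_le P_le_one)

section
variable {k K c c' : ℝ} (H : Consts k K c c')
include H

/-- lower bound -/
lemma segQ_lower {N : ℕ} {a₂ : ℤ} {l₁ g l₂ R : ℕ} (h1 : 1 ≤ l₁) (hg : 1 ≤ g) (h2 : 1 ≤ l₂)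
    (ha : |a₂| ≤ a₂ + g) (hR : |a₂ - l₁| + |a₂| = R)
    (hN : 160 * g ≤ N) (hN2 : |a₂| + 6 * g ≤ N) :
    c' ^ 2 * c ^ 18 * k ^ 4 / 10485760000 *
      (gF l₁ R g * ((l₂:ℝ) / (l₂ + g))) ^ (1 / 3 : ℝ) ≤
      perc half (box 0 N 0 N) (SegQ (a₂ - l₁) a₂ (a₂ + g) (a₂ + g + l₂)) := by
  have hk := H.k0
  have hc := H.c0
  have hc' := H.c0'
  have hl1 : (1:ℝ) ≤ l₁ := by exact_mod_cast h1
  have hl2 : (1:ℝ) ≤ l₂ := by exact_mod_cast h2
  have hg0 : (1:ℝ) ≤ g := by exact_mod_cast hg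
  have hab := abs_cases a₂
  have hab1 := abs_cases (a₂ - l₁)
  have hab2 := abs_cases (a₂ - (min l₁ g : ℕ))
  obtain ⟨R', hR'⟩ : ∃ r : ℕ, |a₂ - (min l₁ g : ℕ)| + |a₂| = r :=
    ⟨(|a₂ - (min l₁ g : ℕ)| + |a₂|).toNat, by omega⟩
  have hR0 : (0:ℝ) ≤ R := Nat.cast_nonneg _
  have e1 := segQ_lower_short H (N := N) (a₂ := a₂) (l₁ := min l₁ g) (g := g) (l₂ := min l₂ g)
    (R := R') (by omega) hg (by omega) (by omega) (by omega) ha hR' hN hN2
  have e2 : perc half (box 0 N 0 N)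
      (SegQ (a₂ - (min l₁ g : ℕ)) a₂ (a₂ + g) (a₂ + g + (min l₂ g : ℕ))) ≤
      perc half (box 0 N 0 N) (SegQ (a₂ - l₁) a₂ (a₂ + g) (a₂ + g + l₂)) := by
    apply perc_half_mono
    rintro ω _ ⟨x, y, x1, x2, y1, y2, h⟩
    exact ⟨x, y, by omega, x2, y1, by omega, h⟩
  refine le_trans ?_ (e1.trans e2)
  have hG0 : 0 ≤ gF (min l₁ g : ℕ) R' g := gF_nonneg (by positivity) (by positivity) (by linarith)
  have f1 : gF l₁ R g ≤ 4 * gF (min l₁ g : ℕ) R' g := by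
    rcases le_or_gt l₁ g with h | h
    · have hRR : R = R' := by
        have : (R:ℤ) = R' := by rw [← hR, ← hR', min_eq_left h]
        exact_mod_cast this
      rw [min_eq_left h, ← hRR]
      have : 0 ≤ gF l₁ R g := gF_nonneg (by linarith) hR0 (by linarith)
      linarith
    · rw [min_eq_right h.le] at hR' ⊢
      have hgR : (g:ℝ) ≤ R' := by
        have h5 := abs_cases (a₂ - g)
        have : g ≤ R' := by omega
        exact_mod_cast this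
      have q1 : gF l₁ R g ≤ 1 := by
        unfold gF
        rw [div_le_one (by positivity)]
        apply mul_le_mul (by linarith) (by linarith) hR0 (by positivity)
      have q2 : 1 ≤ 4 * gF g R' g := by
        unfold gF
        rw [mul_div_assoc', le_div_iff₀ (by positivity)]
        nlinarith
      linarith
  have f2 : (l₂:ℝ) / (l₂ + g) ≤ 2 * (((min l₂ g : ℕ):ℝ) / ((min l₂ g : ℕ) + g)) := by
    rcases le_or_gt l₂ g with h | h
    · rw [min_eq_left h]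
      have : 0 ≤ (l₂:ℝ) / (l₂ + g) := by positivity
      linarith
    · rw [min_eq_right h.le]
      have q1 : (l₂:ℝ) / (l₂ + g) ≤ 1 := by
        rw [div_le_one (by positivity)]
        linarith
      have q2 : 2 * ((g:ℝ) / (g + g)) = 1 := by field_simp; norm_num
      linarith
  have hY0 : 0 ≤ ((min l₂ g : ℕ):ℝ) / ((min l₂ g : ℕ) + g) := by positivity
  have f3 := rpow13_le (x := gF l₁ R g * ((l₂:ℝ) / (l₂ + g)))
    (y := gF (min l₁ g : ℕ) R' g * (((min l₂ g : ℕ):ℝ) / ((min l₂ g : ℕ) + g))) (C := 8)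
    (mul_nonneg (gF_nonneg (by linarith) hR0 (by linarith)) (by positivity))
    (mul_nonneg hG0 hY0) (by norm_num) (by
      refine (mul_le_mul f1 f2 (by positivity) (by positivity)).trans (le_of_eq (by ring)))
  rw [Real.mul_rpow hG0 hY0] at f3
  have hA : 0 ≤ c' ^ 2 * c ^ 18 * k ^ 4 / 10485760000 := by positivity
  refine (mul_le_mul_of_nonneg_left f3 hA).trans (le_of_eq (by ring))

end

/-! ### the cross ratio -/

lemma sq_sub_bounds {s t : ℝ} (h : s < t) :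
    (t - s) * (|s| + |t|) / 2 ≤ sq t - sq s ∧ sq t - sq s ≤ (t - s) * (|s| + |t|) := by
  unfold sq
  rcases abs_cases s with ⟨h1, h1'⟩ | ⟨h1, h1'⟩ <;> rcases abs_cases t with ⟨h2, h2'⟩ | ⟨h2, h2'⟩ <;>
    rw [h1, h2]
  · constructor <;> nlinarith
  · linarith
  · constructor <;> nlinarith [mul_nonneg (neg_nonneg.2 h1'.le) h2', sq_nonneg (t + s)]
  · constructor <;> nlinarith

lemma lam_sq_bounds {a₂ l₁ g l₂ R : ℝ} (h1 : 0 < l₁) (hg : 0 < g) (h2 : 0 < l₂)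
    (ha : |a₂| ≤ a₂ + g) (hR : |a₂ - l₁| + |a₂| = R) :
    1 / 2 * (gF l₁ R g * (l₂ / (l₂ + g))) ≤
      lam (sq (a₂ - l₁)) (sq a₂) (sq (a₂ + g)) (sq (a₂ + g + l₂)) ∧
    lam (sq (a₂ - l₁)) (sq a₂) (sq (a₂ + g)) (sq (a₂ + g + l₂)) ≤
      24 * (gF l₁ R g * (l₂ / (l₂ + g))) := by
  have h3 : 0 ≤ a₂ + g := (abs_nonneg _).trans ha
  have ha1 := abs_nonneg (a₂ - l₁)
  have ha2 := abs_nonneg a₂
  obtain ⟨b1, b2⟩ := sq_sub_bounds (s := a₂ - l₁) (t := a₂) (by linarith)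
  obtain ⟨b3, b4⟩ := sq_sub_bounds (s := a₂ - l₁) (t := a₂ + g) (by linarith)
  obtain ⟨b5, b6⟩ := sq_sub_bounds (s := a₂ + g) (t := a₂ + g + l₂) (by linarith)
  obtain ⟨b7, b8⟩ := sq_sub_bounds (s := a₂) (t := a₂ + g + l₂) (by linarith)
  have b9 : sq (a₂ + g + l₂) - sq (a₂ + g) = l₂ * ((a₂ + g) + (a₂ + g + l₂)) := by
    unfold sq
    rw [abs_of_nonneg h3, abs_of_nonneg (by linarith : 0 ≤ a₂ + g + l₂)]
    ring
  rw [abs_of_nonneg h3] at b3 b4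
  rw [abs_of_nonneg (by linarith : 0 ≤ a₂ + g + l₂)] at b7 b8
  rw [hR, show a₂ - (a₂ - l₁) = l₁ by ring] at b1 b2
  rw [show a₂ + g - (a₂ - l₁) = l₁ + g by ring] at b3 b4
  rw [show a₂ + g + l₂ - a₂ = l₂ + g by ring] at b7 b8
  have hR0 : 0 < R := by
    rw [← hR]
    rcases abs_cases (a₂ - l₁) with h | h <;> rcases abs_cases a₂ with h' | h' <;> linarith
  have hgR : R + g ≤ 3 * (|a₂ - l₁| + (a₂ + g)) := by
    have := neg_abs_le a₂
    linarith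
  have hgR' : |a₂ - l₁| + (a₂ + g) ≤ R + g := by
    have := le_abs_self a₂
    linarith
  have h9 : 0 < |a₂ - l₁| + (a₂ + g) := by linarith
  have hD1 : 0 < sq (a₂ + g) - sq (a₂ - l₁) :=
    lt_of_lt_of_le (by positivity) b3
  have h8 : 0 < |a₂| + (a₂ + g + l₂) := by linarith
  have hD2 : 0 < sq (a₂ + g + l₂) - sq a₂ := lt_of_lt_of_le (by positivity) b7
  have F1a : 1 / 2 * gF l₁ R g ≤ (sq a₂ - sq (a₂ - l₁)) / (sq (a₂ + g) - sq (a₂ - l₁)) := by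
    unfold gF
    rw [le_div_iff₀ hD1, mul_comm, ← mul_assoc, mul_div_assoc', div_le_iff₀ (by positivity)]
    have q1 : sq (a₂ + g) - sq (a₂ - l₁) ≤ (l₁ + g) * (R + g) :=
      b4.trans (mul_le_mul_of_nonneg_left hgR' (by positivity))
    have q2 : 0 ≤ l₁ * R := by positivity
    nlinarith [mul_le_mul q1 b1 (by positivity) (by positivity)]
  have F1b : (sq a₂ - sq (a₂ - l₁)) / (sq (a₂ + g) - sq (a₂ - l₁)) ≤ 6 * gF l₁ R g := by
    unfold gF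
    rw [div_le_iff₀ hD1, mul_comm, mul_comm 6, div_mul_eq_mul_div, mul_div_assoc',
      le_div_iff₀ (by positivity)]
    have q1 : (l₁ + g) * (R + g) ≤ 6 * (sq (a₂ + g) - sq (a₂ - l₁)) := by
      have := mul_le_mul_of_nonneg_left hgR (by positivity : 0 ≤ l₁ + g)
      linarith
    nlinarith [mul_le_mul b2 q1 (by positivity) (by positivity)]
  have F2a : l₂ / (l₂ + g) ≤ (sq (a₂ + g + l₂) - sq (a₂ + g)) / (sq (a₂ + g + l₂) - sq a₂) := by
    rw [b9, div_le_div_iff₀ (by positivity) hD2]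
    have q1 : sq (a₂ + g + l₂) - sq a₂ ≤ (l₂ + g) * ((a₂ + g) + (a₂ + g + l₂)) :=
      b8.trans (mul_le_mul_of_nonneg_left (by linarith) (by positivity))
    calc l₂ * (sq (a₂ + g + l₂) - sq a₂) ≤ l₂ * ((l₂ + g) * ((a₂ + g) + (a₂ + g + l₂))) :=
          mul_le_mul_of_nonneg_left q1 h2.le
      _ = _ := by ring
  have F2b : (sq (a₂ + g + l₂) - sq (a₂ + g)) / (sq (a₂ + g + l₂) - sq a₂) ≤
      4 * (l₂ / (l₂ + g)) := by
    rw [b9, mul_div_assoc', div_le_div_iff₀ hD2 (by positivity)]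
    have q1 : (l₂ + g) * ((a₂ + g) + (a₂ + g + l₂)) ≤ 4 * (sq (a₂ + g + l₂) - sq a₂) := by
      have := mul_le_mul_of_nonneg_left (by linarith :
        (a₂ + g) + (a₂ + g + l₂) ≤ 2 * (|a₂| + (a₂ + g + l₂))) (by positivity : 0 ≤ l₂ + g)
      linarith
    calc l₂ * ((a₂ + g) + (a₂ + g + l₂)) * (l₂ + g)
        = l₂ * ((l₂ + g) * ((a₂ + g) + (a₂ + g + l₂))) := by ring
      _ ≤ l₂ * (4 * (sq (a₂ + g + l₂) - sq a₂)) := mul_le_mul_of_nonneg_left q1 h2.le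
      _ = _ := by ring
  have hlam : lam (sq (a₂ - l₁)) (sq a₂) (sq (a₂ + g)) (sq (a₂ + g + l₂)) =
      (sq a₂ - sq (a₂ - l₁)) / (sq (a₂ + g) - sq (a₂ - l₁)) *
      ((sq (a₂ + g + l₂) - sq (a₂ + g)) / (sq (a₂ + g + l₂) - sq a₂)) := by
    unfold lam
    rw [div_mul_div_comm]
  have hG0 : 0 ≤ gF l₁ R g := gF_nonneg h1.le hR0.le hg.le
  have hY0 : 0 ≤ l₂ / (l₂ + g) := by positivity
  rw [hlam]
  constructor
  · calc 1 / 2 * (gF l₁ R g * (l₂ / (l₂ + g))) = (1 / 2 * gF l₁ R g) * (l₂ / (l₂ + g)) := by ring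
      _ ≤ _ := mul_le_mul F1a F2a hY0 ((by positivity : 0 ≤ 1 / 2 * gF l₁ R g).trans F1a)
  · calc _ ≤ (6 * gF l₁ R g) * (4 * (l₂ / (l₂ + g))) :=
          mul_le_mul F1b F2b (hY0.trans F2a) (by positivity)
      _ = _ := by ring

lemma sq_strictMono {s t : ℝ} (h : s < t) : sq s < sq t := by
  have h1 := (sq_sub_bounds h).1
  have h2 : 0 < |s| + |t| := by
    rcases abs_cases s with h' | h' <;> rcases abs_cases t with h'' | h'' <;> linarith
  have h3 : 0 < (t - s) * (|s| + |t|) / 2 := by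
    have : 0 < t - s := by linarith
    positivity
  linarith

lemma lam_mem {x₁ x₂ x₃ x₄ : ℝ} (h12 : x₁ < x₂) (h23 : x₂ < x₃) (h34 : x₃ < x₄) :
    0 ≤ lam x₁ x₂ x₃ x₄ ∧ lam x₁ x₂ x₃ x₄ ≤ 1 := by
  unfold lam
  have h1 : 0 < x₂ - x₁ := by linarith
  have h2 : 0 < x₄ - x₃ := by linarith
  have h3 : 0 < x₃ - x₁ := by linarith
  have h4 : 0 < x₄ - x₂ := by linarith
  refine ⟨by positivity, ?_⟩
  rw [div_le_one (by positivity)]
  exact mul_le_mul (by linarith) (by linarith) h2.le h3.le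

lemma sq_neg' (s : ℝ) : sq (-s) = - sq s := by
  unfold sq
  rw [abs_neg]
  ring

lemma lam_neg (x₁ x₂ x₃ x₄ : ℝ) : lam (-x₄) (-x₃) (-x₂) (-x₁) = lam x₁ x₂ x₃ x₄ := by
  unfold lam
  congr 1 <;> ring

lemma segQ_transp (a₁ a₂ a₃ a₄ N : ℤ) :
    perc half (box 0 N 0 N) (SegQ (-a₄) (-a₃) (-a₂) (-a₁)) =
      perc half (box 0 N 0 N) (SegQ a₁ a₂ a₃ a₄) := by
  conv_lhs => rw [← box_transp 0 N 0 N, perc_half_map transp_iso]
  congr 1
  funext ω
  apply propext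
  constructor
  · rintro ⟨x, y, x1, x2, y1, y2, h⟩
    refine ⟨-y, -x, by omega, by omega, by omega, by omega, joined_symm ?_⟩
    rw [← joined_map (f := transp), transp_bq, transp_bq, neg_neg, neg_neg]
    exact h
  · rintro ⟨x, y, x1, x2, y1, y2, h⟩
    refine ⟨-y, -x, by omega, by omega, by omega, by omega, joined_symm ?_⟩
    have h4 := (joined_map (f := transp)).2 h
    rwa [transp_bq, transp_bq] at h4

/-- **Cardy's formula up to constants in the quadrant**, from the one-arm exponents. -/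
theorem cardy_quadrant (hX : CrossBound) (hE : ArmExponents) :
    ∃ c C : ℝ, 0 < c ∧ ∀ a₁ a₂ a₃ a₄ : ℤ, a₁ < a₂ → a₂ < a₃ → a₃ < a₄ →
      ∀ N : ℕ, 160 * (|a₁| + |a₄|) ≤ N →
      c * cardy (lam (sq a₁) (sq a₂) (sq a₃) (sq a₄)) ≤
        perc half (box 0 N 0 N) (SegQ a₁ a₂ a₃ a₄) ∧
      perc half (box 0 N 0 N) (SegQ a₁ a₂ a₃ a₄) ≤
        C * cardy (lam (sq a₁) (sq a₂) (sq a₃) (sq a₄)) := by
  obtain ⟨k, K, r, r', H⟩ := exists_consts hX hE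
  have hk := H.k0
  have hr := H.c0
  have hr' := H.c0'
  have hK := H.K1
  obtain ⟨B, hB⟩ : ∃ B : ℝ, B = r' ^ 2 * r ^ 18 * k ^ 4 / 10485760000 := ⟨_, rfl⟩
  have hB0 : 0 < B := by rw [hB]; positivity
  -- the main case
  have main : ∀ a₁ a₂ a₃ a₄ : ℤ, a₁ < a₂ → a₂ < a₃ → a₃ < a₄ → |a₂| ≤ a₃ →
      ∀ N : ℕ, 160 * (|a₁| + |a₄|) ≤ N →
      B / 96 * cardy (lam (sq a₁) (sq a₂) (sq a₃) (sq a₄)) ≤
        perc half (box 0 N 0 N) (SegQ a₁ a₂ a₃ a₄) ∧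
      perc half (box 0 N 0 N) (SegQ a₁ a₂ a₃ a₄) ≤
        K ^ 3 * 57344 * 4 * cardy (lam (sq a₁) (sq a₂) (sq a₃) (sq a₄)) := by
    intro a₁ a₂ a₃ a₄ h12 h23 h34 ha N hN
    obtain ⟨l₁, rfl⟩ : ∃ l : ℕ, a₁ = a₂ - l := ⟨(a₂ - a₁).toNat, by omega⟩
    obtain ⟨g, rfl⟩ : ∃ l : ℕ, a₃ = a₂ + l := ⟨(a₃ - a₂).toNat, by omega⟩
    obtain ⟨l₂, rfl⟩ : ∃ l : ℕ, a₄ = a₂ + g + l := ⟨(a₄ - (a₂ + g)).toNat, by omega⟩
    have h1 : 1 ≤ l₁ := by omega
    have hg : 1 ≤ g := by omega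
    have h2 : 1 ≤ l₂ := by omega
    have hl1 : (0:ℝ) < l₁ := by exact_mod_cast h1
    have hl2 : (0:ℝ) < l₂ := by exact_mod_cast h2
    have hg0 : (0:ℝ) < g := by exact_mod_cast hg
    have hb1 := abs_cases (a₂ - l₁)
    have hb2 := abs_cases (a₂ + g + l₂)
    have hb3 := abs_cases a₂
    obtain ⟨R, hR⟩ : ∃ R : ℕ, |a₂ - l₁| + |a₂| = R := ⟨(|a₂ - l₁| + |a₂|).toNat, by omega⟩
    have e1 := segQ_upper H (N := N) h1 hg h2 ha hR
    have e2 := segQ_lower H (N := N) h1 hg h2 ha hR (by omega) (by omega)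
    have hRr : |(a₂:ℝ) - l₁| + |(a₂:ℝ)| = R := by exact_mod_cast hR
    have har : |(a₂:ℝ)| ≤ a₂ + g := by exact_mod_cast ha
    obtain ⟨L1, L2⟩ := lam_sq_bounds (a₂ := (a₂:ℝ)) hl1 hg0 hl2 har hRr
    push_cast
    obtain ⟨m1, m2⟩ := lam_mem (x₁ := sq ((a₂:ℝ) - l₁)) (x₂ := sq a₂) (x₃ := sq (a₂ + g))
      (x₄ := sq (a₂ + g + l₂)) (sq_strictMono (by linarith)) (sq_strictMono (by linarith))
      (sq_strictMono (by linarith))
    set x := lam (sq ((a₂:ℝ) - l₁)) (sq a₂) (sq (a₂ + g)) (sq (a₂ + g + l₂)) with hx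
    obtain ⟨b1, b2⟩ := cardy_bounds m1 m2
    have hG0 : 0 ≤ gF l₁ R g * ((l₂:ℝ) / (l₂ + g)) :=
      mul_nonneg (gF_nonneg hl1.le (by positivity) hg0.le) (by positivity)
    constructor
    · have f1 := rpow13_le (x := x) (y := gF l₁ R g * ((l₂:ℝ) / (l₂ + g))) (C := 24) m1 hG0
        (by norm_num) L2
      rw [← hB] at e2
      calc B / 96 * cardy x ≤ B / 96 * (2 * x ^ (1 / 3 : ℝ)) :=
            mul_le_mul_of_nonneg_left b2 (by positivity)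
        _ ≤ B / 96 * (2 * (24 * (gF l₁ R g * ((l₂:ℝ) / (l₂ + g))) ^ (1 / 3 : ℝ))) := by
            apply mul_le_mul_of_nonneg_left _ (by positivity)
            linarith
        _ = B * (gF l₁ R g * ((l₂:ℝ) / (l₂ + g))) ^ (1 / 3 : ℝ) / 2 := by ring
        _ ≤ B * (gF l₁ R g * ((l₂:ℝ) / (l₂ + g))) ^ (1 / 3 : ℝ) := by
            have : 0 ≤ B * (gF l₁ R g * ((l₂:ℝ) / (l₂ + g))) ^ (1 / 3 : ℝ) :=
              mul_nonneg hB0.le (Real.rpow_nonneg hG0 _)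
            linarith
        _ ≤ _ := e2
    · have f1 := rpow13_le (x := 28672 * (gF l₁ R g * ((l₂:ℝ) / (l₂ + g)))) (y := x) (C := 57344)
        (by positivity) m1 (by norm_num) (by linarith)
      have hK3 : 0 ≤ K ^ 3 := by positivity
      calc _ ≤ K ^ 3 * (28672 * (gF l₁ R g * ((l₂:ℝ) / (l₂ + g)))) ^ (1 / 3 : ℝ) := e1
        _ ≤ K ^ 3 * (57344 * x ^ (1 / 3 : ℝ)) := mul_le_mul_of_nonneg_left f1 hK3
        _ ≤ K ^ 3 * (57344 * (4 * cardy x)) := by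
            apply mul_le_mul_of_nonneg_left _ hK3
            linarith
        _ = _ := by ring
  refine ⟨B / 96, K ^ 3 * 57344 * 4, by positivity, fun a₁ a₂ a₃ a₄ h12 h23 h34 N hN => ?_⟩
  by_cases ha : |a₂| ≤ a₃
  · exact main a₁ a₂ a₃ a₄ h12 h23 h34 ha N hN
  · have h1 := abs_cases a₂
    have h3 := abs_cases a₃
    have hm := main (-a₄) (-a₃) (-a₂) (-a₁) (by omega) (by omega) (by omega)
      (by rw [abs_neg]; omega) N (by rw [abs_neg, abs_neg]; omega)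
    rw [segQ_transp] at hm
    push_cast at hm
    rw [sq_neg', sq_neg', sq_neg', sq_neg', lam_neg] at hm
    exact hm

end H47Perc
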