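import Pool.Agent.Helper92.Perc.Main
import Pool.Agent.Helper57.Perc.QuadE

/-!
Critical bond percolation on the square lattice: Cardy's formula up to multiplicative constants,
for all quads of the half-plane and of the quadrant.
-/

set_option autoImplicit false

open H47Perc

namespace Pool.Agent.Helper57.CardyHalfPlane

/-- There are `0 < c` and `C` such that for all integers `a₁ < a₂ < a₃ < a₄` and all
`N ≥ 160 (|a₁| + |a₄|)`: in the half-plane (box `[-N,N] × [0,N]`) the probability `p` that the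
boundary arcs `(a₁,a₂]` and `[a₃,a₄)` are joined by open edges satisfies `c F ≤ p ≤ C F` and
`c (1 - F) ≤ 1 - p ≤ C (1 - F)`, where `F` is Cardy's function of the cross ratio of `a₁, …, a₄`;
in the quadrant (box `[0,N]²`) the same probability `q` for the arcs of the boundary of the
quadrant, parametrised by the line, satisfies `c G ≤ q ≤ C G`, where `G` is Cardy's function of the
cross ratio of the images of `a₁, …, a₄` under the conformal map `z ↦ z²` onto the half-plane. -/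
theorem result : ∃ c C : ℝ, 0 < c ∧ ∀ a₁ a₂ a₃ a₄ : ℤ, a₁ < a₂ → a₂ < a₃ → a₃ < a₄ →
    ∀ N : ℕ, 160 * (|a₁| + |a₄|) ≤ N →
    ((c * cardy (lam a₁ a₂ a₃ a₄) ≤ perc half (box (-(N:ℤ)) N 0 N) (Seg a₁ a₂ a₃ a₄) ∧
      perc half (box (-(N:ℤ)) N 0 N) (Seg a₁ a₂ a₃ a₄) ≤ C * cardy (lam a₁ a₂ a₃ a₄)) ∧
    (c * (1 - cardy (lam a₁ a₂ a₃ a₄)) ≤
        1 - perc half (box (-(N:ℤ)) N 0 N) (Seg a₁ a₂ a₃ a₄) ∧
      1 - perc half (box (-(N:ℤ)) N 0 N) (Seg a₁ a₂ a₃ a₄) ≤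
        C * (1 - cardy (lam a₁ a₂ a₃ a₄)))) ∧
    (c * cardy (lam (sq a₁) (sq a₂) (sq a₃) (sq a₄)) ≤
        perc half (box 0 N 0 N) (SegQ a₁ a₂ a₃ a₄) ∧
      perc half (box 0 N 0 N) (SegQ a₁ a₂ a₃ a₄) ≤
        C * cardy (lam (sq a₁) (sq a₂) (sq a₃) (sq a₄))) := by
  obtain ⟨c, C, hc, h⟩ := cardy_half_plane H46.rsw_pLR one_arm_exponents
  obtain ⟨c', C', hc', h'⟩ := cardy_quadrant H46.rsw_pLR one_arm_exponents
  refine ⟨min c c', max C C', lt_min hc hc', fun a₁ a₂ a₃ a₄ h12 h23 h34 N hN => ?_⟩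
  have hb1 := abs_nonneg a₁
  have hb2 := abs_nonneg a₄
  obtain ⟨⟨e1, e2⟩, e3, e4⟩ := h a₁ a₂ a₃ a₄ h12 h23 h34 N (by omega)
  obtain ⟨e5, e6⟩ := h' a₁ a₂ a₃ a₄ h12 h23 h34 N hN
  have hl := lam_mem (x₁ := (a₁:ℝ)) (x₂ := a₂) (x₃ := a₃) (x₄ := a₄) (by exact_mod_cast h12)
    (by exact_mod_cast h23) (by exact_mod_cast h34)
  have hq := lam_mem (x₁ := sq a₁) (x₂ := sq a₂) (x₃ := sq a₃) (x₄ := sq a₄)
    (sq_strictMono (by exact_mod_cast h12)) (sq_strictMono (by exact_mod_cast h23))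
    (sq_strictMono (by exact_mod_cast h34))
  have p1 : 0 ≤ cardy (lam a₁ a₂ a₃ a₄) :=
    le_trans (by have := Real.rpow_nonneg hl.1 (1 / 3 : ℝ); positivity) (cardy_bounds hl.1 hl.2).1
  have p2 : 0 ≤ 1 - cardy (lam a₁ a₂ a₃ a₄) := by
    rw [cardy_refl hl.1 hl.2]
    have h0 : 0 ≤ 1 - lam (a₁:ℝ) a₂ a₃ a₄ := by linarith [hl.2]
    exact le_trans (by have := Real.rpow_nonneg h0 (1 / 3 : ℝ); positivity)
      (cardy_bounds h0 (by linarith [hl.1])).1
  have p3 : 0 ≤ cardy (lam (sq a₁) (sq a₂) (sq a₃) (sq a₄)) :=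
    le_trans (by have := Real.rpow_nonneg hq.1 (1 / 3 : ℝ); positivity) (cardy_bounds hq.1 hq.2).1
  exact ⟨⟨⟨(mul_le_mul_of_nonneg_right (min_le_left _ _) p1).trans e1,
    e2.trans (mul_le_mul_of_nonneg_right (le_max_left _ _) p1)⟩,
    (mul_le_mul_of_nonneg_right (min_le_left _ _) p2).trans e3,
    e4.trans (mul_le_mul_of_nonneg_right (le_max_left _ _) p2)⟩,
    (mul_le_mul_of_nonneg_right (min_le_right _ _) p3).trans e5,
    e6.trans (mul_le_mul_of_nonneg_right (le_max_right _ _) p3)⟩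

end Pool.Agent.Helper57.CardyHalfPlane
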