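import Pool.Agent.Helper57.Perc.Seg

/-!
Duality in the half-plane, part 1: if two arcs of the boundary are not joined then there is a dual
arm from the gap.
-/

set_option autoImplicit false

namespace H47Perc
open Finset
open Pool.Agent.Helper69.RSW (P P_mono P_map P_restrict P_congr Dep Up harris P_nonneg P_indep
  P_or_le P_le_one P_flip P_compl)

/-- relabelling by a map that is injective on the edge set -/
lemma P_image {E E' : Type*} [DecidableEq E] [DecidableEq E'] (F : Finset E) (φ : E → E')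
    (hφ : Set.InjOn φ F) (A : Finset E' → Prop) :
    P (F.image φ) A = P F (fun S => A (S.image φ)) := by
  classical
  unfold P
  rw [Finset.card_image_of_injOn hφ]
  congr 2
  symm
  apply Finset.card_bij (i := fun S _ => S.image φ)
  · intro S h
    simp only [Finset.mem_filter, Finset.mem_powerset] at h ⊢
    exact ⟨Finset.image_subset_image h.1, h.2⟩
  · intro S hS T hT h
    simp only [Finset.mem_filter, Finset.mem_powerset] at hS hT
    ext e
    constructor
    · intro he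
      have h1 : φ e ∈ T.image φ := h ▸ Finset.mem_image_of_mem φ he
      obtain ⟨e', he', h2⟩ := Finset.mem_image.1 h1
      rwa [← hφ (hT.1 he') (hS.1 he) h2]
    · intro he
      have h1 : φ e ∈ S.image φ := h ▸ Finset.mem_image_of_mem φ he
      obtain ⟨e', he', h2⟩ := Finset.mem_image.1 h1
      rwa [← hφ (hS.1 he') (hT.1 he) h2]
  · intro T h
    simp only [Finset.mem_filter, Finset.mem_powerset] at h
    refine ⟨F.filter (fun e => φ e ∈ T), ?_, ?_⟩
    · simp only [Finset.mem_filter, Finset.mem_powerset]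
      refine ⟨Finset.filter_subset _ _, ?_⟩
      have : (F.filter (fun e => φ e ∈ T)).image φ = T := by
        ext e
        simp only [Finset.mem_image, Finset.mem_filter]
        constructor
        · rintro ⟨e', h1, rfl⟩; exact h1.2
        · intro he
          obtain ⟨e', h1, h2⟩ := Finset.mem_image.1 (h.1 he)
          exact ⟨e', ⟨h1, by rw [h2]; exact he⟩, h2⟩
      rw [this]; exact h.2
    · ext e
      simp only [Finset.mem_image, Finset.mem_filter]
      constructor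
      · rintro ⟨e', h1, rfl⟩; exact h1.2
      · intro he
        obtain ⟨e', h1, h2⟩ := Finset.mem_image.1 (h.1 he)
        exact ⟨e', ⟨h1, by rw [h2]; exact he⟩, h2⟩

/-- the dual relabelling is injective on edges -/
lemma dT_injOn (S : Finset (ℤ × ℤ)) : Set.InjOn dT (edgesIn S : Set (Sym2 (ℤ × ℤ))) := by
  intro e he e' he' h
  have h1 := dT_dT (S := S) (Finset.mem_coe.1 he)
  have h2 := dT_dT (S := S) (Finset.mem_coe.1 he')
  rw [← h1, h, h2]

/-- a set closed under open edges contains everything joined to its points -/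
lemma joined_closed {ω : Finset (Sym2 (ℤ × ℤ))} {C : ℤ × ℤ → Prop}
    (hC : ∀ a b : ℤ × ℤ, s(a, b) ∈ ω → C a → C b) {u v : ℤ × ℤ} (h : Joined ω u v) (hu : C u) :
    C v := by
  obtain ⟨p⟩ := h
  induction p with
  | nil => exact hu
  | @cons a b c hab p ih =>
    rw [SimpleGraph.fromEdgeSet_adj] at hab
    exact ih (hC a b (by exact_mod_cast hab.1) hu)

/-- the box of the half-plane: rows `N+1, …, 2N+1` -/
noncomputable def hB (N : ℤ) : Finset (ℤ × ℤ) := box 1 (2 * N + 1) (N + 1) (2 * N + 1)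

/-- the arcs `(b₁,b₂]` and `[b₃,b₄)` of the row `r` are joined -/
def SegR (r b₁ b₂ b₃ b₄ : ℤ) (ω : Finset (Sym2 (ℤ × ℤ))) : Prop :=
  ∃ x y : ℤ, b₁ < x ∧ x ≤ b₂ ∧ b₃ ≤ y ∧ y < b₄ ∧ Joined ω (x, r) (y, r)

open Classical in
/-- the wires below the arcs -/
noncomputable def wires (N b₁ b₂ b₃ b₄ : ℤ) : Finset (Sym2 (ℤ × ℤ)) :=
  (edgesIn (box 0 (2 * N + 2) 0 (2 * N + 1))).filter (fun e =>
    (∃ i : ℤ, e = hE i N ∧ (i < b₂ ∨ b₃ ≤ i)) ∨
    (∃ x : ℤ, e = vE x N ∧ ((b₁ < x ∧ x ≤ b₂) ∨ (b₃ ≤ x ∧ x < b₄))))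

lemma hE_inj {i j i' j' : ℤ} (h : hE i j = hE i' j') : i = i' ∧ j = j' := by
  unfold hE at h
  exact (hor_eq_iff i j i' j').1 h

lemma vE_inj {i j i' j' : ℤ} (h : vE i j = vE i' j') : i = i' ∧ j = j' := by
  unfold vE at h
  exact (vert_eq_iff i j i' j').1 h

lemma hE_ne_vE (i j i' j' : ℤ) : hE i j ≠ vE i' j' := hor_ne_vert i j i' j'

/-- the wired configuration has no crossing if the arcs are not joined -/
lemma wires_LR {N : ℕ} {b₁ b₂ b₃ b₄ : ℤ} (h1 : 1 ≤ b₁) (h12 : b₁ < b₂) (h23 : b₂ < b₃)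
    (h34 : b₃ < b₄) (h4 : b₄ ≤ 2 * N + 1) {ω : Finset (Sym2 (ℤ × ℤ))} (hω : ω ⊆ edgesIn (hB N))
    (hLR : LR 0 ((2 * N + 1 : ℕ) + 1) 0 (2 * N + 1 : ℕ) (ω ∪ wires N b₁ b₂ b₃ b₄)) :
    SegR (N + 1) b₁ b₂ b₃ b₄ ω := by
  classical
  by_contra hcon
  obtain ⟨y, y', e1, e2, e3, e4, hj⟩ := hLR
  push_cast at e2 e4 hj
  have hC := joined_closed (C := fun z : ℤ × ℤ => z.1 ≤ 0 ∨ (z.2 = N ∧ z.1 ≤ b₂) ∨
    (z ∈ hB N ∧ ∃ x, b₁ < x ∧ x ≤ b₂ ∧ Joined ω (x, (N:ℤ) + 1) z)) ?_ hj (Or.inl le_rfl)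
  · simp only at hC
    rcases hC with h | h | h
    · omega
    · omega
    · have := h.1
      unfold hB at this
      rw [mem_box] at this
      simp only at this
      omega
  · intro a b hab ha
    rw [mem_union] at hab
    rcases hab with hab | hab
    · have hS := mem_edgesIn.1 (hω hab)
      have hSa := hS.1
      unfold hB at hSa
      rw [mem_box] at hSa
      rcases ha with h | h | ⟨_, x, x1, x2, x3⟩
      · omega
      · omega
      · exact Or.inr (Or.inr ⟨hS.2.1, x, x1, x2, joined_trans x3 (joined_edge hab)⟩)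
    · unfold wires at hab
      rw [mem_filter] at hab
      obtain ⟨hT, ⟨i, h, hi⟩ | ⟨x, h, hx⟩⟩ := hab
      · -- a horizontal wire
        have hrow : a.2 = N ∧ b.2 = N ∧ ((a.1 = i ∧ b.1 = i + 1) ∨ (b.1 = i ∧ a.1 = i + 1)) := by
          unfold hE at h
          rw [Sym2.eq_iff] at h
          rcases h with ⟨h, h'⟩ | ⟨h, h'⟩ <;> rw [h, h'] <;> simp
        rcases ha with h' | h' | ⟨h', _⟩
        · right; left
          omega
        · right; left
          omega
        · unfold hB at h'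
          rw [mem_box] at h'
          omega
      · have hcol : a.1 = x ∧ b.1 = x ∧ ((a.2 = N ∧ b.2 = N + 1) ∨ (b.2 = N ∧ a.2 = N + 1)) := by
          unfold vE at h
          rw [Sym2.eq_iff] at h
          rcases h with ⟨h, h'⟩ | ⟨h, h'⟩ <;> rw [h, h'] <;> simp
        rcases ha with h' | h' | ⟨h', x', x1, x2, x3⟩
        · omega
        · right; right
          have hx' : b₁ < x ∧ x ≤ b₂ := by omega
          have hb : b = (x, (N:ℤ) + 1) := by
            obtain ⟨b1, b2⟩ := b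
            simp only at hcol
            rw [Prod.mk.injEq]
            omega
          refine ⟨?_, x, hx'.1, hx'.2, by rw [hb]; exact joined_refl _ _⟩
          rw [hb]
          unfold hB
          rw [mem_box]
          simp only
          omega
        · have ha' : a = (x, (N:ℤ) + 1) := by
            unfold hB at h'
            rw [mem_box] at h'
            obtain ⟨a1, a2⟩ := a
            simp only at hcol h'
            rw [Prod.mk.injEq]
            omega
          rcases hx with hx | hx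
          · right; left
            rw [ha'] at hcol
            simp only at hcol
            omega
          · exfalso
            exact hcon ⟨x', x, x1, x2, hx.1, hx.2, by rw [← ha']; exact x3⟩

/-- the dual arm -/
lemma dual_arm {N : ℕ} {b₁ b₂ b₃ b₄ r : ℤ} (h1 : 1 ≤ b₁) (h12 : b₁ < b₂) (h23 : b₂ < b₃)
    (h34 : b₃ < b₄) (h4 : b₄ ≤ 2 * N + 1) (hr : b₃ - b₂ ≤ r) (hr1 : r ≤ b₂ - b₁)
    (hr2 : r ≤ b₄ - b₃) (hrN : r ≤ N) {ω : Finset (Sym2 (ℤ × ℤ))} (hω : ω ⊆ edgesIn (hB N))
    (hn : ¬ SegR (N + 1) b₁ b₂ b₃ b₄ ω) :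
    CrossC ((N:ℤ) + 1, b₂) (b₃ - b₂) r ((edgesIn (hB N) \ ω).image dT) := by
  classical
  set W := wires N b₁ b₂ b₃ b₄ with hW
  set T := box 0 ((2 * N + 1 : ℕ) + 1) 0 (2 * N + 1 : ℕ) with hT
  have memT : ∀ z : ℤ × ℤ, z ∈ T ↔ 0 ≤ z.1 ∧ z.1 ≤ 2 * N + 2 ∧ 0 ≤ z.2 ∧ z.2 ≤ 2 * N + 1 := by
    intro z
    rw [hT, mem_box]
    push_cast
    omega
  have hW' : ∀ e, e ∈ W ↔ e ∈ edgesIn T ∧ ((∃ i : ℤ, e = hE i N ∧ (i < b₂ ∨ b₃ ≤ i)) ∨
      (∃ x : ℤ, e = vE x N ∧ ((b₁ < x ∧ x ≤ b₂) ∨ (b₃ ≤ x ∧ x < b₄)))) := by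
    intro e
    rw [hW]
    unfold wires
    rw [mem_filter, hT]
    have : (2 * (N:ℤ) + 2) = ((2 * N + 1 : ℕ):ℤ) + 1 := by push_cast; ring
    rw [this]
    push_cast
    rfl
  rcases LR_or_dual (2 * N + 1) (ω ∪ W) with h | h
  · exact absurd (wires_LR h1 h12 h23 h34 h4 hω h) hn
  obtain ⟨y, y', e1, e2, e3, e4, hj⟩ := h
  push_cast at e2 e4 hj
  have hTT : box 0 (2 * (N:ℤ) + 1 + 1) 0 (2 * N + 1) = T := by rw [hT]; push_cast; rfl
  rw [hTT] at hj
  set η := dstar T (ω ∪ W) with hη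
  have hηT : η ⊆ edgesIn T := by
    intro e he
    rw [hη, mem_dstar] at he
    exact he.1
  set R := T.filter (fun z => (N:ℤ) + 1 ≤ z.1) with hR
  have memR : ∀ z : ℤ × ℤ, z ∈ R ↔ z ∈ T ∧ (N:ℤ) + 1 ≤ z.1 := by
    intro z; rw [hR, mem_filter]
  have u1 : ((2 * (N:ℤ) + 1 + 1, y') : ℤ × ℤ) ∈ R := by
    rw [memR, memT]; simp only; omega
  have u2 : ((0, y) : ℤ × ℤ) ∉ R := by
    rw [memR]; simp only; omega
  obtain ⟨w, w', w1, w2, w3, w4, w5, w6⟩ := joined_exit hηT (joined_symm hj) u1 u2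
  rw [memR] at w1 w2
  have w1T := (memT w).1 w1.1
  have w3T := (memT w').1 w3
  have hw : w.1 = N + 1 ∧ w'.1 = N ∧ w'.2 = w.2 := by
    have h5 : ¬ ((N:ℤ) + 1 ≤ w'.1) := fun h => w2 ⟨w3, h⟩
    rcases adj_cases w4 with h | h | h | h <;> rw [h] at h5 ⊢ <;> dsimp only at h5 ⊢ <;> omega
  -- the exit is in the gap
  have hgap : b₂ ≤ w.2 ∧ w.2 < b₃ := by
    rw [hη, mem_dstar] at w5
    have e5 : s(w, w') = hE N w.2 := by
      unfold hE
      rw [Sym2.eq_swap]
      congr 1
      · rw [← hw.2.1, ← hw.2.2]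
      · rw [← hw.1]
    have e6 : hE w.2 N ∈ edgesIn T := by
      rw [hE_mem, memT, memT]
      simp only
      omega
    have e7 : dU T s(w, w') = hE w.2 N := by
      unfold dU
      rw [e5, dT_hE, if_pos e6]
    rw [e7, mem_union, not_or] at w5
    by_contra hcon
    apply w5.2.2
    rw [hW']
    exact ⟨e6, Or.inl ⟨w.2, rfl, by omega⟩⟩
  have hj2 : Joined (η ∩ edgesIn R) w (2 * (N:ℤ) + 1 + 1, y') := joined_symm w6
  have key := crossC_of_joined (D := R) (p := ((N:ℤ) + 1, b₂)) (m := b₃ - b₂) (n := r)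
    (by omega) hr (fun _ => by
      rw [nrm_le]
      simp only [Prod.fst_sub, Prod.snd_sub, abs_le]
      omega) (fun _ => by
      rw [le_nrm]
      simp only [Prod.fst_sub, Prod.snd_sub]
      left
      rw [abs_of_nonneg (by omega)]
      omega) hj2
  apply crossC_up _ _ _ _ _ _ key
  intro e he
  rw [mem_inter] at he
  obtain ⟨he1, he2⟩ := he
  rw [hη, mem_dstar] at he1
  rw [mem_image]
  rcases edgesIn_cases he2 with ⟨i, j, rfl⟩ | ⟨i, j, rfl⟩
  · -- horizontal
    rw [hE_mem, mem_annC, mem_annC, memR, memR, memT, memT, nrm_le, nrm_le, le_nrm, le_nrm] at he2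
    simp only [Prod.fst_sub, Prod.snd_sub, abs_le] at he2
    have e6 : hE j i ∈ edgesIn T := by
      rw [hE_mem, memT, memT]
      simp only
      omega
    have e7 : dU T (hE i j) = hE j i := by
      unfold dU
      rw [dT_hE, if_pos e6]
    rw [e7, mem_union, not_or] at he1
    refine ⟨hE j i, ?_, dT_hE j i⟩
    rw [mem_sdiff]
    refine ⟨?_, he1.2.1⟩
    unfold hB
    rw [hE_mem, mem_box, mem_box]
    simp only
    omega
  · rw [vE_mem, mem_annC, mem_annC, memR, memR, memT, memT, nrm_le, nrm_le, le_nrm, le_nrm] at he2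
    simp only [Prod.fst_sub, Prod.snd_sub, abs_le] at he2
    have e6 : vE (j + 1) (i - 1) ∈ edgesIn T := by
      rw [vE_mem, memT, memT]
      simp only
      omega
    have e7 : dU T (vE i j) = vE (j + 1) (i - 1) := by
      unfold dU
      rw [dT_vE, if_pos e6]
    rw [e7, mem_union, not_or] at he1
    have hi : i ≠ N + 1 := by
      rintro rfl
      apply he1.2.2
      rw [hW']
      refine ⟨e6, Or.inr ⟨j + 1, by congr 1; ring, ?_⟩⟩
      rcases abs_cases ((N:ℤ) + 1 - (N + 1)) with h5 | h5 <;>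
        rcases abs_cases (j - b₂) with h6 | h6 <;>
        rcases abs_cases (j + 1 - b₂) with h7 | h7 <;> omega
    refine ⟨vE (j + 1) (i - 1), ?_, ?_⟩
    · rw [mem_sdiff]
      refine ⟨?_, he1.2.1⟩
      unfold hB
      rw [vE_mem, mem_box, mem_box]
      simp only
      omega
    · rw [dT_vE]
      congr 1 <;> ring

/-- the probability that the arcs are not joined -/
theorem not_segR_le {N : ℕ} {b₁ b₂ b₃ b₄ : ℤ} {g r : ℕ} (h1 : 1 ≤ b₁) (h12 : b₁ < b₂)
    (hg : b₃ - b₂ = g) (hg1 : 1 ≤ g) (h34 : b₃ < b₄) (h4 : b₄ ≤ 2 * N + 1) (hr : g ≤ r)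
    (hr1 : r ≤ b₂ - b₁) (hr2 : r ≤ b₄ - b₃) (hrN : r ≤ N) :
    perc half (hB N) (fun ω => ¬ SegR (N + 1) b₁ b₂ b₃ b₄ ω) ≤ crH 0 (-1) g r := by
  classical
  set S2 := box ((N:ℤ) + 1) (2 * N + 2) 0 (2 * N + 1) with hS2
  have himg : (edgesIn (hB N)).image dT ⊆ edgesIn S2 := by
    intro e he
    rw [mem_image] at he
    obtain ⟨e', he', rfl⟩ := he
    rcases edgesIn_cases he' with ⟨i, j, rfl⟩ | ⟨i, j, rfl⟩
    · unfold hB at he'
      rw [hE_mem, mem_box, mem_box] at he'
      rw [dT_hE, hE_mem, hS2, mem_box, mem_box]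
      simp only at he' ⊢
      omega
    · unfold hB at he'
      rw [vE_mem, mem_box, mem_box] at he'
      rw [dT_vE, vE_mem, hS2, mem_box, mem_box]
      simp only at he' ⊢
      omega
  set q : ℤ × ℤ := ((N:ℤ) + 1, b₂) with hq
  calc perc half (hB N) (fun ω => ¬ SegR (N + 1) b₁ b₂ b₃ b₄ ω)
      ≤ P (edgesIn (hB N)) (fun ω => CrossC q g r ((edgesIn (hB N) \ ω).image dT)) := by
        rw [Pool.Agent.Helper69.RSW.perc_half_eq]
        apply P_mono
        intro ω hω hn
        have := dual_arm (r := r) h1 h12 (by omega) h34 h4 (by omega) hr1 hr2 (by omega) hω hn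
        rw [hg] at this
        exact this
    _ = P (edgesIn (hB N)) (fun ω => CrossC q g r (ω.image dT)) :=
        (P_flip (edgesIn (hB N)) (fun ω => CrossC q g r (ω.image dT))).symm
    _ = P ((edgesIn (hB N)).image dT) (CrossC q g r) := (P_image _ dT (dT_injOn _) _).symm
    _ = P (edgesIn S2) (fun ω => CrossC q g r (ω ∩ (edgesIn (hB N)).image dT)) := by
        rw [P_restrict himg (fun ω => by rw [inter_assoc, inter_self])]
        exact P_congr (fun ω hω => by rw [inter_eq_left.2 hω])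
    _ ≤ P (edgesIn S2) (fun ω => CrossC q g r (ω ∩ edgesIn (annC S2 q g r))) := by
        apply P_mono
        rintro ω hω ⟨u, z, h5, h6, h7⟩
        have h8 : Joined (ω ∩ edgesIn S2) u z := by
          rw [inter_eq_left.2 hω]
          exact joined_mono inter_subset_left h7
        exact crossC_of_joined (by omega) (by omega) (fun _ => h5.le) (fun _ => h6.ge) h8
    _ = perc half (annC S2 q g r) (CrossC q g r) := by
        rw [← Pool.Agent.Helper69.RSW.perc_half_eq, perc_restrict (annC_sub _ _ _ _)]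
    _ ≤ crH (-1) 0 g r := by
        apply crossC_le
        intro z hz
        rw [hS2, mem_box] at hz
        have : ((N:ℝ) + 1) ≤ z.1 := by exact_mod_cast hz.1
        rw [hq]
        push_cast
        linarith
    _ = crH 0 (-1) g r := crH_transp _ _ _ _

end H47Perc
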