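import Pool.Agent.Helper57.Perc.DualB

/-!
Duality in the half-plane, part 3: lower bound for the probability that two arcs are not joined.
-/

set_option autoImplicit false

namespace H47Perc
open Finset
open Pool.Agent.Helper69.RSW (P P_mono P_map P_restrict P_congr Dep Up harris P_nonneg P_indep
  P_or_le P_le_one P_flip P_compl P_sum P_insert P_true P_false)

lemma P_mem {E : Type*} [DecidableEq E] {F : Finset E} {e : E} (he : e ∈ F) :
    P F (fun S => e ∈ S) = 1 / 2 := by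
  have h1 : F = insert e (F.erase e) := (insert_erase he).symm
  rw [h1, P_insert (notMem_erase e _)]
  have h2 : P (F.erase e) (fun S => e ∈ S) = 0 := by
    rw [← P_false (F.erase e)]
    apply P_congr
    intro S hS
    constructor
    · intro h
      exact notMem_erase e _ (hS h)
    · exact False.elim
  have h3 : P (F.erase e) (fun S => e ∈ insert e S) = 1 := by
    rw [← P_true (F.erase e)]
    apply P_congr
    intro S hS
    simp
  rw [h2, h3]
  norm_num

/-- two extra edges, chosen as a function of the rest of the configuration -/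
lemma quarter {E : Type*} [DecidableEq E] {G F : Finset E} {I J : Finset ℤ} {v : ℤ → E}
    {A : ℤ → ℤ → Finset E → Prop} (hF : F ⊆ G) (hIG : ∀ x ∈ I, v x ∈ G \ F)
    (hJG : ∀ x ∈ J, v x ∈ G \ F) (hv : ∀ x ∈ I, ∀ y ∈ J, v x ≠ v y) (hA : ∀ x y, Dep F (A x y)) :
    1 / 4 * P F (fun S => ∃ x ∈ I, ∃ y ∈ J, A x y S) ≤
      P G (fun S => ∃ x ∈ I, ∃ y ∈ J, A x y S ∧ v x ∈ S ∧ v y ∈ S) := by
  classical
  -- a choice
  set B : Finset E → Prop := fun S => ∃ x ∈ I, ∃ y ∈ J, A x y S with hB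
  have hBdep : Dep F B := by
    intro S
    simp only [hB]
    constructor
    · rintro ⟨x, hx, y, hy, h⟩
      exact ⟨x, hx, y, hy, (hA x y S).1 h⟩
    · rintro ⟨x, hx, y, hy, h⟩
      exact ⟨x, hx, y, hy, (hA x y S).2 h⟩
  have hch : ∀ S : Finset E, ∃ d : ℤ × ℤ, B (S ∩ F) → d.1 ∈ I ∧ d.2 ∈ J ∧ A d.1 d.2 (S ∩ F) := by
    intro S
    by_cases h : B (S ∩ F)
    · obtain ⟨x, hx, y, hy, h'⟩ := h
      exact ⟨(x, y), fun _ => ⟨hx, hy, h'⟩⟩
    · exact ⟨(0, 0), fun h' => absurd h' h⟩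
  choose d0 hd0 using hch
  set d : Finset E → ℤ × ℤ := fun S => d0 (S ∩ F) with hd
  have hdF : ∀ S, d (S ∩ F) = d S := by
    intro S
    simp only [hd, inter_assoc, inter_self]
  have hdB : ∀ S, B S → (d S).1 ∈ I ∧ (d S).2 ∈ J ∧ A (d S).1 (d S).2 S := by
    intro S h
    have h1 := hd0 (S ∩ F)
    rw [inter_assoc, inter_self] at h1
    have h2 := h1 ((hBdep S).1 h)
    exact ⟨h2.1, h2.2.1, (hA _ _ S).2 h2.2.2⟩
  have e1 : P F B = ∑ c ∈ I ×ˢ J, P F (fun S => d S = c ∧ B S) := by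
    apply P_sum
    intro S _ h
    have := hdB S h
    exact mem_product.2 ⟨this.1, this.2.1⟩
  have e2 : P G (fun S => B S ∧ v (d S).1 ∈ S ∧ v (d S).2 ∈ S) =
      ∑ c ∈ I ×ˢ J, P G (fun S => d S = c ∧ (B S ∧ v (d S).1 ∈ S ∧ v (d S).2 ∈ S)) := by
    apply P_sum
    intro S _ h
    have := hdB S h.1
    exact mem_product.2 ⟨this.1, this.2.1⟩
  have e3 : ∀ c ∈ I ×ˢ J, 1 / 4 * P F (fun S => d S = c ∧ B S) =
      P G (fun S => d S = c ∧ (B S ∧ v (d S).1 ∈ S ∧ v (d S).2 ∈ S)) := by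
    intro c hc
    rw [mem_product] at hc
    have hx := mem_sdiff.1 (hIG c.1 hc.1)
    have hy := mem_sdiff.1 (hJG c.2 hc.2)
    have hxy := hv c.1 hc.1 c.2 hc.2
    have g1 : P G (fun S => d S = c ∧ (B S ∧ v (d S).1 ∈ S ∧ v (d S).2 ∈ S)) =
        P G (fun S => (d S = c ∧ B S) ∧ (v c.1 ∈ S ∧ v c.2 ∈ S)) := by
      apply P_congr
      intro S _
      constructor
      · rintro ⟨rfl, h1, h2⟩; exact ⟨⟨rfl, h1⟩, h2⟩
      · rintro ⟨⟨rfl, h1⟩, h2⟩; exact ⟨rfl, h1, h2⟩
    have dep1 : Dep F (fun S => d S = c ∧ B S) := by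
      intro S
      simp only
      rw [hdF S]
      exact and_congr_right (fun _ => hBdep S)
    have dep2 : Dep (G \ F) (fun S => v c.1 ∈ S ∧ v c.2 ∈ S) := by
      intro S
      simp only [mem_inter]
      have := hIG c.1 hc.1
      have := hJG c.2 hc.2
      tauto
    rw [g1, P_indep hF sdiff_subset disjoint_sdiff dep1 dep2, P_restrict hF dep1]
    have g2 : P G (fun S => v c.1 ∈ S ∧ v c.2 ∈ S) = 1 / 2 * (1 / 2) := by
      have dx : Dep {v c.1} (fun S : Finset E => v c.1 ∈ S) := by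
        intro S; simp
      have dy : Dep {v c.2} (fun S : Finset E => v c.2 ∈ S) := by
        intro S; simp
      rw [P_indep (singleton_subset_iff.2 hx.1) (singleton_subset_iff.2 hy.1)
        (by rw [disjoint_singleton]; exact hxy) dx dy, P_mem hx.1, P_mem hy.1]
    rw [g2]
    ring
  calc 1 / 4 * P F (fun S => ∃ x ∈ I, ∃ y ∈ J, A x y S) = 1 / 4 * P F B := rfl
    _ = P G (fun S => B S ∧ v (d S).1 ∈ S ∧ v (d S).2 ∈ S) := by
        rw [e1, mul_sum, e2]
        exact sum_congr rfl e3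
    _ ≤ _ := by
        apply P_mono
        rintro S _ ⟨h1, h2, h3⟩
        have := hdB S h1
        exact ⟨(d S).1, this.1, (d S).2, this.2.1, this.2.2, h2, h3⟩

/-- the probability of the dual separation -/
theorem not_seg_ge {N : ℤ} {a₁ a₂ a₃ a₄ a₅ : ℤ} (hN : -N ≤ a₁) (h12 : a₁ < a₂) (h23 : a₂ < a₃)
    (h34 : a₃ < a₄) (h3 : a₃ ≤ N) (h5 : a₅ ≤ N) :
    1 / 4 * perc half (box (-N) (N - 1) 0 (N - 1)) (Seg (a₂ - 1) (a₃ - 1) (a₄ - 1) a₅) ≤
      perc half (box (-N) N 0 N) (fun ω => ¬ Seg a₁ a₂ a₃ a₄ ω) := by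
  classical
  set E := edgesIn (box (-N) N 0 N) with hE'
  set F := edgesIn (box (-N) (N - 1) 0 (N - 1)) with hF'
  set G := E.image dE with hG
  have hFG : F ⊆ G := by
    intro e he
    rw [hG, mem_image]
    rcases edgesIn_cases he with ⟨i, j, rfl⟩ | ⟨i, j, rfl⟩
    · rw [hF', hE_mem, mem_box, mem_box] at he
      simp only at he
      refine ⟨vE (i + 1) j, ?_, by rw [dE_vE, add_sub_cancel_right]⟩
      rw [hE', vE_mem, mem_box, mem_box]
      simp only
      omega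
    · rw [hF', vE_mem, mem_box, mem_box] at he
      simp only at he
      refine ⟨hE i (j + 1), ?_, by rw [dE_hE, add_sub_cancel_right]⟩
      rw [hE', hE_mem, mem_box, mem_box]
      simp only
      omega
  have hvG : ∀ x : ℤ, -N ≤ x → x < N → vE x (-1) ∈ G \ F := by
    intro x h1 h2
    rw [mem_sdiff]
    constructor
    · rw [hG, mem_image]
      refine ⟨hE x 0, ?_, by rw [dE_hE]; rfl⟩
      rw [hE', hE_mem, mem_box, mem_box]
      simp only
      omega
    · rw [hF', vE_mem, mem_box, mem_box]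
      simp only
      omega
  have key := quarter (G := G) (F := F) (I := Ico a₂ a₃) (J := Ico (a₄ - 1) a₅)
    (v := fun x => vE x (-1)) (A := fun x y S => Joined (S ∩ F) (x, 0) (y, 0)) hFG
    (fun x hx => by rw [mem_Ico] at hx; exact hvG x (by omega) (by omega))
    (fun x hx => by rw [mem_Ico] at hx; exact hvG x (by omega) (by omega))
    (fun x hx y hy => by
      rw [mem_Ico] at hx hy
      intro h
      have := vE_inj h
      omega)
    (fun x y S => by simp only [inter_assoc, inter_self])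
  calc 1 / 4 * perc half (box (-N) (N - 1) 0 (N - 1)) (Seg (a₂ - 1) (a₃ - 1) (a₄ - 1) a₅)
      ≤ 1 / 4 * P F (fun S => ∃ x ∈ Ico a₂ a₃, ∃ y ∈ Ico (a₄ - 1) a₅,
          Joined (S ∩ F) (x, 0) (y, 0)) := by
        apply mul_le_mul_of_nonneg_left _ (by norm_num)
        rw [Pool.Agent.Helper69.RSW.perc_half_eq]
        apply P_mono
        rintro S hS ⟨x, y, x1, x2, y1, y2, h⟩
        refine ⟨x, by rw [mem_Ico]; omega, y, by rw [mem_Ico]; omega, ?_⟩
        rwa [inter_eq_left.2 hS]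
    _ ≤ P G (fun S => ∃ x ∈ Ico a₂ a₃, ∃ y ∈ Ico (a₄ - 1) a₅,
          Joined (S ∩ F) (x, 0) (y, 0) ∧ vE x (-1) ∈ S ∧ vE y (-1) ∈ S) := key
    _ ≤ P G (SepE N a₂ a₃ a₄ a₅) := by
        apply P_mono
        rintro S _ ⟨x, hx, y, hy, h1, h2, h3⟩
        rw [mem_Ico] at hx hy
        exact ⟨x, y, hx, hy, h1, h2, h3⟩
    _ = P E (fun ω => SepE N a₂ a₃ a₄ a₅ (ω.image dE)) := P_image _ dE (dE_injOn _) _
    _ = P E (fun ω => SepE N a₂ a₃ a₄ a₅ ((E \ ω).image dE)) :=
        P_flip E (fun ω => SepE N a₂ a₃ a₄ a₅ (ω.image dE))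
    _ ≤ _ := by
        rw [Pool.Agent.Helper69.RSW.perc_half_eq]
        apply P_mono
        intro ω hω h
        exact not_seg_of_sep hN h12 h23 h34 h5 hω h

/-- the hard direction in the box `[-N,N] × [0,N]` -/
theorem not_seg_le {N : ℕ} {a₁ a₂ a₃ a₄ : ℤ} {g r : ℕ} (h1 : -(N:ℤ) ≤ a₁) (h12 : a₁ < a₂)
    (hg : a₃ - a₂ = g) (hg1 : 1 ≤ g) (h34 : a₃ < a₄) (h4 : a₄ ≤ N) (hr : g ≤ r)
    (hr1 : r ≤ a₂ - a₁) (hr2 : r ≤ a₄ - a₃) :
    perc half (box (-(N:ℤ)) N 0 N) (fun ω => ¬ Seg a₁ a₂ a₃ a₄ ω) ≤ crH 0 (-1) g r := by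
  have key := not_segR_le (N := N) (b₁ := a₁ + (N + 1)) (b₂ := a₂ + (N + 1)) (b₃ := a₃ + (N + 1))
    (b₄ := a₄ + (N + 1)) (g := g) (r := r) (by omega) (by omega) (by omega) hg1 (by omega)
    (by omega) hr (by omega) (by omega) (by omega)
  refine le_trans (le_of_eq ?_) key
  have hbox : hB N = (box (-(N:ℤ)) N 0 N).map (transl ((N:ℤ) + 1, (N:ℤ) + 1)).toEmbedding := by
    rw [box_transl]
    unfold hB
    congr 1 <;> ring
  rw [hbox, perc_half_map (transl_iso _)]
  congr 1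
  funext ω
  apply propext
  apply not_congr
  constructor
  · rintro ⟨x, y, x1, x2, y1, y2, h⟩
    refine ⟨x + (N + 1), y + (N + 1), by omega, by omega, by omega, by omega, ?_⟩
    have := (joined_map (f := transl ((N:ℤ) + 1, (N:ℤ) + 1)) (ω := ω)).2 h
    simpa [transl] using this
  · rintro ⟨x, y, x1, x2, y1, y2, h⟩
    refine ⟨x - (N + 1), y - (N + 1), by omega, by omega, by omega, by omega, ?_⟩
    rw [← joined_map (f := transl ((N:ℤ) + 1, (N:ℤ) + 1))]
    simpa [transl] using h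

/-- reflection -/
lemma seg_refl (N : ℤ) (a₁ a₂ a₃ a₄ : ℤ) :
    perc half (box (-N) N 0 N) (fun ω => ¬ Seg (-a₄) (-a₃) (-a₂) (-a₁) ω) =
      perc half (box (-N) N 0 N) (fun ω => ¬ Seg a₁ a₂ a₃ a₄ ω) := by
  have hbox : (box (-N) N 0 N).map reflX.toEmbedding = box (-N) N 0 N := by
    ext ⟨x, y⟩
    rw [mem_map_equiv, mem_box, mem_box]
    have : reflX.symm (x, y) = (-x, y) := rfl
    rw [this]
    simp only
    omega
  conv_lhs => rw [← hbox, perc_half_map reflX_sym.1]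
  congr 1
  funext ω
  apply propext
  apply not_congr
  constructor
  · rintro ⟨x, y, x1, x2, y1, y2, h⟩
    refine ⟨-y, -x, by omega, by omega, by omega, by omega, ?_⟩
    have := (joined_map (f := reflX) (ω := ω) (u := (-x, 0)) (v := (-y, 0))).1
      (by simpa [reflX] using h)
    exact joined_symm this
  · rintro ⟨x, y, x1, x2, y1, y2, h⟩
    refine ⟨-y, -x, by omega, by omega, by omega, by omega, ?_⟩
    have := (joined_map (f := reflX) (ω := ω)).2 h
    exact joined_symm (by simpa [reflX] using this)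

end H47Perc
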