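import Pool.Agent.Helper57.Perc.AnnQ

/-!
Connections between two arcs of the boundary of the upper half-plane: bounds by the cross ratio.
-/

set_option autoImplicit false

namespace H47Perc
open Finset
open Pool.Agent.Helper69.RSW (P P_mono P_map P_restrict P_congr Dep Up harris P_nonneg P_indep
  P_or_le P_le_one)

/-- a path of open edges from distance `m` to distance `n` around `p` -/
def CrossC (p : ℤ × ℤ) (m n : ℤ) (ω : Finset (Sym2 (ℤ × ℤ))) : Prop :=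
  ∃ u z : ℤ × ℤ, nrm (u - p) = m ∧ nrm (z - p) = n ∧ Joined ω u z

/-- the part of `D` between the distances `m` and `n` around `p` -/
noncomputable def annC (D : Finset (ℤ × ℤ)) (p : ℤ × ℤ) (m n : ℤ) : Finset (ℤ × ℤ) :=
  D.filter (fun z => m ≤ nrm (z - p) ∧ nrm (z - p) ≤ n)

lemma mem_annC {D : Finset (ℤ × ℤ)} {p : ℤ × ℤ} {m n : ℤ} {z : ℤ × ℤ} :
    z ∈ annC D p m n ↔ z ∈ D ∧ m ≤ nrm (z - p) ∧ nrm (z - p) ≤ n := by
  unfold annC
  rw [mem_filter]

lemma annC_sub (D : Finset (ℤ × ℤ)) (p : ℤ × ℤ) (m n : ℤ) : annC D p m n ⊆ D := filter_subset _ _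

lemma crossC_up (p : ℤ × ℤ) (m n : ℤ) : Up (CrossC p m n) := by
  rintro ω ω' h ⟨u, z, h1, h2, h3⟩
  exact ⟨u, z, h1, h2, joined_mono h h3⟩

lemma adj_sub {u v : ℤ × ℤ} (p : ℤ × ℤ) (h : lattice.Adj u v) : lattice.Adj (u - p) (v - p) := by
  unfold lattice at h ⊢
  simp only [Prod.fst_sub, Prod.snd_sub, sub_sub_sub_cancel_right, sub_left_inj]
  exact h

lemma adj_nrm_sub {u v : ℤ × ℤ} (p : ℤ × ℤ) (h : lattice.Adj u v) :
    nrm (u - p) ≤ nrm (v - p) + 1 := adj_nrm (adj_sub p h)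

/-- localization of a crossing in the annulus -/
lemma crossC_of_joined {D : Finset (ℤ × ℤ)} {ω : Finset (Sym2 (ℤ × ℤ))} {p u z : ℤ × ℤ} {m n : ℤ}
    (hm : 0 ≤ m) (hmn : m ≤ n) (hu : m < n → nrm (u - p) ≤ m) (hz : m < n → n ≤ nrm (z - p))
    (h : Joined (ω ∩ edgesIn D) u z) : CrossC p m n (ω ∩ edgesIn (annC D p m n)) := by
  rcases hmn.eq_or_lt with rfl | hlt
  · have e : nrm (p + (m, 0) - p) = m := by
      rw [add_sub_cancel_left]
      unfold nrm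
      simp only [abs_zero, abs_of_nonneg hm]
      exact max_eq_left hm
    exact ⟨p + (m, 0), p + (m, 0), e, e, joined_refl _ _⟩
  have hu := hu hlt
  have hz := hz hlt
  have huD : u ∈ D := by
    apply mem_of_joined_ne inter_subset_right h
    rintro rfl
    omega
  -- first exit from distance `< n`
  obtain ⟨z', hz1, hz2, hz3⟩ : ∃ z', nrm (z' - p) = n ∧ z' ∈ D ∧
      Joined (ω ∩ edgesIn (D.filter (fun w => nrm (w - p) ≤ n))) u z' := by
    have h1 : u ∈ D.filter (fun w => nrm (w - p) ≤ n - 1) := mem_filter.2 ⟨huD, by omega⟩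
    have h2 : z ∉ D.filter (fun w => nrm (w - p) ≤ n - 1) := by
      rw [mem_filter]; rintro ⟨_, h3⟩; omega
    obtain ⟨w, w', w1, w2, w3, w4, w5, w6⟩ := joined_exit inter_subset_right h h1 h2
    rw [mem_filter] at w1 w2
    have h4 := adj_nrm_sub p w4.symm
    have h5 : nrm (w' - p) = n := by
      have : ¬ (nrm (w' - p) ≤ n - 1) := fun hc => w2 ⟨w3, hc⟩
      omega
    refine ⟨w', h5, w3, joined_trans (joined_mono ?_ w6) (joined_edge ?_)⟩
    · intro e he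
      rw [mem_inter, mem_inter] at he
      rw [mem_inter]
      refine ⟨he.1.1, edgesIn_mono ?_ he.2⟩
      intro v hv
      rw [mem_filter] at hv ⊢
      exact ⟨hv.1, by omega⟩
    · rw [mem_inter] at w5 ⊢
      refine ⟨w5.1, ?_⟩
      rw [mem_edgesIn]
      exact ⟨mem_filter.2 ⟨w1.1, by omega⟩, mem_filter.2 ⟨w3, by omega⟩, w4⟩
  -- last exit from distance `≤ m`
  have h1 : z' ∈ D.filter (fun w => m + 1 ≤ nrm (w - p)) := mem_filter.2 ⟨hz2, by omega⟩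
  have h2 : u ∉ D.filter (fun w => m + 1 ≤ nrm (w - p)) := by
    rw [mem_filter]; rintro ⟨_, h3⟩; omega
  obtain ⟨w, w', w1, w2, w3, w4, w5, w6⟩ := joined_exit inter_subset_right (joined_symm hz3) h1 h2
  rw [mem_filter] at w1 w2 w3
  have h4 := adj_nrm_sub p w4
  have h5 : nrm (w' - p) = m := by
    have : ¬ (m + 1 ≤ nrm (w' - p)) := fun hc => w2 ⟨w3.1, hc⟩
    omega
  rw [mem_inter, mem_edgesIn, mem_filter, mem_filter] at w5
  refine ⟨w', z', h5, hz1, joined_trans (v := w) (joined_symm (joined_edge ?_))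
    (joined_symm (joined_mono ?_ w6))⟩
  · rw [mem_inter, mem_edgesIn, mem_annC, mem_annC]
    exact ⟨w5.1, ⟨w1.1, by omega, w5.2.1.2⟩, ⟨w3.1, by omega, w3.2⟩, w4⟩
  · intro e he
    rw [mem_inter, mem_inter] at he
    rw [mem_inter]
    refine ⟨he.1.1, ?_⟩
    have g1 := he.1.2
    have g2 := he.2
    induction e using Sym2.ind with
    | _ a b =>
      rw [mem_edgesIn, mem_filter, mem_filter] at g1 g2
      rw [mem_edgesIn, mem_annC, mem_annC]
      exact ⟨⟨g1.1.1, by omega, g1.1.2⟩, ⟨g1.2.1.1, by omega, g1.2.1.2⟩, g1.2.2⟩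

lemma crH_transl (a b : ℝ) (m n : ℕ) (p : ℤ × ℤ) :
    perc half ((halfAnn a b m n).map (transl p).toEmbedding) (CrossC p m n) = crH a b m n := by
  rw [perc_half_map (transl_iso p)]
  unfold crH
  congr 1
  funext ω
  apply propext
  constructor
  · rintro ⟨u, z, h1, h2, h3⟩
    refine ⟨u - p, z - p, h1, h2, ?_⟩
    rw [← joined_map (f := transl p)]
    simpa [transl] using h3
  · rintro ⟨u, z, h1, h2, h3⟩
    refine ⟨u + p, z + p, by simpa using h1, by simpa using h2, ?_⟩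
    exact joined_map (f := transl p).2 h3

lemma mem_halfAnn_transl {a b : ℝ} {m n : ℤ} {p z : ℤ × ℤ} :
    z ∈ (halfAnn a b m n).map (transl p).toEmbedding ↔
      (m ≤ nrm (z - p) ∧ nrm (z - p) ≤ n) ∧ a * (z.1 - p.1 : ℝ) + b * (z.2 - p.2 : ℝ) ≤ 0 := by
  rw [mem_map_equiv, mem_halfAnn]
  have e1 : (transl p).symm z = z - p := by
    simp [transl, sub_eq_add_neg]
  rw [e1]
  simp only [Prod.fst_sub, Prod.snd_sub, Int.cast_sub]

/-- the crossing probability of a part of a half annulus -/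
lemma crossC_le {a b : ℝ} {D : Finset (ℤ × ℤ)} {p : ℤ × ℤ} (m n : ℕ)
    (hD : ∀ z ∈ D, a * (z.1 - p.1 : ℝ) + b * (z.2 - p.2 : ℝ) ≤ 0) :
    perc half (annC D p m n) (CrossC p m n) ≤ crH a b m n := by
  rw [← crH_transl a b m n p]
  have hs : annC D p m n ⊆ (halfAnn a b m n).map (transl p).toEmbedding := by
    intro z hz
    rw [mem_annC] at hz
    rw [mem_halfAnn_transl]
    exact ⟨hz.2, hD z hz.1⟩
  rw [← perc_restrict hs]
  exact perc_half_mono (fun ω _ h => crossC_up _ _ _ _ _ inter_subset_left h)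

/-- the crossing probability in a domain that contains a half annulus -/
lemma crossC_ge {a b : ℝ} {D : Finset (ℤ × ℤ)} {p : ℤ × ℤ} (m n : ℕ)
    (hD : ∀ z : ℤ × ℤ, nrm (z - p) ≤ n → a * (z.1 - p.1 : ℝ) + b * (z.2 - p.2 : ℝ) ≤ 0 → z ∈ D) :
    crH a b m n ≤ perc half D (CrossC p m n) := by
  rw [← crH_transl a b m n p]
  have hs : (halfAnn a b m n).map (transl p).toEmbedding ⊆ D := by
    intro z hz
    rw [mem_halfAnn_transl] at hz
    exact hD z hz.1.2 hz.2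
  rw [← perc_restrict hs]
  exact perc_half_mono (fun ω _ h => crossC_up _ _ _ _ _ inter_subset_left h)

/-- **Flat half circuit.** -/
lemma barrier_flat {D : Finset (ℤ × ℤ)} {x0 m : ℤ} (hm : 1 ≤ m) (hD0 : ∀ z ∈ D, 0 ≤ z.2)
    (hQD : box (x0 - 2 * m) (x0 + 2 * m) 0 (2 * m) ⊆ D) {ω : Finset (Sym2 (ℤ × ℤ))}
    (hL : BT (x0 - 2 * m) (x0 - m) 0 (2 * m)
      (ω ∩ edgesIn (box (x0 - 2 * m) (x0 - m) 0 (2 * m))))
    (hR : BT (x0 + m) (x0 + 2 * m) 0 (2 * m)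
      (ω ∩ edgesIn (box (x0 + m) (x0 + 2 * m) 0 (2 * m))))
    (hT : LR (x0 - 2 * m) (x0 + 2 * m) m (2 * m)
      (ω ∩ edgesIn (box (x0 - 2 * m) (x0 + 2 * m) m (2 * m)))) :
    ∃ (κ : ℤ × ℤ) (xa xc : ℤ), (x0 - 2 * m ≤ xa ∧ xa ≤ x0 - m) ∧
      (x0 + m ≤ xc ∧ xc ≤ x0 + 2 * m) ∧ Joined (ω ∩ edgesIn D) κ (xa, 0) ∧
      Joined (ω ∩ edgesIn D) κ (xc, 0) ∧
      ∀ u z : ℤ × ℤ, nrm (u - (x0, 0)) ≤ m → 2 * m ≤ nrm (z - (x0, 0)) →
        Joined (ω ∩ edgesIn D) u z → Joined (ω ∩ edgesIn D) κ u := by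
  classical
  obtain ⟨ya, yb, l1, l2, l3, l4, hT⟩ := hT
  obtain ⟨xa, xb, i1, i2, i3, i4, hL⟩ := hL
  obtain ⟨xc, xd, j1, j2, j3, j4, hR⟩ := hR
  set Q := box (x0 - 2 * m) (x0 + 2 * m) 0 (2 * m) with hQ
  have sL : box (x0 - 2 * m) (x0 - m) 0 (2 * m) ⊆ D :=
    (box_mono le_rfl (by omega) le_rfl le_rfl).trans hQD
  have sR : box (x0 + m) (x0 + 2 * m) 0 (2 * m) ⊆ D :=
    (box_mono (by omega) le_rfl le_rfl le_rfl).trans hQD
  have sT : box (x0 - 2 * m) (x0 + 2 * m) m (2 * m) ⊆ D :=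
    (box_mono le_rfl le_rfl (by omega) le_rfl).trans hQD
  have hκ : ((x0 - 2 * m, ya) : ℤ × ℤ) ∈ box (x0 - 2 * m) (x0 + 2 * m) m (2 * m) := by
    rw [mem_box]; simp only; omega
  have hLs : ((xa, 0) : ℤ × ℤ) ∈ box (x0 - 2 * m) (x0 - m) 0 (2 * m) := by
    rw [mem_box]; simp only; omega
  have hRs : ((xc, 0) : ℤ × ℤ) ∈ box (x0 + m) (x0 + 2 * m) 0 (2 * m) := by
    rw [mem_box]; simp only; omega
  have hDL : ∀ w ∈ box (x0 - 2 * m) (x0 - m) 0 (2 * m), w ∉ D → ∀ w' : ℤ × ℤ, w.2 ≤ w'.2 →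
      w'.2 ≤ 2 * m → w'.1 = w.1 → w' ∉ D := fun w hw h1 => absurd (sL hw) h1
  have hDR : ∀ w ∈ box (x0 + m) (x0 + 2 * m) 0 (2 * m), w ∉ D → ∀ w' : ℤ × ℤ, w.2 ≤ w'.2 →
      w'.2 ≤ 2 * m → w'.1 = w.1 → w' ∉ D := fun w hw h1 => absurd (sR hw) h1
  have c1 : Joined (ω ∩ edgesIn D) (xa, 0) (x0 - 2 * m, ya) :=
    vcross (D := D) hDL hL (sL hLs) hLs (by omega) sT hT hκ
      (fun w hw => by rw [mem_box] at hw; omega) (by simp only; omega) (by simp only; omega)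
  have c2 : Joined (ω ∩ edgesIn D) (xc, 0) (x0 - 2 * m, ya) :=
    vcross (D := D) hDR hR (sR hRs) hRs (by omega) sT hT hκ
      (fun w hw => by rw [mem_box] at hw; omega) (by simp only; omega) (by simp only; omega)
  refine ⟨(x0 - 2 * m, ya), xa, xc, ⟨i1, i2⟩, ⟨j1, j2⟩, joined_symm c1, joined_symm c2,
    fun u z hu hz hj => ?_⟩
  have huD : u ∈ D := by
    apply mem_of_joined_ne inter_subset_right hj
    rintro rfl
    omega
  rw [nrm_le] at hu
  simp only [Prod.fst_sub, Prod.snd_sub, sub_zero, abs_le] at hu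
  have huQ : u ∈ Q := by
    have := hD0 u huD
    rw [hQ, mem_box]
    omega
  have huI : u ∈ Q ∩ D := mem_inter.2 ⟨huQ, huD⟩
  obtain ⟨w, hw1, hw2⟩ : ∃ w : ℤ × ℤ, Joined (ω ∩ edgesIn (Q ∩ D)) u w ∧
      (w.1 = x0 - 2 * m ∨ w.1 = x0 + 2 * m ∨ w.2 = 2 * m) := by
    rcases joined_trunc (D := Q) hj huQ with h1 | ⟨w, w', h1, h2, h3, h4⟩
    · have hzI := mem_inter.1 (mem_of_joined inter_subset_right h1 huI)
      have hzQ := hzI.1
      rw [hQ, mem_box] at hzQ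
      refine ⟨z, h1, ?_⟩
      rw [le_nrm] at hz
      simp only [Prod.fst_sub, Prod.snd_sub, sub_zero] at hz
      rcases abs_cases (z.1 - x0) with h5 | h5 <;> rcases abs_cases z.2 with h6 | h6 <;> omega
    · have hwI := mem_inter.1 (mem_of_joined inter_subset_right h4 huI)
      have hwQ := hwI.1
      have h0 := hD0 w' h2
      rw [hQ, mem_box] at hwQ h1
      refine ⟨w, h4, ?_⟩
      rcases adj_cases h3 with h | h | h | h <;> rw [h] at h1 h0 <;> dsimp only at h1 h0 <;> omega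
  have hwI : w ∈ Q ∩ D := mem_of_joined inter_subset_right hw1 huI
  have hjD : Joined (ω ∩ edgesIn D) u w :=
    joined_mono (inter_subset_inter_left (edgesIn_mono inter_subset_right)) hw1
  have hrows : ∀ v ∈ Q ∩ D, 0 ≤ v.2 ∧ v.2 ≤ 2 * m := by
    intro v hv
    have := (mem_inter.1 hv).1
    rw [hQ, mem_box] at this
    omega
  have hcols : ∀ v ∈ Q ∩ D, x0 - 2 * m ≤ v.1 ∧ v.1 ≤ x0 + 2 * m := by
    intro v hv
    have := (mem_inter.1 hv).1
    rw [hQ, mem_box] at this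
    omega
  rcases hw2 with h | h | h
  · have d1 := vcross (D := D) hDL hL (sL hLs) hLs (by omega)
      (T := Q ∩ D) inter_subset_right (joined_symm hw1) hwI hrows (by omega) (by omega)
    exact joined_trans (joined_symm c1) (joined_trans d1 (joined_symm hjD))
  · have d1 := vcross (D := D) hDR hR (sR hRs) hRs (by omega)
      (T := Q ∩ D) inter_subset_right hw1 huI hrows (by omega) (by omega)
    exact joined_trans (joined_symm c2) d1
  · have d1 := hcross (D := D) (fun v hv hv' => absurd (sT hv) hv') hT (sT hκ) hκ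
      (T := Q ∩ D) inter_subset_right (joined_symm hw1) hwI hcols (by omega) (by omega) (by omega)
    exact joined_trans d1 (joined_symm hjD)

/-- the event of the flat half circuit -/
def Circ (x0 m : ℤ) (ω : Finset (Sym2 (ℤ × ℤ))) : Prop :=
  (BT (x0 - 2 * m) (x0 - m) 0 (2 * m) (ω ∩ edgesIn (box (x0 - 2 * m) (x0 - m) 0 (2 * m))) ∧
    BT (x0 + m) (x0 + 2 * m) 0 (2 * m) (ω ∩ edgesIn (box (x0 + m) (x0 + 2 * m) 0 (2 * m)))) ∧
  LR (x0 - 2 * m) (x0 + 2 * m) m (2 * m)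
    (ω ∩ edgesIn (box (x0 - 2 * m) (x0 + 2 * m) m (2 * m)))

lemma circ_up (x0 m : ℤ) : Up (Circ x0 m) :=
  ((up_inter (up_BT _ _ _ _) _).and (up_inter (up_BT _ _ _ _) _)).and (up_inter (up_LR _ _ _ _) _)

lemma circ_ge {D : Finset (ℤ × ℤ)} {x0 : ℤ} {m : ℕ} (hm : 1 ≤ m)
    (hQD : box (x0 - 2 * m) (x0 + 2 * m) 0 (2 * m) ⊆ D) {c : ℝ} (hc : 0 < c)
    (hRSW : ∀ n : ℕ, 1 ≤ n → c ≤ pLR (6 * n) n) : c ^ 3 ≤ perc half D (Circ x0 m) := by
  have sL : box (x0 - 2 * m) (x0 - m) 0 (2 * m) ⊆ D :=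
    (box_mono le_rfl (by omega) le_rfl le_rfl).trans hQD
  have sR : box (x0 + m) (x0 + 2 * m) 0 (2 * m) ⊆ D :=
    (box_mono (by omega) le_rfl le_rfl le_rfl).trans hQD
  have sT : box (x0 - 2 * m) (x0 + 2 * m) m (2 * m) ⊆ D :=
    (box_mono le_rfl le_rfl (by omega) le_rfl).trans hQD
  have pL : c ≤ perc half D (fun ω => BT (x0 - 2 * m) (x0 - m) 0 (2 * m)
      (ω ∩ edgesIn (box (x0 - 2 * m) (x0 - m) 0 (2 * m)))) := by
    rw [perc_restrict sL, perc_BT, show (2 * (m:ℤ) - 0) = 2 * m by ring,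
      show (x0 - (m:ℤ) - (x0 - 2 * m)) = m by ring]
    exact (hRSW m hm).trans (pLR_anti (by omega) (by omega) _)
  have pR : c ≤ perc half D (fun ω => BT (x0 + m) (x0 + 2 * m) 0 (2 * m)
      (ω ∩ edgesIn (box (x0 + m) (x0 + 2 * m) 0 (2 * m)))) := by
    rw [perc_restrict sR, perc_BT, show (2 * (m:ℤ) - 0) = 2 * m by ring,
      show (x0 + 2 * (m:ℤ) - (x0 + m)) = m by ring]
    exact (hRSW m hm).trans (pLR_anti (by omega) (by omega) _)
  have pT : c ≤ perc half D (fun ω => LR (x0 - 2 * m) (x0 + 2 * m) m (2 * m)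
      (ω ∩ edgesIn (box (x0 - 2 * m) (x0 + 2 * m) m (2 * m)))) := by
    rw [perc_restrict sT, perc_LR, show (x0 + 2 * (m:ℤ) - (x0 - 2 * m)) = 4 * m by ring,
      show (2 * (m:ℤ) - m) = m by ring]
    exact (hRSW m hm).trans (pLR_anti (by omega) (by omega) _)
  have uL := up_inter (up_BT (x0 - 2 * m) (x0 - m) 0 (2 * m))
    (edgesIn (box (x0 - 2 * m) (x0 - m) 0 (2 * m)))
  have uR := up_inter (up_BT (x0 + m) (x0 + 2 * m) 0 (2 * m))
    (edgesIn (box (x0 + m) (x0 + 2 * m) 0 (2 * m)))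
  have uT := up_inter (up_LR (x0 - 2 * m) (x0 + 2 * m) m (2 * m))
    (edgesIn (box (x0 - 2 * m) (x0 + 2 * m) m (2 * m)))
  have h1 := perc_harris D uL uR
  have h2 := perc_harris D (uL.and uR) uT
  have s1 : c * c ≤ _ := (mul_le_mul pL pR hc.le (perc_half_nonneg _ _)).trans h1
  have s2 : c * c * c ≤ _ := (mul_le_mul s1 pT hc.le (perc_half_nonneg _ _)).trans h2
  calc c ^ 3 = c * c * c := by ring
    _ ≤ _ := s2

end H47Perc
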