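import Pool.Agent.Helper57.Perc.AnnDefs

/-!
Connections between two arcs of the boundary of the upper half-plane, and the cross ratio: the
definitions used in the statements.
-/

namespace H47Perc

/-- the arcs `(a₁,a₂]` and `[a₃,a₄)` of the line `y = 0` are joined by a path of open edges -/
def Seg (a₁ a₂ a₃ a₄ : ℤ) (ω : Finset (Sym2 (ℤ × ℤ))) : Prop :=
  ∃ x y : ℤ, a₁ < x ∧ x ≤ a₂ ∧ a₃ ≤ y ∧ y < a₄ ∧ Joined ω (x, 0) (y, 0)

/-- the cross ratio of four points of the boundary of the half-plane -/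
noncomputable def lam (a₁ a₂ a₃ a₄ : ℝ) : ℝ := ((a₂ - a₁) * (a₄ - a₃)) / ((a₃ - a₁) * (a₄ - a₂))

end H47Perc
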