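import Pool.Agent.Helper57.Perc.Flat
import Pool.Agent.Helper57.Perc.SegDefs

/-!
The crossing probability between two arcs of the boundary of the half-plane is of the order of the
cross ratio to the power `1/3`.
-/

set_option autoImplicit false

namespace H47Perc
open Finset
open Pool.Agent.Helper69.RSW (P P_mono P_map P_restrict P_congr Dep Up harris P_nonneg P_indep
  P_or_le P_le_one)

lemma nrm_row (x y : ℤ) : nrm ((x, 0) - (y, 0)) = |x - y| := by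
  unfold nrm
  simp only [Prod.fst_sub, Prod.snd_sub, sub_self, abs_zero]
  exact max_eq_left (abs_nonneg _)

lemma nrm_sub_le (z p q : ℤ × ℤ) : nrm (z - q) ≤ nrm (z - p) + nrm (q - p) := by
  rw [nrm_le]
  have h1 : |(z - p).1| ≤ nrm (z - p) ∧ |(z - p).2| ≤ nrm (z - p) := nrm_le.1 le_rfl
  have h2 : |(q - p).1| ≤ nrm (q - p) ∧ |(q - p).2| ≤ nrm (q - p) := nrm_le.1 le_rfl
  simp only [Prod.fst_sub, Prod.snd_sub] at h1 h2 ⊢
  rw [abs_le, abs_le] at *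
  omega

/-- two disjoint annuli: product bound -/
lemma two_cross {D : Finset (ℤ × ℤ)} {p q : ℤ × ℤ} {m₁ m₂ k : ℤ} {A : Finset (Sym2 (ℤ × ℤ)) → Prop}
    (hpq : 2 * k < nrm (q - p))
    (hA : ∀ ω ⊆ edgesIn D, A ω → CrossC p m₁ k (ω ∩ edgesIn (annC D p m₁ k)) ∧
      CrossC q m₂ k (ω ∩ edgesIn (annC D q m₂ k))) :
    perc half D A ≤ perc half (annC D p m₁ k) (CrossC p m₁ k) *
      perc half (annC D q m₂ k) (CrossC q m₂ k) := by
  classical
  have hd : Disjoint (annC D p m₁ k) (annC D q m₂ k) := by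
    rw [disjoint_left]
    intro z h1 h2
    rw [mem_annC] at h1 h2
    have h3 := nrm_sub_le (p := p) (q := q) z
    have h4 := nrm_sub_le q z p
    have h5 : nrm (p - z) = nrm (z - p) := by
      unfold nrm
      rw [Prod.fst_sub, Prod.snd_sub, Prod.fst_sub, Prod.snd_sub, abs_sub_comm p.1,
        abs_sub_comm p.2]
    have h6 : nrm (q - z) = nrm (z - q) := by
      unfold nrm
      rw [Prod.fst_sub, Prod.snd_sub, Prod.fst_sub, Prod.snd_sub, abs_sub_comm q.1,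
        abs_sub_comm q.2]
    omega
  have hdep : ∀ (r : ℤ × ℤ) (m : ℤ), Dep (edgesIn (annC D r m k))
      (fun ω => CrossC r m k (ω ∩ edgesIn (annC D r m k))) := by
    intro r m ω
    simp only [inter_assoc, inter_self]
  calc perc half D A ≤ perc half D (fun ω => CrossC p m₁ k (ω ∩ edgesIn (annC D p m₁ k)) ∧
      CrossC q m₂ k (ω ∩ edgesIn (annC D q m₂ k))) := perc_half_mono hA
    _ = perc half D (fun ω => CrossC p m₁ k (ω ∩ edgesIn (annC D p m₁ k))) *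
        perc half D (fun ω => CrossC q m₂ k (ω ∩ edgesIn (annC D q m₂ k))) := by
        rw [Pool.Agent.Helper69.RSW.perc_half_eq, Pool.Agent.Helper69.RSW.perc_half_eq,
          Pool.Agent.Helper69.RSW.perc_half_eq]
        exact P_indep (edgesIn_mono (annC_sub _ _ _ _)) (edgesIn_mono (annC_sub _ _ _ _))
          (edgesIn_disjoint hd) (hdep p m₁) (hdep q m₂)
    _ = _ := by rw [perc_restrict (annC_sub _ _ _ _), perc_restrict (annC_sub _ _ _ _)]

/-- one factor of the upper bound -/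
lemma factor_upper {K : ℝ} (hK1 : 1 ≤ K)
    (hK : ∀ m n : ℕ, 1 ≤ m → m ≤ n → crH 0 (-1) m n ≤ K * ((m:ℝ) / n) ^ (1 / 3 : ℝ))
    {l g k : ℕ} (hl : 1 ≤ l) (hk : 1 ≤ k) (hg : g ≤ 2 * k + 2) :
    crH 0 (-1) (min l k) k ≤ K * (5 * ((l:ℝ) / (l + g))) ^ (1 / 3 : ℝ) := by
  have hl0 : (0:ℝ) < l := by exact_mod_cast hl
  have hk0 : (0:ℝ) < k := by exact_mod_cast hk
  refine (hK (min l k) k (by omega) (min_le_right _ _)).trans ?_
  apply mul_le_mul_of_nonneg_left _ (by linarith)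
  apply Real.rpow_le_rpow (by positivity) _ (by norm_num)
  rw [mul_div_assoc', div_le_div_iff₀ hk0 (by positivity)]
  have h1 : (min l k : ℕ) * (l + g) ≤ 5 * l * k := by
    rcases le_total l k with h | h
    · rw [min_eq_left h]
      nlinarith
    · rw [min_eq_right h]
      nlinarith
  exact_mod_cast h1

theorem seg_upper {K : ℝ} (hK1 : 1 ≤ K)
    (hK : ∀ m n : ℕ, 1 ≤ m → m ≤ n → crH 0 (-1) m n ≤ K * ((m:ℝ) / n) ^ (1 / 3 : ℝ))
    {D : Finset (ℤ × ℤ)} (hD : ∀ z ∈ D, 0 ≤ z.2) {a₁ : ℤ} {l₁ g l₂ : ℕ} (h1 : 1 ≤ l₁) (hg : 1 ≤ g)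
    (h2 : 1 ≤ l₂) :
    perc half D (Seg a₁ (a₁ + l₁) (a₁ + l₁ + g) (a₁ + l₁ + g + l₂)) ≤
      (K * (5 * ((l₁:ℝ) / (l₁ + g))) ^ (1 / 3 : ℝ)) *
      (K * (5 * ((l₂:ℝ) / (l₂ + g))) ^ (1 / 3 : ℝ)) := by
  have hK0 : 0 < K := by linarith
  rcases Nat.lt_or_ge g 3 with hg3 | hg3
  · -- small gap
    refine (perc_half_le_one _ _).trans ?_
    have key : ∀ l : ℕ, 1 ≤ l → 1 ≤ K * (5 * ((l:ℝ) / (l + g))) ^ (1 / 3 : ℝ) := by
      intro l hl
      have hl0 : (1:ℝ) ≤ l := by exact_mod_cast hl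
      have hg0 : (g:ℝ) ≤ 2 := by
        have : g ≤ 2 := by omega
        exact_mod_cast this
      have h3 : 1 ≤ (5 * ((l:ℝ) / (l + g))) ^ (1 / 3 : ℝ) := by
        apply Real.one_le_rpow _ (by norm_num)
        rw [mul_div_assoc', le_div_iff₀ (by positivity)]
        linarith
      nlinarith
    have e1 := key l₁ h1
    have e2 := key l₂ h2
    nlinarith
  · set k := (g - 1) / 2 with hk
    have hk1 : 1 ≤ k := by omega
    set p : ℤ × ℤ := (a₁ + l₁, 0) with hp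
    set q : ℤ × ℤ := (a₁ + l₁ + g, 0) with hq
    have hpq : nrm (q - p) = g := by
      rw [hp, hq, nrm_row]
      rw [show a₁ + (l₁:ℤ) + g - (a₁ + l₁) = g by ring]
      exact abs_of_nonneg (by omega)
    have e1 := two_cross (D := D) (p := p) (q := q) (m₁ := (min l₁ k : ℕ)) (m₂ := (min l₂ k : ℕ))
      (k := k) (A := Seg a₁ (a₁ + l₁) (a₁ + l₁ + g) (a₁ + l₁ + g + l₂)) (by rw [hpq]; omega) (by
        rintro ω hω ⟨x, y, x1, x2, y1, y2, hj⟩
        have hj' : Joined (ω ∩ edgesIn D) (x, 0) (y, 0) := by rwa [inter_eq_left.2 hω]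
        constructor
        · apply crossC_of_joined (by omega) (by omega) _ _ hj'
          · intro h
            rw [hp, nrm_row, abs_le]
            omega
          · intro h
            rw [hp, nrm_row, abs_of_nonneg (by omega)]
            omega
        · apply crossC_of_joined (by omega) (by omega) _ _ (joined_symm hj')
          · intro h
            rw [hq, nrm_row, abs_le]
            omega
          · intro h
            rw [hq, nrm_row, abs_sub_comm, abs_of_nonneg (by omega)]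
            omega)
    refine e1.trans (mul_le_mul ?_ ?_ (perc_half_nonneg _ _) (by positivity))
    · refine (crossC_le (a := 0) (b := -1) (min l₁ k) k (fun z hz => ?_)).trans
        (factor_upper hK1 hK h1 hk1 (by omega))
      have : (0:ℝ) ≤ z.2 := by exact_mod_cast hD z hz
      rw [hp]
      simp only [Int.cast_zero]
      linarith
    · refine (crossC_le (a := 0) (b := -1) (min l₂ k) k (fun z hz => ?_)).trans
        (factor_upper hK1 hK h2 hk1 (by omega))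
      have : (0:ℝ) ≤ z.2 := by exact_mod_cast hD z hz
      rw [hq]
      simp only [Int.cast_zero]
      linarith

/-! ### lower bound -/

/-- an arc is joined to distance `n` -/
def Far (I : ℤ → Prop) (p : ℤ × ℤ) (n : ℤ) (ω : Finset (Sym2 (ℤ × ℤ))) : Prop :=
  ∃ (x : ℤ) (z : ℤ × ℤ), I x ∧ n ≤ nrm (z - p) ∧ Joined ω (x, 0) z

lemma far_up (I : ℤ → Prop) (p : ℤ × ℤ) (n : ℤ) : Up (Far I p n) := by
  rintro ω ω' h ⟨x, z, h1, h2, h3⟩
  exact ⟨x, z, h1, h2, joined_mono h h3⟩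

lemma far_ge {D : Finset (ℤ × ℤ)} {x0 : ℤ} {m n : ℕ} (hmn : 2 * m ≤ n) (hn : 1 ≤ n)
    (hD0 : ∀ z ∈ D, 0 ≤ z.2) (hD : ∀ z : ℤ × ℤ, nrm (z - (x0, 0)) ≤ n → 0 ≤ z.2 → z ∈ D)
    {c : ℝ} (hc : 0 < c) (hRSW : ∀ n : ℕ, 1 ≤ n → c ≤ pLR (6 * n) n) {I : ℤ → Prop} (hI0 : I x0)
    (hI : (∀ x, x0 - 2 * m ≤ x → x ≤ x0 - m → I x) ∨ (∀ x, x0 + m ≤ x → x ≤ x0 + 2 * m → I x)) :
    c ^ 3 * crH 0 (-1) m n ≤ perc half D (Far I (x0, 0) n) := by
  have hc1 : c ≤ 1 := (hRSW 1 le_rfl).trans (perc_half_le_one _ _)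
  have hc3 : c ^ 3 ≤ 1 := pow_le_one₀ hc.le hc1
  have e1 : crH 0 (-1) m n ≤ perc half D (CrossC (x0, 0) m n) := by
    apply crossC_ge
    intro z hz h
    apply hD z hz
    simp only [Int.cast_zero] at h
    have : (0:ℝ) ≤ z.2 := by linarith
    exact_mod_cast this
  rcases Nat.eq_zero_or_pos m with hm | hm
  · subst hm
    refine (mul_le_of_le_one_left (crH_nonneg _ _ _ _) hc3).trans (e1.trans ?_)
    apply perc_half_mono
    rintro ω _ ⟨u, z, h1, h2, h3⟩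
    have hu : u = (x0, 0) := by
      have h4 : nrm (u - (x0, 0)) ≤ 0 := by rw [h1]; simp
      rw [nrm_le] at h4
      simp only [Prod.fst_sub, Prod.snd_sub, sub_zero, abs_nonpos_iff, sub_eq_zero] at h4
      obtain ⟨u1, u2⟩ := u
      simp only at h4
      rw [h4.1, h4.2]
    subst hu
    exact ⟨x0, z, hI0, h2.ge, h3⟩
  · have hQ : box (x0 - 2 * m) (x0 + 2 * m) 0 (2 * m) ⊆ D := by
      intro z hz
      rw [mem_box] at hz
      apply hD z _ hz.2.2.1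
      rw [nrm_le]
      simp only [Prod.fst_sub, Prod.snd_sub, sub_zero, abs_le]
      omega
    have e2 := circ_ge hm hQ hc hRSW
    have e3 := perc_harris D (circ_up x0 m) (crossC_up (x0, 0) m n)
    calc c ^ 3 * crH 0 (-1) m n ≤ perc half D (Circ x0 m) * perc half D (CrossC (x0, 0) m n) :=
          mul_le_mul e2 e1 (crH_nonneg _ _ _ _) (perc_half_nonneg _ _)
      _ ≤ _ := e3
      _ ≤ _ := by
          apply perc_half_mono
          rintro ω hω ⟨⟨⟨g1, g2⟩, g3⟩, ⟨u, z, h1, h2, h3⟩⟩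
          have h3' : Joined (ω ∩ edgesIn D) u z := by rwa [inter_eq_left.2 hω]
          obtain ⟨κ, xa, xc, i1, i2, i3, i4, i5⟩ := barrier_flat (D := D) (x0 := x0) (m := m)
            (by omega) hD0 hQ g1 g2 g3
          have h4 := i5 u z h1.le (by omega) h3'
          rw [inter_eq_left.2 hω] at i3 i4 h4
          rcases hI with hI | hI
          · exact ⟨xa, z, hI xa i1.1 i1.2, h2.ge, joined_trans (joined_symm i3)
              (joined_trans h4 h3)⟩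
          · exact ⟨xc, z, hI xc i2.1 i2.2, h2.ge, joined_trans (joined_symm i4)
              (joined_trans h4 h3)⟩

/-- gluing two arcs -/
lemma seg_glue {D : Finset (ℤ × ℤ)} {a₁ a₂ a₃ a₄ : ℤ} {M : ℕ} (hM : 1 ≤ M) {n₁ n₂ : ℤ}
    (hD0 : ∀ z ∈ D, 0 ≤ z.2) (hQ : box (a₂ - 2 * M) (a₂ + 2 * M) 0 (2 * M) ⊆ D)
    (h1 : a₂ - M ≤ a₁) (h2 : a₂ ≤ a₃) (h3 : a₄ ≤ a₂ + M) (hn₁ : 2 * M ≤ n₁)
    (hn₂ : 2 * M + (a₃ - a₂) ≤ n₂)
    {c : ℝ} (hc : 0 < c) (hRSW : ∀ n : ℕ, 1 ≤ n → c ≤ pLR (6 * n) n) :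
    c ^ 3 * (perc half D (Far (fun x => a₁ < x ∧ x ≤ a₂) (a₂, 0) n₁) *
      perc half D (Far (fun x => a₃ ≤ x ∧ x < a₄) (a₃, 0) n₂)) ≤
      perc half D (Seg a₁ a₂ a₃ a₄) := by
  have e2 := circ_ge hM hQ hc hRSW
  have e3 := perc_harris D (far_up (fun x => a₁ < x ∧ x ≤ a₂) (a₂, 0) n₁)
    (far_up (fun x => a₃ ≤ x ∧ x < a₄) (a₃, 0) n₂)
  have e4 := perc_harris D (circ_up a₂ M) ((far_up (fun x => a₁ < x ∧ x ≤ a₂) (a₂, 0) n₁).and
    (far_up (fun x => a₃ ≤ x ∧ x < a₄) (a₃, 0) n₂))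
  refine (mul_le_mul e2 e3 (mul_nonneg (perc_half_nonneg _ _) (perc_half_nonneg _ _))
    (perc_half_nonneg _ _)).trans (e4.trans ?_)
  apply perc_half_mono
  rintro ω hω ⟨⟨⟨g1, g2⟩, g3⟩, ⟨x, z, x1, x2, x3⟩, ⟨y, w, y1, y2, y3⟩⟩
  obtain ⟨κ, xa, xc, i1, i2, i3, i4, i5⟩ := barrier_flat (D := D) (x0 := a₂) (m := M)
    (by omega) hD0 hQ g1 g2 g3
  have k1 := i5 (x, 0) z (by rw [nrm_row, abs_le]; omega) (by omega)
    (by rwa [inter_eq_left.2 hω])
  have h5 := nrm_sub_le w (a₂, 0) (a₃, 0)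
  rw [nrm_row, abs_of_nonneg (by omega)] at h5
  have k2 := i5 (y, 0) w (by rw [nrm_row, abs_le]; omega) (by omega)
    (by rwa [inter_eq_left.2 hω])
  rw [inter_eq_left.2 hω] at k1 k2
  exact ⟨x, y, x1.1, x1.2, y1.1, y1.2, joined_trans (joined_symm k1) k2⟩

/-- one factor of the lower bound -/
lemma factor_lower {k : ℝ} (hk : 0 ≤ k)
    (hK : ∀ m n : ℕ, m < n → k * (((m:ℝ) + 1) / n) ^ (1 / 3 : ℝ) ≤ crH 0 (-1) m n)
    {l g n : ℕ} (hl : 1 ≤ l) (hg : 1 ≤ g) (hn : n ≤ 5 * g) (hgn : g ≤ n) :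
    k / 10 * ((l:ℝ) / (l + g)) ^ (1 / 3 : ℝ) ≤ crH 0 (-1) ((min l g - 1) / 2) n := by
  have hl0 : (0:ℝ) < l := by exact_mod_cast hl
  have hg0 : (0:ℝ) < g := by exact_mod_cast hg
  have hn0 : (0:ℝ) < n := by
    have : 0 < n := by omega
    exact_mod_cast this
  refine le_trans ?_ (hK ((min l g - 1) / 2) n (by omega))
  have h1 : (1:ℝ) / 10 * ((l:ℝ) / (l + g)) ≤ ((((min l g - 1) / 2 : ℕ):ℝ) + 1) / n := by
    rw [div_mul_div_comm, one_mul, div_le_div_iff₀ (by positivity) hn0]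
    have h2 : l * n ≤ ((min l g - 1) / 2 + 1) * (10 * (l + g)) := by
      have h3 : min l g ≤ 2 * ((min l g - 1) / 2 + 1) := by omega
      have h4 : l * g ≤ min l g * (l + g) := by
        rcases le_total l g with h | h
        · rw [min_eq_left h]; nlinarith
        · rw [min_eq_right h]; nlinarith
      calc l * n ≤ l * (5 * g) := Nat.mul_le_mul_left _ hn
        _ = 5 * (l * g) := by ring
        _ ≤ 5 * (min l g * (l + g)) := Nat.mul_le_mul_left _ h4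
        _ ≤ 5 * ((2 * ((min l g - 1) / 2 + 1)) * (l + g)) :=
            Nat.mul_le_mul_left _ (Nat.mul_le_mul_right _ h3)
        _ = _ := by ring
    exact_mod_cast h2
  have h2 : (1:ℝ) / 10 ≤ (1 / 10 : ℝ) ^ (1 / 3 : ℝ) := by
    conv_lhs => rw [← Real.rpow_one (1 / 10 : ℝ)]
    exact Real.rpow_le_rpow_of_exponent_ge (by norm_num) (by norm_num) (by norm_num)
  calc k / 10 * ((l:ℝ) / (l + g)) ^ (1 / 3 : ℝ)
      = k * (1 / 10 * ((l:ℝ) / (l + g)) ^ (1 / 3 : ℝ)) := by ring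
    _ ≤ k * ((1 / 10 : ℝ) ^ (1 / 3 : ℝ) * ((l:ℝ) / (l + g)) ^ (1 / 3 : ℝ)) := by gcongr
    _ = k * (1 / 10 * ((l:ℝ) / (l + g))) ^ (1 / 3 : ℝ) := by
        rw [Real.mul_rpow (by norm_num) (by positivity)]
    _ ≤ _ := by
        apply mul_le_mul_of_nonneg_left _ hk
        exact Real.rpow_le_rpow (by positivity) h1 (by norm_num)

theorem seg_lower {k : ℝ} (hk : 0 ≤ k)
    (hK : ∀ m n : ℕ, m < n → k * (((m:ℝ) + 1) / n) ^ (1 / 3 : ℝ) ≤ crH 0 (-1) m n)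
    {c : ℝ} (hc : 0 < c) (hRSW : ∀ n : ℕ, 1 ≤ n → c ≤ pLR (6 * n) n)
    {D : Finset (ℤ × ℤ)} (hD0 : ∀ z ∈ D, 0 ≤ z.2) {a₁ : ℤ} {l₁ g l₂ : ℕ} (h1 : 1 ≤ l₁) (hg : 1 ≤ g)
    (h2 : 1 ≤ l₂) (hD : ∀ z : ℤ × ℤ, nrm (z - (a₁ + l₁, 0)) ≤ 6 * g → 0 ≤ z.2 → z ∈ D) :
    c ^ 9 * ((k / 10 * ((l₁:ℝ) / (l₁ + g)) ^ (1 / 3 : ℝ)) *
      (k / 10 * ((l₂:ℝ) / (l₂ + g)) ^ (1 / 3 : ℝ))) ≤
    perc half D (Seg a₁ (a₁ + l₁) (a₁ + l₁ + g) (a₁ + l₁ + g + l₂)) := by
  set a₂ : ℤ := a₁ + l₁ with ha₂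
  set a₃ : ℤ := a₂ + g with ha₃
  set a₄ : ℤ := a₃ + l₂ with ha₄
  set b₁ : ℤ := a₂ - (min l₁ g : ℕ) with hb₁
  set b₄ : ℤ := a₃ + (min l₂ g : ℕ) with hb₄
  have f1 := factor_lower hk hK h1 hg (n := 4 * g) (by omega) (by omega)
  have f2 := factor_lower hk hK h2 hg (n := 5 * g) (by omega) (by omega)
  have e1 : c ^ 3 * crH 0 (-1) ((min l₁ g - 1) / 2) (4 * g) ≤
      perc half D (Far (fun x => b₁ < x ∧ x ≤ a₂) (a₂, 0) (4 * g : ℕ)) := by
    apply far_ge (by omega) (by omega) hD0 _ hc hRSW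
    · constructor <;> omega
    · left
      intro x hx1 hx2
      omega
    · intro z hz h0
      exact hD z (by push_cast at hz; omega) h0
  have e2 : c ^ 3 * crH 0 (-1) ((min l₂ g - 1) / 2) (5 * g) ≤
      perc half D (Far (fun x => a₃ ≤ x ∧ x < b₄) (a₃, 0) (5 * g : ℕ)) := by
    apply far_ge (by omega) (by omega) hD0 _ hc hRSW
    · constructor <;> omega
    · right
      intro x hx1 hx2
      omega
    · intro z hz h0
      apply hD z _ h0
      have h5 := nrm_sub_le z (a₃, 0) (a₂, 0)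
      rw [nrm_row, abs_sub_comm, abs_of_nonneg (by omega)] at h5
      push_cast at hz
      omega
  have e3 := seg_glue (D := D) (a₁ := b₁) (a₂ := a₂) (a₃ := a₃) (a₄ := b₄) (M := 2 * g)
    (n₁ := (4 * g : ℕ)) (n₂ := (5 * g : ℕ)) (by omega) hD0 (by
      intro z hz
      rw [mem_box] at hz
      push_cast at hz
      apply hD z _ hz.2.2.1
      rw [nrm_le]
      simp only [Prod.fst_sub, Prod.snd_sub, sub_zero, abs_le]
      omega) (by push_cast; omega) (by omega) (by push_cast; omega) (by push_cast; omega)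
      (by push_cast; omega) hc hRSW
  have e4 : perc half D (Seg b₁ a₂ a₃ b₄) ≤ perc half D (Seg a₁ a₂ a₃ a₄) := by
    apply perc_half_mono
    rintro ω _ ⟨x, y, x1, x2, y1, y2, h⟩
    exact ⟨x, y, by omega, x2, y1, by omega, h⟩
  refine le_trans ?_ (e3.trans e4)
  have g1 := (mul_le_mul_of_nonneg_left f1 (by positivity : (0:ℝ) ≤ c ^ 3)).trans e1
  have g2 := (mul_le_mul_of_nonneg_left f2 (by positivity : (0:ℝ) ≤ c ^ 3)).trans e2
  calc _ = c ^ 3 * ((c ^ 3 * (k / 10 * ((l₁:ℝ) / (l₁ + g)) ^ (1 / 3 : ℝ))) *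
      (c ^ 3 * (k / 10 * ((l₂:ℝ) / (l₂ + g)) ^ (1 / 3 : ℝ)))) := by ring
    _ ≤ _ := by
        apply mul_le_mul_of_nonneg_left _ (by positivity)
        exact mul_le_mul g1 g2 (by positivity) (perc_half_nonneg _ _)

end H47Perc
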