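import Pool.Agent.Helper57.Perc.QuadDefs
import Pool.Agent.Helper57.Perc.Seg

/-!
Arcs of the boundary of the quadrant: lower bounds for the connection to a large distance.
-/

set_option autoImplicit false

namespace H47Perc
open Finset
open Pool.Agent.Helper69.RSW (P P_mono P_map P_restrict P_congr Dep Up harris P_nonneg P_indep
  P_or_le P_le_one)

lemma nrm_bq (s : ℤ) : nrm (bq s) = |s| := by
  unfold nrm bq
  simp only
  rcases abs_cases (max s 0) with h1 | h1 <;> rcases abs_cases (max (-s) 0) with h2 | h2 <;>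
    rcases abs_cases s with h3 | h3 <;> omega

lemma bq_nonneg {s : ℤ} (h : 0 ≤ s) : bq s = (s, 0) := by
  unfold bq
  rw [max_eq_left h, max_eq_right (by omega)]

lemma bq_nonpos {s : ℤ} (h : s ≤ 0) : bq s = (0, -s) := by
  unfold bq
  rw [max_eq_right h, max_eq_left (by omega)]

lemma transp_bq (s : ℤ) : transp (bq s) = bq (-s) := by
  unfold bq transp
  simp

/-- an arc of the boundary of the quadrant is joined to distance `n` from the corner -/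
def FarQ (I : ℤ → Prop) (n : ℤ) (ω : Finset (Sym2 (ℤ × ℤ))) : Prop :=
  ∃ (x : ℤ) (z : ℤ × ℤ), I x ∧ n ≤ nrm z ∧ Joined ω (bq x) z

lemma farQ_up (I : ℤ → Prop) (n : ℤ) : Up (FarQ I n) := by
  rintro ω ω' h ⟨x, z, h1, h2, h3⟩
  exact ⟨x, z, h1, h2, joined_mono h h3⟩

lemma farQ_transp (I : ℤ → Prop) (n N : ℤ) :
    perc half (box 0 N 0 N) (FarQ (fun s => I (-s)) n) = perc half (box 0 N 0 N) (FarQ I n) := by
  conv_lhs => rw [← box_transp 0 N 0 N, perc_half_map transp_iso]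
  congr 1
  funext ω
  apply propext
  constructor
  · rintro ⟨x, z, h1, h2, h3⟩
    refine ⟨-x, transp z, h1, by rw [nrm_transp]; exact h2, ?_⟩
    rw [← joined_map (f := transp), transp_bq, neg_neg]
    have e : transp (transp z) = z := rfl
    rw [e]
    exact h3
  · rintro ⟨x, z, h1, h2, h3⟩
    refine ⟨-x, transp z, by simpa using h1, by rw [nrm_transp]; exact h2, ?_⟩
    have h4 := (joined_map (f := transp)).2 h3
    rwa [transp_bq] at h4

/-- the quarter circuit -/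
def CircQ (m : ℤ) (ω : Finset (Sym2 (ℤ × ℤ))) : Prop :=
  BT m (2 * m) 0 (2 * m) (ω ∩ edgesIn (box m (2 * m) 0 (2 * m))) ∧
    LR 0 (2 * m) m (2 * m) (ω ∩ edgesIn (box 0 (2 * m) m (2 * m)))

lemma circQ_up (m : ℤ) : Up (CircQ m) :=
  (up_inter (up_BT _ _ _ _) _).and (up_inter (up_LR _ _ _ _) _)

lemma circQ_ge {N : ℤ} {m : ℕ} (hm : 1 ≤ m) (hN : 2 * m ≤ N) {c : ℝ} (hc : 0 < c)
    (hRSW : ∀ n : ℕ, 1 ≤ n → c ≤ pLR (6 * n) n) : c ^ 2 ≤ perc half (box 0 N 0 N) (CircQ m) := by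
  have sV : box m (2 * m) 0 (2 * m) ⊆ box 0 N 0 N :=
    box_mono (by omega) (by omega) (by omega) (by omega)
  have sH : box 0 (2 * m) m (2 * m) ⊆ box 0 N 0 N :=
    box_mono (by omega) (by omega) (by omega) (by omega)
  have pV : c ≤ perc half (box 0 N 0 N) (fun ω => BT m (2 * m) 0 (2 * m)
      (ω ∩ edgesIn (box m (2 * m) 0 (2 * m)))) := by
    rw [perc_restrict sV, perc_BT, show (2 * (m:ℤ) - 0) = 2 * m by ring,
      show (2 * (m:ℤ) - m) = m by ring]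
    exact (hRSW m hm).trans (pLR_anti (by omega) (by omega) _)
  have pH : c ≤ perc half (box 0 N 0 N) (fun ω => LR 0 (2 * m) m (2 * m)
      (ω ∩ edgesIn (box 0 (2 * m) m (2 * m)))) := by
    rw [perc_restrict sH, perc_LR, show (2 * (m:ℤ) - 0) = 2 * m by ring,
      show (2 * (m:ℤ) - m) = m by ring]
    exact (hRSW m hm).trans (pLR_anti (by omega) (by omega) _)
  have h1 := perc_harris (box 0 N 0 N)
    (up_inter (up_BT m (2 * m) 0 (2 * m)) (edgesIn (box m (2 * m) 0 (2 * m))))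
    (up_inter (up_LR 0 (2 * m) m (2 * m)) (edgesIn (box 0 (2 * m) m (2 * m))))
  have s1 := (mul_le_mul pV pH hc.le (perc_half_nonneg _ _)).trans h1
  calc c ^ 2 = c * c := by ring
    _ ≤ _ := s1

lemma crQ_le_box {N : ℤ} {m n : ℕ} (hn : n ≤ N) :
    crQ m n ≤ perc half (box 0 N 0 N) (Cross m n) := by
  have hs : quarterAnn m n ⊆ box 0 N 0 N := by
    intro z hz
    unfold quarterAnn at hz
    rw [mem_filter, mem_box] at hz
    rw [mem_box]
    omega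
  unfold crQ
  rw [← perc_restrict hs]
  exact perc_half_mono (fun ω _ h => cross_up _ _ _ _ inter_subset_left h)

/-- fat arcs on the horizontal axis -/
lemma fat_x {I : ℤ → Prop} {N : ℤ} {m n w x₁ : ℕ} (hm : 1 ≤ m) (hmn : 2 * m ≤ n) (hn : n ≤ N)
    (hw : x₁ + w ≤ m) (hmw : m ≤ 32 * (w + 1)) (hI : ∀ x : ℤ, x₁ ≤ x → x ≤ x₁ + w → I x)
    {c c' : ℝ} (hc : 0 < c) (hRSW : ∀ n : ℕ, 1 ≤ n → c ≤ pLR (6 * n) n)
    (hc' : 0 < c') (hRSW' : ∀ n : ℕ, 1 ≤ n → c' ≤ pLR (128 * n) n) (h64 : c' ≤ pLR 64 0) :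
    c' * c ^ 2 * crQ m n ≤ perc half (box 0 N 0 N) (FarQ I n) := by
  set D := box 0 N 0 N with hD
  have s6 : box x₁ (x₁ + w) 0 (2 * m) ⊆ D := box_mono (by omega) (by omega) (by omega) (by omega)
  have p6 : c' ≤ perc half D (fun ω => BT x₁ (x₁ + w) 0 (2 * m)
      (ω ∩ edgesIn (box x₁ (x₁ + w) 0 (2 * m)))) := by
    rw [perc_restrict s6, perc_BT, show (2 * (m:ℤ) - 0) = 2 * m by ring,
      show ((x₁:ℤ) + w - x₁) = w by ring]
    rcases Nat.eq_zero_or_pos w with rfl | hw0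
    · exact h64.trans (pLR_anti (by omega) (by omega) _)
    · exact (hRSW' w hw0).trans (pLR_anti (by omega) (by omega) _)
  have e1 := perc_harris D (circQ_up m) (cross_up m n)
  have e2 := perc_harris D (up_inter (up_BT x₁ (x₁ + w) 0 (2 * m))
    (edgesIn (box x₁ (x₁ + w) 0 (2 * m)))) ((circQ_up m).and (cross_up m n))
  have e3 := mul_le_mul (circQ_ge hm (by omega : 2 * (m:ℤ) ≤ N) hc hRSW) (crQ_le_box (m := m) hn)
    (crQ_nonneg _ _) (perc_half_nonneg _ _)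
  have e4 := mul_le_mul p6 (e3.trans e1) (mul_nonneg (by positivity) (crQ_nonneg _ _))
    (perc_half_nonneg _ _)
  calc c' * c ^ 2 * crQ m n = c' * (c ^ 2 * crQ m n) := by ring
    _ ≤ _ := e4
    _ ≤ _ := e2
    _ ≤ _ := by
        apply perc_half_mono
        rintro ω hω ⟨⟨xa, xb, i1, i2, i3, i4, h6⟩, ⟨g1, g2⟩, ⟨u, z, h1, h2, h3⟩⟩
        obtain ⟨κ, hκ⟩ := barrier_quad (m := m) (n := N) (by omega) (by omega) g1 g2
        rw [inter_eq_left.2 hω] at hκ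
        have k1 := hκ u z (by omega) (by omega) h3
        have k2 := hκ (xa, 0) (xb, 2 * m) (by
          rw [nrm_le]; simp only [abs_zero, abs_le]; omega) (by
          rw [le_nrm]; right; simp only; exact le_abs_self _) (joined_mono inter_subset_left h6)
        refine ⟨xa, z, hI xa i1 i2, h2.ge, ?_⟩
        rw [bq_nonneg (by omega)]
        exact joined_trans (joined_symm k2) (joined_trans k1 h3)

/-- fat arcs -/
lemma fat_arc {N : ℤ} {b₁ b₂ : ℤ} {l R n : ℕ} (hl : b₂ = b₁ + l) (hl1 : 1 ≤ l)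
    (hR : |b₁| + |b₂| = R) (hf : R ≤ 16 * l) (hmn : 2 * R ≤ n) (hn : n ≤ N)
    {c c' : ℝ} (hc : 0 < c) (hRSW : ∀ n : ℕ, 1 ≤ n → c ≤ pLR (6 * n) n)
    (hc' : 0 < c') (hRSW' : ∀ n : ℕ, 1 ≤ n → c' ≤ pLR (128 * n) n) (h64 : c' ≤ pLR 64 0) :
    c' * c ^ 2 * crQ R n ≤ perc half (box 0 N 0 N) (FarQ (fun s => b₁ < s ∧ s ≤ b₂) n) := by
  have h1 := abs_cases b₁
  have h2 := abs_cases b₂
  have hR1 : 1 ≤ R := by omega
  by_cases hx : 0 ≤ b₂ ∧ -b₁ ≤ b₂ + 1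
  · -- the horizontal axis
    obtain ⟨x₁, hx₁⟩ : ∃ x : ℕ, (x:ℤ) = max (b₁ + 1) 0 := ⟨(max (b₁ + 1) 0).toNat, by omega⟩
    obtain ⟨w, hw⟩ : ∃ w : ℕ, (w:ℤ) = b₂ - x₁ := ⟨(b₂ - x₁).toNat, by omega⟩
    exact fat_x hR1 hmn hn (x₁ := x₁) (w := w) (by omega) (by omega) (fun x h3 h4 => by omega)
      hc hRSW hc' hRSW' h64
  · rw [← farQ_transp]
    obtain ⟨x₁, hx₁⟩ : ∃ x : ℕ, (x:ℤ) = max (-b₂) 0 := ⟨(max (-b₂) 0).toNat, by omega⟩
    obtain ⟨w, hw⟩ : ∃ w : ℕ, (w:ℤ) = -b₁ - 1 - x₁ := ⟨(-b₁ - 1 - x₁).toNat, by omega⟩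
    exact fat_x hR1 hmn hn (x₁ := x₁) (w := w) (by omega) (by omega) (fun x h3 h4 => by omega)
      hc hRSW hc' hRSW' h64

/-- thin arcs on the horizontal axis -/
lemma thin_x {N : ℤ} {b₁ b₂ : ℤ} {l R n : ℕ} (hl : b₂ = b₁ + l) (hl1 : 1 ≤ l) (hb : 0 ≤ b₁)
    (hR : b₁ + b₂ = R) (hf : 16 * l < R) (hmn : 8 * R ≤ n) (hn : n ≤ N)
    {c c' : ℝ} (hc : 0 < c) (hRSW : ∀ n : ℕ, 1 ≤ n → c ≤ pLR (6 * n) n)
    (hc' : 0 < c') (hRSW' : ∀ n : ℕ, 1 ≤ n → c' ≤ pLR (128 * n) n) (h64 : c' ≤ pLR 64 0)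
    {I : ℤ → Prop} (hI0 : ∀ x, I x → b₁ ≤ x ∧ x ≤ b₂) (hI1 : ∀ x, b₁ < x → x < b₂ → I x)
    (hI2 : (I b₂ ∧ ∀ x, b₁ < x → x ≤ b₂ → I x) ∨ (I b₁ ∧ ∀ x, b₁ ≤ x → x < b₂ → I x)) :
    c' * c ^ 8 * crH 0 (-1) ((l - 1) / 2) (2 * (R / 8)) * crQ (2 * R) n ≤
      perc half (box 0 N 0 N) (FarQ I n) := by
  set D := box 0 N 0 N with hD
  have hD0 : ∀ z ∈ D, 0 ≤ z.2 := fun z hz => by rw [hD, mem_box] at hz; omega
  set m := R / 8 with hm
  have hm1 : 2 ≤ m := by omega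
  -- the centre
  obtain ⟨p, hp, hIp, hside⟩ : ∃ p : ℤ, (p = b₁ ∨ p = b₂) ∧ I p ∧
      ((∀ x, p - 2 * ((l - 1) / 2 : ℕ) ≤ x → x ≤ p - ((l - 1) / 2 : ℕ) → I x) ∨
        (∀ x, p + ((l - 1) / 2 : ℕ) ≤ x → x ≤ p + 2 * ((l - 1) / 2 : ℕ) → I x)) := by
    rcases hI2 with ⟨h1, h2⟩ | ⟨h1, h2⟩
    · exact ⟨b₂, Or.inr rfl, h1, Or.inl (fun x h3 h4 => h2 x (by omega) (by omega))⟩
    · exact ⟨b₁, Or.inl rfl, h1, Or.inr (fun x h3 h4 => h2 x (by omega) (by omega))⟩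
  have hball : ∀ z : ℤ × ℤ, nrm (z - (p, 0)) ≤ (2 * m : ℕ) → 0 ≤ z.2 → z ∈ D := by
    intro z hz h0
    rw [nrm_le] at hz
    simp only [Prod.fst_sub, Prod.snd_sub, sub_zero, abs_le] at hz
    rw [hD, mem_box]
    omega
  have e1 := far_ge (D := D) (x0 := p) (m := (l - 1) / 2) (n := 2 * m) (I := I) (by omega)
    (by omega) hD0 hball hc hRSW hIp hside
  have e2 := circ_ge (D := D) (x0 := p) (m := m) (by omega) (by
      intro z hz
      rw [mem_box] at hz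
      rw [hD, mem_box]
      omega) hc hRSW
  -- the fat arc around the centre
  have e3' : c' * c ^ 2 * crQ (2 * R) n ≤
      perc half D (FarQ (fun s => p - m - 1 < s ∧ s ≤ p + m) n) := by
    obtain ⟨x₁, hx₁⟩ : ∃ x : ℕ, (x:ℤ) = p - m := ⟨(p - m).toNat, by omega⟩
    exact fat_x (m := 2 * R) (by omega) (by omega) hn (x₁ := x₁) (w := 2 * m) (by omega) (by omega)
      (fun x h3 h4 => by push_cast at h4; omega) hc hRSW hc' hRSW' h64
  have f1 := perc_harris D (far_up I (p, 0) (2 * m : ℕ)) (circ_up p m)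
  have f2 := perc_harris D ((far_up I (p, 0) (2 * m : ℕ)).and (circ_up p m))
    (farQ_up (fun s => p - m - 1 < s ∧ s ≤ p + m) n)
  have f3 := (mul_le_mul e1 e2 (by positivity) (perc_half_nonneg _ _)).trans f1
  have hcr : 0 ≤ crH 0 (-1) ((l - 1) / 2) (2 * m) := crH_nonneg _ _ _ _
  have f4 := (mul_le_mul f3 e3' (mul_nonneg (by positivity) (crQ_nonneg _ _))
    (perc_half_nonneg _ _)).trans f2
  calc c' * c ^ 8 * crH 0 (-1) ((l - 1) / 2) (2 * m) * crQ (2 * R) n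
      = c ^ 3 * crH 0 (-1) ((l - 1) / 2) (2 * m) * c ^ 3 * (c' * c ^ 2 * crQ (2 * R) n) := by ring
    _ ≤ _ := f4
    _ ≤ _ := by
        apply perc_half_mono
        rintro ω hω ⟨⟨⟨x, z, x1, x2, x3⟩, ⟨⟨g1, g2⟩, g3⟩⟩, ⟨y, w, y1, y2, y3⟩⟩
        obtain ⟨κ, xa, xc, i1, i2, i3, i4, i5⟩ := barrier_flat (D := D) (x0 := p) (m := m)
          (by omega) hD0 (by
            intro z hz
            rw [mem_box] at hz
            rw [hD, mem_box]
            omega) g1 g2 g3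
        rw [inter_eq_left.2 hω] at i5
        have hx := hI0 x x1
        have k1 := i5 (x, 0) z (by rw [nrm_row, abs_le]; omega) (by push_cast at x2; omega) x3
        rw [bq_nonneg (by omega)] at y3
        have h5 := nrm_sub_le w (p, 0) (0, 0)
        rw [nrm_row, abs_sub_comm, sub_zero] at h5
        have h6 : nrm (w - (0, 0)) = nrm w := by congr 1; exact sub_zero w
        rw [h6] at h5
        have h7 : |p| ≤ R := by rw [abs_le]; omega
        have k2 := i5 (y, 0) w (by rw [nrm_row, abs_le]; omega) (by omega) y3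
        refine ⟨x, w, x1, y2, ?_⟩
        rw [bq_nonneg (by omega)]
        exact joined_trans (joined_symm k1) (joined_trans k2 y3)

end H47Perc
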