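import Pool.Agent.Helper57.Perc.QuadA
import Pool.Agent.Helper57.Perc.CardyHalf

/-!
Arcs of the boundary of the quadrant: two-sided bounds.
-/

set_option autoImplicit false

namespace H47Perc
open Finset
open Pool.Agent.Helper69.RSW (P P_mono P_map P_restrict P_congr Dep Up harris P_nonneg P_indep
  P_or_le P_le_one)

lemma pow13_mono {x y : ℝ} (hx : 0 ≤ x) (h : x ≤ y) : x ^ (1 / 3 : ℝ) ≤ y ^ (1 / 3 : ℝ) :=
  Real.rpow_le_rpow hx h (by norm_num)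

lemma pow23_eq {x : ℝ} (hx : 0 ≤ x) : x ^ (2 / 3 : ℝ) = (x * x) ^ (1 / 3 : ℝ) := by
  rw [Real.mul_rpow hx hx, ← Real.rpow_add_of_nonneg hx (by norm_num) (by norm_num)]
  norm_num

/-- the constants -/
structure Consts (k K c c' : ℝ) : Prop where
  k0 : 0 < k
  K1 : 1 ≤ K
  c0 : 0 < c
  c1 : c ≤ 1
  c0' : 0 < c'
  c1' : c' ≤ 1
  k1 : k ≤ 1
  low : ∀ m n : ℕ, m < n → k * (((m:ℝ) + 1) / n) ^ (1 / 3 : ℝ) ≤ crH 0 (-1) m n
  up : ∀ m n : ℕ, 1 ≤ m → m ≤ n → crH 0 (-1) m n ≤ K * ((m:ℝ) / n) ^ (1 / 3 : ℝ)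
  lowQ : ∀ m n : ℕ, 1 ≤ m → m ≤ n → k * ((m:ℝ) / n) ^ (2 / 3 : ℝ) ≤ crQ m n
  upQ : ∀ m n : ℕ, 1 ≤ m → m ≤ n → crQ m n ≤ K * ((m:ℝ) / n) ^ (2 / 3 : ℝ)
  rsw : ∀ n : ℕ, 1 ≤ n → c ≤ pLR (6 * n) n
  rsw' : ∀ n : ℕ, 1 ≤ n → c' ≤ pLR (128 * n) n
  r64 : c' ≤ pLR 64 0

lemma rpow_div_nonneg (x : ℝ) (m n : ℕ) : (0:ℝ) ≤ ((m:ℝ) / n) ^ x :=
  Real.rpow_nonneg (div_nonneg (Nat.cast_nonneg _) (Nat.cast_nonneg _)) _

lemma rpow_div_nonneg' (x : ℝ) (m n : ℕ) : (0:ℝ) ≤ (((m:ℝ) + 1) / n) ^ x := by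
  have := rpow_div_nonneg x (m + 1) n
  rwa [Nat.cast_succ] at this

lemma pLR_le_one' (m n : ℤ) : pLR m n ≤ 1 := perc_half_le_one _ _

lemma exists_rsw (hX : CrossBound) (k : ℕ) : ∃ c : ℝ, 0 < c ∧ c ≤ 1 ∧
    ∀ n : ℕ, 1 ≤ n → c ≤ pLR (k * n) n := by
  obtain ⟨r, hr, h⟩ := hX k
  refine ⟨r, hr, (h 1 le_rfl).trans (pLR_le_one' _ _), fun n hn => ?_⟩
  exact h n hn

lemma exists_consts (hX : CrossBound) (hE : ArmExponents) : ∃ k K c c' : ℝ, Consts k K c c' := by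
  obtain ⟨k, hk, hlow⟩ := crH_lower hX hE
  obtain ⟨k', K', hk', hcr⟩ := crossing_exponents hX hE
  obtain ⟨r, hr, hr1, hRSW⟩ := exists_rsw hX 6
  obtain ⟨r', hr', hr1', hRSW'⟩ := exists_rsw hX 128
  have hab : ((0:ℝ) ≠ 0 ∨ (-1:ℝ) ≠ 0) := Or.inr (by norm_num)
  obtain ⟨q, hq⟩ : ∃ q : ℝ, q = pLR 64 0 := ⟨_, rfl⟩
  have h64 : 0 < q := by rw [hq]; exact pLR_pos (by norm_num) le_rfl
  refine ⟨min (min k k') 1, max K' 1, r, min r' q, ⟨lt_min (lt_min hk hk') one_pos,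
    le_max_right _ _, hr, hr1, lt_min hr' h64, (min_le_left _ _).trans hr1',
    min_le_right _ _, ?_, ?_, ?_, ?_, ?_, ?_, ?_⟩⟩
  · intro m n hmn
    have h0 := rpow_div_nonneg' (1 / 3) m n
    exact le_trans (mul_le_mul_of_nonneg_right ((min_le_left _ _).trans (min_le_left _ _)) h0)
      (hlow 0 (-1) hab m n hmn)
  · intro m n hm hmn
    have h0 := rpow_div_nonneg (1 / 3) m n
    exact ((hcr m n hm hmn).1 0 (-1) hab).2.trans
      (mul_le_mul_of_nonneg_right (le_max_left _ _) h0)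
  · intro m n hm hmn
    have h0 := rpow_div_nonneg (2 / 3) m n
    exact le_trans (mul_le_mul_of_nonneg_right ((min_le_left _ _).trans (min_le_right _ _)) h0)
      (hcr m n hm hmn).2.1
  · intro m n hm hmn
    have h0 := rpow_div_nonneg (2 / 3) m n
    exact (hcr m n hm hmn).2.2.trans (mul_le_mul_of_nonneg_right (le_max_left _ _) h0)
  · intro n hn
    have := hRSW n hn
    rwa [Nat.cast_ofNat] at this
  · intro n hn
    have := hRSW' n hn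
    rw [Nat.cast_ofNat] at this
    exact (min_le_left _ _).trans this
  · rw [← hq]
    exact min_le_right _ _

section
variable {k K c c' : ℝ} (H : Consts k K c c')
include H

/-- lower bound for one arc, corner regime -/
lemma farQ_lower {N : ℤ} {b₁ b₂ : ℤ} {l R n : ℕ} (hl : b₂ = b₁ + l) (hl1 : 1 ≤ l)
    (hR : |b₁| + |b₂| = R) (hmn : 8 * R ≤ n) (hn : n ≤ N) :
    c' * c ^ 8 * k ^ 2 * (((l:ℝ) * R) / (n * n)) ^ (1 / 3 : ℝ) ≤
      perc half (box 0 N 0 N) (FarQ (fun s => b₁ < s ∧ s ≤ b₂) n) := by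
  have h1 := abs_cases b₁
  have h2 := abs_cases b₂
  have hR1 : 1 ≤ R := by omega
  have hlR : l ≤ R := by omega
  have hk := H.k0
  have hc := H.c0
  have hc' := H.c0'
  have hl0 : (0:ℝ) < l := by exact_mod_cast hl1
  have hR0 : (0:ℝ) < R := by exact_mod_cast hR1
  have hn0 : (0:ℝ) < n := by
    have : 0 < n := by omega
    exact_mod_cast this
  have hlR' : (l:ℝ) ≤ R := by exact_mod_cast hlR
  rcases Nat.lt_or_ge (16 * l) R with hf | hf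
  · -- thin
    have key : c' * c ^ 8 * crH 0 (-1) ((l - 1) / 2) (2 * (R / 8)) * crQ (2 * R) n ≤
        perc half (box 0 N 0 N) (FarQ (fun s => b₁ < s ∧ s ≤ b₂) n) := by
      rcases le_total 0 b₁ with hb | hb
      · exact thin_x hl hl1 hb (by omega) hf hmn hn hc H.rsw hc' H.rsw' H.r64
          (fun x hx => by omega) (fun x h3 h4 => by omega)
          (Or.inl ⟨by omega, fun x h3 h4 => by omega⟩)
      · have hb2 : b₂ ≤ 0 := by omega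
        rw [← farQ_transp]
        exact thin_x (b₁ := -b₂) (b₂ := -b₁) (by omega) hl1 (by omega) (by omega) hf hmn hn hc
          H.rsw hc' H.rsw' H.r64 (fun x hx => by omega) (fun x h3 h4 => by omega)
          (Or.inr ⟨by omega, fun x h3 h4 => by omega⟩)
    refine le_trans ?_ key
    have e1 := H.low ((l - 1) / 2) (2 * (R / 8)) (by omega)
    have e2 := H.lowQ (2 * R) n (by omega) (by omega)
    have e3 : ((l:ℝ) / R) ^ (1 / 3 : ℝ) ≤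
        (((((l - 1) / 2 : ℕ):ℝ) + 1) / (2 * (R / 8) : ℕ)) ^ (1 / 3 : ℝ) := by
      apply pow13_mono (by positivity)
      have h5 : (0:ℝ) < (2 * (R / 8) : ℕ) := by
        have : 0 < 2 * (R / 8) := by omega
        exact_mod_cast this
      rw [div_le_div_iff₀ hR0 h5]
      have h6 : l * (2 * (R / 8)) ≤ ((l - 1) / 2 + 1) * R := by
        have h7 : l ≤ 2 * ((l - 1) / 2 + 1) := by omega
        have h8 : 2 * (2 * (R / 8)) ≤ R := by omega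
        calc l * (2 * (R / 8)) ≤ (2 * ((l - 1) / 2 + 1)) * (2 * (R / 8)) :=
              Nat.mul_le_mul_right _ h7
          _ = ((l - 1) / 2 + 1) * (2 * (2 * (R / 8))) := by ring
          _ ≤ _ := Nat.mul_le_mul_left _ h8
      exact_mod_cast h6
    have e4 : ((R:ℝ) / n) ^ (2 / 3 : ℝ) ≤ (((2 * R : ℕ):ℝ) / n) ^ (2 / 3 : ℝ) := by
      apply Real.rpow_le_rpow (by positivity) _ (by norm_num)
      push_cast
      gcongr
      linarith
    have e5 : (((l:ℝ) * R) / (n * n)) ^ (1 / 3 : ℝ) =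
        ((l:ℝ) / R) ^ (1 / 3 : ℝ) * ((R:ℝ) / n) ^ (2 / 3 : ℝ) := by
      rw [pow23_eq (by positivity), ← Real.mul_rpow (by positivity) (by positivity)]
      congr 1
      field_simp
    rw [e5]
    have g1 : k * ((l:ℝ) / R) ^ (1 / 3 : ℝ) ≤ crH 0 (-1) ((l - 1) / 2) (2 * (R / 8)) :=
      (mul_le_mul_of_nonneg_left e3 hk.le).trans e1
    have g2 : k * ((R:ℝ) / n) ^ (2 / 3 : ℝ) ≤ crQ (2 * R) n :=
      (mul_le_mul_of_nonneg_left e4 hk.le).trans e2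
    calc _ = c' * c ^ 8 * ((k * ((l:ℝ) / R) ^ (1 / 3 : ℝ)) * (k * ((R:ℝ) / n) ^ (2 / 3 : ℝ))) := by
          ring
      _ ≤ c' * c ^ 8 * (crH 0 (-1) ((l - 1) / 2) (2 * (R / 8)) * crQ (2 * R) n) := by
          apply mul_le_mul_of_nonneg_left _ (by positivity)
          exact mul_le_mul g1 g2 (by positivity) (crH_nonneg _ _ _ _)
      _ = _ := by ring
  · have key := fat_arc (N := N) hl hl1 hR hf (by omega : 2 * R ≤ n) hn hc H.rsw hc' H.rsw' H.r64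
    refine le_trans ?_ key
    have e2 := H.lowQ R n (by omega) (by omega)
    have e5 : (((l:ℝ) * R) / (n * n)) ^ (1 / 3 : ℝ) ≤ ((R:ℝ) / n) ^ (2 / 3 : ℝ) := by
      rw [pow23_eq (by positivity)]
      apply pow13_mono (by positivity)
      rw [div_mul_div_comm]
      gcongr
    have e6 : c ^ 8 ≤ c ^ 2 := pow_le_pow_of_le_one hc.le H.c1 (by norm_num)
    have e7 : k ^ 2 ≤ k := by
      have := H.k1
      nlinarith
    calc c' * c ^ 8 * k ^ 2 * (((l:ℝ) * R) / (n * n)) ^ (1 / 3 : ℝ)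
        ≤ c' * c ^ 2 * k * ((R:ℝ) / n) ^ (2 / 3 : ℝ) := by gcongr
      _ = c' * c ^ 2 * (k * ((R:ℝ) / n) ^ (2 / 3 : ℝ)) := by ring
      _ ≤ _ := mul_le_mul_of_nonneg_left e2 (by positivity)

end

/-- gluing in the corner regime -/
lemma segQ_glue {N M : ℕ} (hM : 1 ≤ M) (hN : 2 * M ≤ N) {a₁ a₂ a₃ a₄ : ℤ}
    (h1 : |a₁| ≤ M) (h2 : |a₂| ≤ M) (h3 : |a₃| ≤ M) (h4 : |a₄| ≤ M) {c : ℝ} (hc : 0 < c) (hRSW : ∀ n : ℕ, 1 ≤ n → c ≤ pLR (6 * n) n) :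
    c ^ 2 * (perc half (box 0 N 0 N) (FarQ (fun x => a₁ < x ∧ x ≤ a₂) (2 * M : ℕ)) *
      perc half (box 0 N 0 N) (FarQ (fun x => a₃ - 1 < x ∧ x ≤ a₄ - 1) (2 * M : ℕ))) ≤
      perc half (box 0 N 0 N) (SegQ a₁ a₂ a₃ a₄) := by
  set D := box 0 (N:ℤ) 0 N with hD
  have e2 := circQ_ge (N := (N:ℤ)) hM (by omega) hc hRSW
  have e3 := perc_harris D (farQ_up (fun x => a₁ < x ∧ x ≤ a₂) (2 * M : ℕ))
    (farQ_up (fun x => a₃ - 1 < x ∧ x ≤ a₄ - 1) (2 * M : ℕ))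
  have e4 := perc_harris D (circQ_up M) ((farQ_up (fun x => a₁ < x ∧ x ≤ a₂) (2 * M : ℕ)).and
    (farQ_up (fun x => a₃ - 1 < x ∧ x ≤ a₄ - 1) (2 * M : ℕ)))
  refine (mul_le_mul e2 e3 (mul_nonneg (perc_half_nonneg _ _) (perc_half_nonneg _ _))
    (perc_half_nonneg _ _)).trans (e4.trans ?_)
  apply perc_half_mono
  rintro ω hω ⟨⟨g1, g2⟩, ⟨x, z, x1, x2, x3⟩, ⟨y, w, y1, y2, y3⟩⟩
  obtain ⟨κ, hκ⟩ := barrier_quad (m := M) (n := N) (by omega) (by omega) g1 g2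
  rw [inter_eq_left.2 hω] at hκ
  rw [abs_le] at h1 h2 h3 h4
  have k1 := hκ (bq x) z (by rw [nrm_bq, abs_le]; omega) (by push_cast at x2; omega) x3
  have k2 := hκ (bq y) w (by rw [nrm_bq, abs_le]; omega) (by push_cast at y2; omega) y3
  exact ⟨x, y, x1.1, x1.2, by omega, by omega, joined_trans (joined_symm k1) k2⟩

end H47Perc
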