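import Pool.Agent.Helper57.Perc.QuadB

/-!
Arcs of the boundary of the quadrant: lower bounds for quads.
-/

set_option autoImplicit false

namespace H47Perc
open Finset
open Pool.Agent.Helper69.RSW (P P_mono P_map P_restrict P_congr Dep Up harris P_nonneg P_indep
  P_or_le P_le_one)

/-- comparison function -/
noncomputable def gF (l R g : ℝ) : ℝ := (l * R) / ((l + g) * (R + g))

lemma gF_nonneg {l R g : ℝ} (hl : 0 ≤ l) (hR : 0 ≤ R) (hg : 0 ≤ g) : 0 ≤ gF l R g := by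
  unfold gF; positivity

section
variable {k K c c' : ℝ} (H : Consts k K c c')
include H

/-- lower bound for short arcs -/
lemma segQ_lower_short {N : ℕ} {a₂ : ℤ} {l₁ g l₂ R : ℕ} (h1 : 1 ≤ l₁) (hg : 1 ≤ g) (h2 : 1 ≤ l₂)
    (h1g : l₁ ≤ g) (h2g : l₂ ≤ g) (ha : |a₂| ≤ a₂ + g) (hR : |a₂ - l₁| + |a₂| = R)
    (hN : 160 * g ≤ N) (hN2 : |a₂| + 6 * g ≤ N) :
    c' ^ 2 * c ^ 18 * k ^ 4 / 1310720000 *
      (gF l₁ R g ^ (1 / 3 : ℝ) * ((l₂:ℝ) / (l₂ + g)) ^ (1 / 3 : ℝ)) ≤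
      perc half (box 0 N 0 N) (SegQ (a₂ - l₁) a₂ (a₂ + g) (a₂ + g + l₂)) := by
  have hk := H.k0
  have hc := H.c0
  have hc' := H.c0'
  have hk1 := H.k1
  have hc1 := H.c1
  have hc1' := H.c1'
  have hl1 : (0:ℝ) < l₁ := by exact_mod_cast h1
  have hl2 : (0:ℝ) < l₂ := by exact_mod_cast h2
  have hg0 : (0:ℝ) < g := by exact_mod_cast hg
  have hR0 : (0:ℝ) ≤ R := by positivity
  have h2' := abs_cases a₂
  have h1' := abs_cases (a₂ - l₁)
  rcases le_or_gt (8 * (g:ℤ)) a₂ with hflat | hcorner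
  · -- the flat regime
    have e1 := seg_lower hk.le H.low hc H.rsw (D := box 0 N 0 N) (a₁ := a₂ - l₁)
      (fun z hz => by rw [mem_box] at hz; omega) h1 hg h2 (by
        intro z hz h0
        rw [nrm_le] at hz
        simp only [Prod.fst_sub, Prod.snd_sub, sub_zero, abs_le] at hz
        rw [mem_box]
        omega)
    have e2 : perc half (box 0 N 0 N)
        (Seg (a₂ - l₁) (a₂ - l₁ + l₁) (a₂ - l₁ + l₁ + g) (a₂ - l₁ + l₁ + g + l₂)) ≤
        perc half (box 0 N 0 N) (SegQ (a₂ - l₁) a₂ (a₂ + g) (a₂ + g + l₂)) := by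
      apply perc_half_mono
      rintro ω _ ⟨x, y, x1, x2, y1, y2, h⟩
      refine ⟨x, y, x1, by omega, by omega, by omega, ?_⟩
      rw [bq_nonneg (by omega), bq_nonneg (by omega)]
      exact h
    refine le_trans ?_ (e1.trans e2)
    have e3 : gF l₁ R g ^ (1 / 3 : ℝ) ≤ ((l₁:ℝ) / (l₁ + g)) ^ (1 / 3 : ℝ) := by
      apply pow13_mono (gF_nonneg hl1.le hR0 hg0.le)
      unfold gF
      rw [div_le_div_iff₀ (by positivity) (by positivity)]
      nlinarith [mul_pos hl1 hg0, mul_pos (mul_pos hl1 hg0) hg0, mul_pos (mul_pos hl1 hl1) hg0]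
    have e4 : c' ^ 2 * c ^ 18 * k ^ 4 ≤ c ^ 9 * k ^ 2 := by
      have q1 : c' ^ 2 ≤ 1 := pow_le_one₀ hc'.le hc1'
      have q2 : c ^ 18 ≤ c ^ 9 := pow_le_pow_of_le_one hc.le hc1 (by norm_num)
      have q3 : k ^ 4 ≤ k ^ 2 := pow_le_pow_of_le_one hk.le hk1 (by norm_num)
      calc c' ^ 2 * c ^ 18 * k ^ 4 ≤ 1 * c ^ 9 * k ^ 2 :=
            mul_le_mul (mul_le_mul q1 q2 (by positivity) (by norm_num)) q3 (by positivity)
              (by positivity)
        _ = _ := by ring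
    set X := ((l₁:ℝ) / (l₁ + g)) ^ (1 / 3 : ℝ) with hX
    set Y := ((l₂:ℝ) / (l₂ + g)) ^ (1 / 3 : ℝ) with hY
    have hX0 : 0 ≤ X := by positivity
    have hY0 : 0 ≤ Y := by positivity
    have hXY : 0 ≤ c ^ 9 * k ^ 2 * (X * Y) := by positivity
    have hG0 : 0 ≤ gF l₁ R g ^ (1 / 3 : ℝ) := Real.rpow_nonneg (gF_nonneg hl1.le hR0 hg0.le) _
    calc c' ^ 2 * c ^ 18 * k ^ 4 / 1310720000 * (gF l₁ R g ^ (1 / 3 : ℝ) * Y)
        ≤ c ^ 9 * k ^ 2 / 1310720000 * (X * Y) := by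
          apply mul_le_mul _ (mul_le_mul_of_nonneg_right e3 hY0) (by positivity) (by positivity)
          exact div_le_div_of_nonneg_right e4 (by norm_num)
      _ ≤ c ^ 9 * k ^ 2 / 100 * (X * Y) := by
          have h5 : c ^ 9 * k ^ 2 / 1310720000 * (X * Y) =
            (c ^ 9 * k ^ 2 * (X * Y)) / 1310720000 := by ring
          have h6 : c ^ 9 * k ^ 2 / 100 * (X * Y) = (c ^ 9 * k ^ 2 * (X * Y)) / 100 := by ring
          rw [h5, h6]
          linarith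
      _ = c ^ 9 * ((k / 10 * X) * (k / 10 * Y)) := by ring
  · -- the corner regime
    obtain ⟨RB, hRB⟩ : ∃ r : ℕ, (r:ℤ) = 2 * (a₂ + g) + l₂ - 2 :=
      ⟨(2 * (a₂ + g) + l₂ - 2).toNat, by omega⟩
    have e1 := farQ_lower H (N := N) (b₁ := a₂ - l₁) (b₂ := a₂) (l := l₁) (R := R)
      (n := 160 * g) (by omega) h1 hR (by omega) (by omega)
    have e2 := farQ_lower H (N := N) (b₁ := a₂ + g - 1) (b₂ := a₂ + g + l₂ - 1) (l := l₂) (R := RB)
      (n := 160 * g) (by omega) h2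
      (by rw [abs_of_nonneg (by omega), abs_of_nonneg (by omega)]; omega) (by omega) (by omega)
    have e3 := segQ_glue (N := N) (M := 80 * g) (by omega) (by omega) (a₁ := a₂ - l₁) (a₂ := a₂)
      (a₃ := a₂ + g) (a₄ := a₂ + g + l₂) (by push_cast; omega) (by push_cast; omega)
      (by rw [abs_le]; push_cast; omega) (by rw [abs_le]; push_cast; omega) hc H.rsw
    have e160 : 2 * (80 * g) = 160 * g := by ring
    rw [e160] at e3
    refine le_trans ?_ e3
    have hn : ((160 * g : ℕ):ℝ) = 160 * g := by push_cast; ring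
    rw [hn] at e1 e2
    have hRB2 : (g:ℝ) ≤ 2 * RB := by
      have : g ≤ 2 * RB := by omega
      exact_mod_cast this
    have f1 : gF l₁ R g ^ (1 / 3 : ℝ) ≤
        25600 * (((l₁:ℝ) * R) / (160 * g * (160 * g))) ^ (1 / 3 : ℝ) := by
      apply rpow13_le (gF_nonneg hl1.le hR0 hg0.le) (by positivity) (by norm_num)
      unfold gF
      rw [mul_div_assoc', div_le_div_iff₀ (by positivity) (by positivity)]
      have h7 : (g:ℝ) * g ≤ (l₁ + g) * (R + g) := by nlinarith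
      have h8 : (0:ℝ) ≤ l₁ * R := by positivity
      nlinarith [mul_le_mul_of_nonneg_left h7 h8]
    have f2 : ((l₂:ℝ) / (l₂ + g)) ^ (1 / 3 : ℝ) ≤
        51200 * (((l₂:ℝ) * RB) / (160 * g * (160 * g))) ^ (1 / 3 : ℝ) := by
      apply rpow13_le (by positivity) (by positivity) (by norm_num)
      rw [mul_div_assoc', div_le_div_iff₀ (by positivity) (by positivity)]
      have h7 : (g:ℝ) * g ≤ (2 * RB) * (l₂ + g) := by
        apply mul_le_mul hRB2 (by linarith) hg0.le (by positivity)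
      nlinarith [mul_le_mul_of_nonneg_left h7 hl2.le]
    set X := (((l₁:ℝ) * R) / (160 * g * (160 * g))) ^ (1 / 3 : ℝ) with hX
    set Y := (((l₂:ℝ) * RB) / (160 * g * (160 * g))) ^ (1 / 3 : ℝ) with hY
    have hX0 : 0 ≤ X := by positivity
    have hY0 : 0 ≤ Y := by positivity
    have g1 : 0 ≤ gF l₁ R g ^ (1 / 3 : ℝ) := Real.rpow_nonneg (gF_nonneg hl1.le hR0 hg0.le) _
    have g2 : gF l₁ R g ^ (1 / 3 : ℝ) * ((l₂:ℝ) / (l₂ + g)) ^ (1 / 3 : ℝ) ≤
        (25600 * X) * (51200 * Y) := mul_le_mul f1 f2 (by positivity) (by positivity)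
    set A := c' * c ^ 8 * k ^ 2 with hA
    have hA0 : 0 ≤ A := by positivity
    calc c' ^ 2 * c ^ 18 * k ^ 4 / 1310720000 *
          (gF l₁ R g ^ (1 / 3 : ℝ) * ((l₂:ℝ) / (l₂ + g)) ^ (1 / 3 : ℝ))
        ≤ c' ^ 2 * c ^ 18 * k ^ 4 / 1310720000 * ((25600 * X) * (51200 * Y)) :=
          mul_le_mul_of_nonneg_left g2 (by positivity)
      _ = c ^ 2 * ((A * X) * (A * Y)) := by rw [hA]; ring
      _ ≤ _ := mul_le_mul_of_nonneg_left (mul_le_mul e1 e2 (mul_nonneg hA0 hY0)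
          (perc_half_nonneg _ _)) (by positivity)

end

end H47Perc
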