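import Pool.Agent.Helper57.Perc.QuadC

/-!
Arcs of the boundary of the quadrant: upper bounds for quads.
-/

set_option autoImplicit false

namespace H47Perc
open Finset
open Pool.Agent.Helper69.RSW (P P_mono P_map P_restrict P_congr Dep Up harris P_nonneg P_indep
  P_or_le P_le_one)

lemma dep_restrict (X : Finset (Sym2 (ℤ × ℤ)) → Prop) (E : Finset (Sym2 (ℤ × ℤ))) :
    Dep E (fun ω => X (ω ∩ E)) := by
  intro ω
  simp only [inter_assoc, inter_self]

lemma prod2 {D S T : Finset (ℤ × ℤ)} (hS : S ⊆ D) (hT : T ⊆ D) (hST : Disjoint S T)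
    (X Y : Finset (Sym2 (ℤ × ℤ)) → Prop) :
    perc half D (fun ω => X (ω ∩ edgesIn S) ∧ Y (ω ∩ edgesIn T)) =
      perc half S X * perc half T Y := by
  classical
  rw [← perc_restrict hS, ← perc_restrict hT, Pool.Agent.Helper69.RSW.perc_half_eq,
    Pool.Agent.Helper69.RSW.perc_half_eq, Pool.Agent.Helper69.RSW.perc_half_eq]
  exact P_indep (edgesIn_mono hS) (edgesIn_mono hT) (edgesIn_disjoint hST) (dep_restrict X _)
    (dep_restrict Y _)

lemma prod3 {D S T U : Finset (ℤ × ℤ)} (hS : S ⊆ D) (hT : T ⊆ D) (hU : U ⊆ D)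
    (hST : Disjoint S T) (hSU : Disjoint S U) (hTU : Disjoint T U)
    (X Y Z : Finset (Sym2 (ℤ × ℤ)) → Prop) :
    perc half D (fun ω => X (ω ∩ edgesIn S) ∧ Y (ω ∩ edgesIn T) ∧ Z (ω ∩ edgesIn U)) =
      perc half S X * (perc half T Y * perc half U Z) := by
  classical
  rw [← prod2 hT hU hTU]
  rw [← perc_restrict hS, Pool.Agent.Helper69.RSW.perc_half_eq,
    Pool.Agent.Helper69.RSW.perc_half_eq, Pool.Agent.Helper69.RSW.perc_half_eq]
  refine P_indep (G := edgesIn S) (H := edgesIn T ∪ edgesIn U) (edgesIn_mono hS)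
    (union_subset (edgesIn_mono hT) (edgesIn_mono hU))
    (disjoint_union_right.2 ⟨edgesIn_disjoint hST, edgesIn_disjoint hSU⟩) (dep_restrict X _) ?_
  intro ω
  simp only [inter_assoc, union_inter_cancel_left, union_inter_cancel_right]

lemma nrm_zero_sub (z : ℤ × ℤ) : nrm (z - (0, 0)) = nrm z := by
  congr 1
  exact sub_zero z

lemma cross_bq_le {N : ℤ} (s : ℤ) (m n : ℕ) :
    perc half (annC (box 0 N 0 N) (bq s) m n) (CrossC (bq s) m n) ≤ crH 0 (-1) m n := by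
  rcases le_total 0 s with hs | hs
  · apply crossC_le
    intro z hz
    rw [mem_box] at hz
    rw [bq_nonneg hs]
    have : (0:ℝ) ≤ z.2 := by exact_mod_cast hz.2.2.1
    simp only [Int.cast_zero]
    linarith
  · rw [crH_transp (-1) 0]
    apply crossC_le
    intro z hz
    rw [mem_box] at hz
    rw [bq_nonpos hs]
    have : (0:ℝ) ≤ z.1 := by exact_mod_cast hz.1
    simp only [Int.cast_zero]
    linarith

lemma cross_zero_le {N : ℤ} (m n : ℕ) :
    perc half (annC (box 0 N 0 N) (0, 0) m n) (CrossC (0, 0) m n) ≤ crQ m n := by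
  have hs : annC (box 0 N 0 N) (0, 0) m n ⊆ quarterAnn m n := by
    intro z hz
    rw [mem_annC, mem_box, nrm_zero_sub] at hz
    unfold quarterAnn
    rw [mem_filter, mem_box]
    have h2 := nrm_le.1 hz.2.2
    rw [abs_le, abs_le] at h2
    omega
  unfold crQ
  rw [← perc_restrict hs]
  apply perc_half_mono
  rintro ω _ ⟨u, z, h1, h2, h3⟩
  rw [nrm_zero_sub] at h1 h2
  exact ⟨u, z, h1, h2, joined_mono inter_subset_left h3⟩

section
variable {k K c c' : ℝ} (H : Consts k K c c')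
include H

lemma crH_fac {l r : ℕ} (hl : 1 ≤ l) {X : ℝ} (h1 : l < r → (l:ℝ) / r ≤ X) (h2 : r ≤ l → 1 ≤ X) :
    crH 0 (-1) (min l r) r ≤ K * X ^ (1 / 3 : ℝ) := by
  have hK := H.K1
  rcases Nat.lt_or_ge l r with h | h
  · rw [min_eq_left h.le]
    refine (H.up l r hl h.le).trans (mul_le_mul_of_nonneg_left ?_ (by linarith))
    exact pow13_mono (by positivity) (h1 h)
  · refine (crH_le_one _ _ _ _).trans ?_
    have : 1 ≤ X ^ (1 / 3 : ℝ) := Real.one_le_rpow (h2 h) (by norm_num)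
    nlinarith

end

lemma ann_disjoint {D : Finset (ℤ × ℤ)} {p q : ℤ × ℤ} {m₁ k₁ m₂ k₂ : ℤ}
    (h : k₁ + k₂ < nrm (q - p) ∨ nrm (q - p) + k₁ < m₂) :
    Disjoint (annC D p m₁ k₁) (annC D q m₂ k₂) := by
  rw [disjoint_left]
  intro z h1 h2
  rw [mem_annC] at h1 h2
  have h3 := nrm_sub_le z p q
  have h4 := nrm_sub_le q z p
  have hsymm : ∀ u v : ℤ × ℤ, nrm (u - v) = nrm (v - u) := by
    intro u v
    unfold nrm
    rw [Prod.fst_sub, Prod.snd_sub, Prod.fst_sub, Prod.snd_sub, abs_sub_comm u.1,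
      abs_sub_comm u.2]
  have h5 := hsymm p z
  have h6 := hsymm q z
  have h7 := hsymm p q
  omega

lemma nrm_bq_sub (x y : ℤ) : nrm (bq x - bq y) ≤ |x - y| := by
  rw [nrm_le]
  unfold bq
  simp only [Prod.fst_sub, Prod.snd_sub]
  constructor <;> rw [abs_le] <;> rcases abs_cases (x - y) with h | h <;> omega

lemma nrm_bq_sub_ge {x y : ℤ} (hy : 0 ≤ y) : min (y - x) y ≤ nrm (bq y - bq x) := by
  rw [le_nrm]
  left
  unfold bq
  simp only [Prod.fst_sub]
  refine le_trans ?_ (le_abs_self _)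
  omega

section
variable {k K c c' : ℝ} (H : Consts k K c c')
include H

/-- upper bound, far from the corner -/
lemma segQ_upper_flat {N : ℕ} {a₂ : ℤ} {l₁ g l₂ d : ℕ} (h1 : 1 ≤ l₁) (h2 : 1 ≤ l₂) (hd : 1 ≤ d)
    (hg : 8 * d ≤ g) (ha : |a₂| ≤ a₂ + g) {X Y : ℝ} (hX1 : l₁ < d → (l₁:ℝ) / d ≤ X)
    (hX2 : d ≤ l₁ → 1 ≤ X) (hY1 : l₂ < d → (l₂:ℝ) / d ≤ Y) (hY2 : d ≤ l₂ → 1 ≤ Y) :
    perc half (box 0 N 0 N) (SegQ (a₂ - l₁) a₂ (a₂ + g) (a₂ + g + l₂)) ≤
      (K * X ^ (1 / 3 : ℝ)) * (K * Y ^ (1 / 3 : ℝ)) := by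
  have hab := abs_cases a₂
  have hpq := nrm_bq_sub_ge (x := a₂) (y := a₂ + g) (by omega)
  set D := box 0 (N:ℤ) 0 N with hD
  have hdis : Disjoint (annC D (bq a₂) (min l₁ d : ℕ) d) (annC D (bq (a₂ + g)) (min l₂ d : ℕ) d) :=
    ann_disjoint (Or.inl (by omega))
  have e1 := prod2 (annC_sub D (bq a₂) (min l₁ d : ℕ) d)
    (annC_sub D (bq (a₂ + g)) (min l₂ d : ℕ) d) hdis (CrossC (bq a₂) (min l₁ d : ℕ) d)
    (CrossC (bq (a₂ + g)) (min l₂ d : ℕ) d)
  have e2 : perc half D (SegQ (a₂ - l₁) a₂ (a₂ + g) (a₂ + g + l₂)) ≤ _ :=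
    le_trans (perc_half_mono (by
      rintro ω hω ⟨x, y, x1, x2, y1, y2, hj⟩
      have hj' : Joined (ω ∩ edgesIn D) (bq x) (bq y) := by rwa [inter_eq_left.2 hω]
      constructor
      · apply crossC_of_joined (by omega) (by omega) _ _ hj'
        · intro h
          have h3 := nrm_bq_sub x a₂
          rw [abs_sub_comm, abs_of_nonneg (by omega)] at h3
          omega
        · intro h
          have h3 := nrm_bq_sub_ge (x := a₂) (y := y) (by omega)
          omega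
      · apply crossC_of_joined (by omega) (by omega) _ _ (joined_symm hj')
        · intro h
          have h3 := nrm_bq_sub y (a₂ + g)
          rw [abs_of_nonneg (by omega)] at h3
          omega
        · intro h
          have h3 := nrm_bq_sub_ge (x := x) (y := a₂ + g) (by omega)
          have h4 : nrm (bq (a₂ + g) - bq x) = nrm (bq x - bq (a₂ + g)) := by
            unfold nrm
            rw [Prod.fst_sub, Prod.snd_sub, Prod.fst_sub, Prod.snd_sub, abs_sub_comm (bq x).1,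
              abs_sub_comm (bq x).2]
          omega)) (le_of_eq e1)
  have hK := H.K1
  refine e2.trans (mul_le_mul ?_ ?_ (perc_half_nonneg _ _) ?_)
  · exact (cross_bq_le a₂ (min l₁ d) d).trans (crH_fac H h1 hX1 hX2)
  · exact (cross_bq_le (a₂ + g) (min l₂ d) d).trans (crH_fac H h2 hY1 hY2)
  · exact (crH_nonneg 0 (-1) (min l₁ d) d).trans (crH_fac H h1 hX1 hX2)

/-- upper bound, near the corner -/
lemma segQ_upper_corner {N : ℕ} {a₂ : ℤ} {l₁ g l₂ d R r : ℕ} (h1 : 1 ≤ l₁) (h2 : 1 ≤ l₂)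
    (hg : 8 * d ≤ g) (ha : |a₂| ≤ a₂ + g) (hR : |a₂ - l₁| + |a₂| = R) (hRd : R < d)
    (hr : 4 * r ≤ R)
    {X Y : ℝ} (hX1 : l₁ < r → (l₁:ℝ) / r ≤ X)
    (hX2 : r ≤ l₁ → 1 ≤ X) (hY1 : l₂ < d → (l₂:ℝ) / d ≤ Y) (hY2 : d ≤ l₂ → 1 ≤ Y) :
    perc half (box 0 N 0 N) (SegQ (a₂ - l₁) a₂ (a₂ + g) (a₂ + g + l₂)) ≤
      (K * X ^ (1 / 3 : ℝ)) * ((K * ((R:ℝ) / d) ^ (2 / 3 : ℝ)) * (K * Y ^ (1 / 3 : ℝ))) := by
  have hab := abs_cases a₂
  have hab1 := abs_cases (a₂ - l₁)
  have hR1 : 1 ≤ R := by omega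
  have hpq := nrm_bq_sub_ge (x := a₂) (y := a₂ + g) (by omega)
  set D := box 0 (N:ℤ) 0 N with hD
  have n1 : nrm ((0, 0) - bq a₂) = |a₂| := by
    rw [← nrm_bq a₂]
    unfold nrm
    simp only [Prod.fst_sub, Prod.snd_sub, zero_sub, abs_neg]
  have n2 : nrm (bq (a₂ + g) - (0, 0)) = |a₂ + g| := by
    rw [nrm_zero_sub, nrm_bq]
  have hag : |a₂ + g| = a₂ + g := abs_of_nonneg (by omega)
  have d1 : Disjoint (annC D (bq a₂) (min l₁ r : ℕ) r) (annC D (0, 0) (2 * R : ℕ) (2 * d : ℕ)) :=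
    ann_disjoint (Or.inr (by rw [n1]; push_cast; omega))
  have d2 : Disjoint (annC D (bq a₂) (min l₁ r : ℕ) r) (annC D (bq (a₂ + g)) (min l₂ d : ℕ) d) :=
    ann_disjoint (Or.inl (by omega))
  have d3 : Disjoint (annC D (0, 0) (2 * R : ℕ) (2 * d : ℕ))
      (annC D (bq (a₂ + g)) (min l₂ d : ℕ) d) :=
    ann_disjoint (Or.inl (by rw [n2]; push_cast; omega))
  have e1 := prod3 (annC_sub D (bq a₂) (min l₁ r : ℕ) r) (annC_sub D (0, 0) (2 * R : ℕ) (2 * d : ℕ))
    (annC_sub D (bq (a₂ + g)) (min l₂ d : ℕ) d) d1 d2 d3 (CrossC (bq a₂) (min l₁ r : ℕ) r)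
    (CrossC (0, 0) (2 * R : ℕ) (2 * d : ℕ)) (CrossC (bq (a₂ + g)) (min l₂ d : ℕ) d)
  have e2 : perc half D (SegQ (a₂ - l₁) a₂ (a₂ + g) (a₂ + g + l₂)) ≤ _ :=
    le_trans (perc_half_mono (by
      rintro ω hω ⟨x, y, x1, x2, y1, y2, hj⟩
      have hj' : Joined (ω ∩ edgesIn D) (bq x) (bq y) := by rwa [inter_eq_left.2 hω]
      refine ⟨?_, ?_, ?_⟩
      · apply crossC_of_joined (by omega) (by omega) _ _ hj'
        · intro h
          have h3 := nrm_bq_sub x a₂
          rw [abs_sub_comm, abs_of_nonneg (by omega)] at h3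
          omega
        · intro h
          have h3 := nrm_bq_sub_ge (x := a₂) (y := y) (by omega)
          omega
      · apply crossC_of_joined (by omega) (by push_cast; omega) _ _ hj'
        · intro h
          rw [nrm_zero_sub, nrm_bq, abs_le]
          push_cast
          omega
        · intro h
          rw [nrm_zero_sub, nrm_bq, abs_of_nonneg (by omega)]
          push_cast
          omega
      · apply crossC_of_joined (by omega) (by omega) _ _ (joined_symm hj')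
        · intro h
          have h3 := nrm_bq_sub y (a₂ + g)
          rw [abs_of_nonneg (by omega)] at h3
          omega
        · intro h
          have h3 := nrm_bq_sub_ge (x := x) (y := a₂ + g) (by omega)
          have h4 : nrm (bq (a₂ + g) - bq x) = nrm (bq x - bq (a₂ + g)) := by
            unfold nrm
            rw [Prod.fst_sub, Prod.snd_sub, Prod.fst_sub, Prod.snd_sub, abs_sub_comm (bq x).1,
              abs_sub_comm (bq x).2]
          omega)) (le_of_eq e1)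
  have hK := H.K1
  have q1 := (cross_bq_le (N := N) a₂ (min l₁ r) r).trans (crH_fac H h1 hX1 hX2)
  have q3 := (cross_bq_le (N := N) (a₂ + g) (min l₂ d) d).trans (crH_fac H h2 hY1 hY2)
  have q2 : perc half (annC D (0, 0) (2 * R : ℕ) (2 * d : ℕ))
      (CrossC (0, 0) (2 * R : ℕ) (2 * d : ℕ)) ≤ K * ((R:ℝ) / d) ^ (2 / 3 : ℝ) := by
    refine (cross_zero_le (2 * R) (2 * d)).trans
      ((H.upQ (2 * R) (2 * d) (by omega) (by omega)).trans (le_of_eq ?_))
    push_cast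
    rw [mul_div_mul_left _ _ (by norm_num : (2:ℝ) ≠ 0)]
  have q20 := (perc_half_nonneg (annC D (0, 0) (2 * R : ℕ) (2 * d : ℕ))
      (CrossC (0, 0) (2 * R : ℕ) (2 * d : ℕ))).trans q2
  exact e2.trans (mul_le_mul q1 (mul_le_mul q2 q3 (perc_half_nonneg _ _) q20)
    (mul_nonneg (perc_half_nonneg _ _) (perc_half_nonneg _ _))
    ((perc_half_nonneg _ _).trans q1))

/-- upper bound -/
lemma segQ_upper {N : ℕ} {a₂ : ℤ} {l₁ g l₂ R : ℕ} (h1 : 1 ≤ l₁) (hg : 1 ≤ g) (h2 : 1 ≤ l₂)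
    (ha : |a₂| ≤ a₂ + g) (hR : |a₂ - l₁| + |a₂| = R) :
    perc half (box 0 N 0 N) (SegQ (a₂ - l₁) a₂ (a₂ + g) (a₂ + g + l₂)) ≤
      K ^ 3 * (28672 * (gF l₁ R g * ((l₂:ℝ) / (l₂ + g)))) ^ (1 / 3 : ℝ) := by
  have hK := H.K1
  have hl1 : (1:ℝ) ≤ l₁ := by exact_mod_cast h1
  have hl2 : (1:ℝ) ≤ l₂ := by exact_mod_cast h2
  have hg0 : (1:ℝ) ≤ g := by exact_mod_cast hg
  have hab := abs_cases a₂
  have hab1 := abs_cases (a₂ - l₁)
  have hlR : l₁ ≤ R := by omega
  have hlR' : (l₁:ℝ) ≤ R := by exact_mod_cast hlR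
  have hR1 : (1:ℝ) ≤ R := by linarith
  have hK3 : 1 ≤ K ^ 3 := one_le_pow₀ hK
  have hK2 : K * K ≤ K ^ 3 := by nlinarith [mul_nonneg (by linarith : 0 ≤ K) (by linarith : 0 ≤ K)]
  have hG0 : 0 ≤ gF l₁ R g := gF_nonneg (by linarith) (by linarith) (by linarith)
  have hY0 : 0 ≤ (l₂:ℝ) / (l₂ + g) := by positivity
  obtain ⟨d, hd⟩ : ∃ d : ℕ, d = g / 8 := ⟨_, rfl⟩
  rcases Nat.eq_zero_or_pos d with hd0 | hd0
  · -- small gap
    refine (perc_half_le_one _ _).trans ?_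
    have hg7 : (g:ℝ) ≤ 7 := by
      have : g ≤ 7 := by omega
      exact_mod_cast this
    have e1 : 1 / 64 ≤ gF l₁ R g := by
      unfold gF
      rw [div_le_div_iff₀ (by norm_num) (by positivity)]
      have u1 : (l₁:ℝ) + g ≤ 8 * l₁ := by linarith
      have u2 : (R:ℝ) + g ≤ 8 * R := by linarith
      nlinarith [mul_le_mul u1 u2 (by positivity) (by positivity)]
    have e2 : 1 / 8 ≤ (l₂:ℝ) / (l₂ + g) := by
      rw [div_le_div_iff₀ (by norm_num) (by positivity)]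
      linarith
    have e3 : 1 ≤ 28672 * (gF l₁ R g * ((l₂:ℝ) / (l₂ + g))) := by
      have := mul_le_mul e1 e2 (by norm_num) hG0
      linarith
    have e4 := Real.one_le_rpow e3 (by norm_num : (0:ℝ) ≤ 1 / 3)
    nlinarith
  have hd1 : (1:ℝ) ≤ d := by exact_mod_cast hd0
  have hg15 : (g:ℝ) ≤ 15 * d := by
    have : g ≤ 15 * d := by omega
    exact_mod_cast this
  have Y1 : l₂ < d → (l₂:ℝ) / d ≤ 16 * ((l₂:ℝ) / (l₂ + g)) := by
    intro h
    have h' : (l₂:ℝ) ≤ d := by exact_mod_cast h.le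
    rw [mul_div_assoc', div_le_div_iff₀ (by linarith) (by positivity)]
    nlinarith
  have Y2 : d ≤ l₂ → 1 ≤ 16 * ((l₂:ℝ) / (l₂ + g)) := by
    intro h
    have h' : (d:ℝ) ≤ l₂ := by exact_mod_cast h
    rw [mul_div_assoc', le_div_iff₀ (by positivity)]
    linarith
  rcases Nat.lt_or_ge R d with hRd | hRd
  · obtain ⟨r, hr⟩ : ∃ r : ℕ, r = R / 4 := ⟨_, rfl⟩
    have hRd' : (R:ℝ) ≤ d := by exact_mod_cast hRd.le
    have X1 : l₁ < r → (l₁:ℝ) / r ≤ 7 * (l₁ / R) := by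
      intro h
      have hr1 : 1 ≤ r := by omega
      have hr1' : (1:ℝ) ≤ r := by exact_mod_cast hr1
      have h' : (R:ℝ) ≤ 7 * r := by
        have : R ≤ 7 * r := by omega
        exact_mod_cast this
      rw [mul_div_assoc', div_le_div_iff₀ (by linarith) (by linarith)]
      nlinarith
    have X2 : r ≤ l₁ → 1 ≤ 7 * ((l₁:ℝ) / R) := by
      intro h
      have h' : (R:ℝ) ≤ 7 * l₁ := by
        have : R ≤ 7 * l₁ := by omega
        exact_mod_cast this
      rw [mul_div_assoc', le_div_iff₀ (by linarith)]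
      linarith
    refine (segQ_upper_corner H (r := r) h1 h2 (by omega : 8 * d ≤ g) ha hR hRd (by omega)
      X1 X2 Y1 Y2).trans ?_
    rw [pow23_eq (by positivity)]
    have e1 : (K * (7 * ((l₁:ℝ) / R)) ^ (1 / 3 : ℝ)) * ((K * ((R:ℝ) / d * (R / d)) ^ (1 / 3 : ℝ)) *
        (K * (16 * ((l₂:ℝ) / (l₂ + g))) ^ (1 / 3 : ℝ))) =
        K ^ 3 * ((7 * ((l₁:ℝ) / R)) * (((R:ℝ) / d * (R / d)) * (16 * ((l₂:ℝ) / (l₂ + g))))) ^
          (1 / 3 : ℝ) := by
      rw [Real.mul_rpow (x := 7 * ((l₁:ℝ) / R)) (by positivity) (by positivity),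
        Real.mul_rpow (x := (R:ℝ) / d * (R / d)) (by positivity) (by positivity)]
      ring
    rw [e1]
    apply mul_le_mul_of_nonneg_left _ (by positivity)
    apply pow13_mono (by positivity)
    have e2 : (l₁:ℝ) / R * ((R:ℝ) / d * (R / d)) ≤ 256 * gF l₁ R g := by
      have : (l₁:ℝ) / R * ((R:ℝ) / d * (R / d)) = (l₁ * R) / (d * d) := by field_simp
      rw [this]
      unfold gF
      rw [mul_div_assoc', div_le_div_iff₀ (by positivity) (by positivity)]
      have u1 : (l₁:ℝ) + g ≤ 16 * d := by linarith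
      have u2 : (R:ℝ) + g ≤ 16 * d := by linarith
      have u3 := mul_le_mul u1 u2 (by positivity) (by positivity)
      have u4 : (0:ℝ) ≤ l₁ * R := by positivity
      nlinarith [mul_le_mul_of_nonneg_left u3 u4]
    calc 7 * ((l₁:ℝ) / R) * (((R:ℝ) / d * (R / d)) * (16 * ((l₂:ℝ) / (l₂ + g))))
        = 112 * (((l₁:ℝ) / R * ((R:ℝ) / d * (R / d))) * ((l₂:ℝ) / (l₂ + g))) := by ring
      _ ≤ 112 * ((256 * gF l₁ R g) * ((l₂:ℝ) / (l₂ + g))) := by
          apply mul_le_mul_of_nonneg_left _ (by norm_num)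
          exact mul_le_mul_of_nonneg_right e2 hY0
      _ = _ := by ring
  · have hRd' : (d:ℝ) ≤ R := by exact_mod_cast hRd
    have u2 : (R:ℝ) + g ≤ 16 * R := by linarith
    have X1 : l₁ < d → (l₁:ℝ) / d ≤ 256 * gF l₁ R g := by
      intro h
      have h' : (l₁:ℝ) ≤ d := by exact_mod_cast h.le
      unfold gF
      rw [mul_div_assoc', div_le_div_iff₀ (by linarith) (by positivity)]
      have u1 : (l₁:ℝ) + g ≤ 16 * d := by linarith
      have u3 := mul_le_mul u1 u2 (by positivity) (by positivity)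
      nlinarith [mul_le_mul_of_nonneg_left u3 (by linarith : (0:ℝ) ≤ l₁)]
    have X2 : d ≤ l₁ → 1 ≤ 256 * gF l₁ R g := by
      intro h
      have h' : (d:ℝ) ≤ l₁ := by exact_mod_cast h
      unfold gF
      rw [mul_div_assoc', le_div_iff₀ (by positivity)]
      have u1 : (l₁:ℝ) + g ≤ 16 * l₁ := by linarith
      have u3 := mul_le_mul u1 u2 (by positivity) (by positivity)
      nlinarith
    refine (segQ_upper_flat H h1 h2 hd0 (by omega) ha X1 X2 Y1 Y2).trans ?_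
    have e1 : (K * (256 * gF l₁ R g) ^ (1 / 3 : ℝ)) *
        (K * (16 * ((l₂:ℝ) / (l₂ + g))) ^ (1 / 3 : ℝ)) =
        K * K * ((256 * gF l₁ R g) * (16 * ((l₂:ℝ) / (l₂ + g)))) ^ (1 / 3 : ℝ) := by
      rw [Real.mul_rpow (x := 256 * gF l₁ R g) (by positivity) (by positivity)]
      ring
    rw [e1]
    apply mul_le_mul hK2 _ (by positivity) (by positivity)
    apply pow13_mono (by positivity)
    have := mul_nonneg hG0 hY0
    linarith

end

end H47Perc
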