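import Pool.Agent.Helper57.Perc.SegDefs

/-!
Connections between two arcs of the boundary of the quadrant: the definitions used in the
statements.
-/

namespace H47Perc

/-- the boundary of the quadrant: the point `(s,0)` for `s ≥ 0` and the point `(0,-s)` for
`s ≤ 0` -/
def bq (s : ℤ) : ℤ × ℤ := (max s 0, max (-s) 0)

/-- the boundary arcs `(a₁,a₂]` and `[a₃,a₄)` of the quadrant are joined by a path of open edges -/
def SegQ (a₁ a₂ a₃ a₄ : ℤ) (ω : Finset (Sym2 (ℤ × ℤ))) : Prop :=
  ∃ x y : ℤ, a₁ < x ∧ x ≤ a₂ ∧ a₃ ≤ y ∧ y < a₄ ∧ Joined ω (bq x) (bq y)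

/-- the image in the boundary of the half-plane under the map `z ↦ z²` -/
noncomputable def sq (s : ℝ) : ℝ := s * |s|

end H47Perc
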